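import Mathlib
import Pool.Agent.H75.Exact.StripDet

set_option autoImplicit false
open Finset

/-! Strip percolation with an arbitrary connection relation below the short side: the deterministic
part (generalisation of `Pool.Agent.H75.Exact.StripDet`). -/

namespace Pool.Agent.H30.Glue

open Pool.Agent.H65.Perc (PConf)
open Pool.Agent.H75.Exact
open Pool.Agent.H75.Exact.Det (tgt eqv_add eqv_fresh XX YY eA_even eA_odd eB_even eB_odd tgt_Y_false
  tgt_X_true tgt_Y_true tgt_X_false EL EA EB EA_zero EA_succ EA_last EB_succ EB_last exists_half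
  eA_ends eB_ends el_bound fA' fB' stepE_even stepE_odd f0 foldl_lay inS_of_mem exists_layer
  EL_mono)

/-- The relation only involves vertices of the half plane `x ≤ y`. -/
def Low (G : ℤ × ℤ → ℤ × ℤ → Prop) : Prop := ∀ u v, G u v → u.1 ≤ u.2 ∧ v.1 ≤ v.2

/-- The generators of the connection relation inside a set `E` of edges. -/
def Gen (n : ℕ) (G : ℤ × ℤ → ℤ × ℤ → Prop) (ω : PConf) (E : Set ((ℤ × ℤ) × Bool)) (u v : ℤ × ℤ) : Prop :=
  (u.1 + u.2 = 2 * n ∧ v.1 + v.2 = 2 * n) ∨
  G u v ∨ (∃ e ∈ E, ω e = true ∧ u = e.1 ∧ v = tgt e)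

/-- The connection relation. -/
abbrev Con (n : ℕ) (G : ℤ × ℤ → ℤ × ℤ → Prop) (ω : PConf) (E : Set ((ℤ × ℤ) × Bool)) : ℤ × ℤ → ℤ × ℤ → Prop :=
  Relation.EqvGen (Gen n G ω E)

section step

variable {n : ℕ} {G : ℤ × ℤ → ℤ × ℤ → Prop} {ω : PConf} {E : Set ((ℤ × ℤ) × Bool)} {N : ℕ}

lemma gen_insert_open {e : (ℤ × ℤ) × Bool} (he : ω e = true) :
    Gen n G ω (insert e E) = fun u v => Gen n G ω E u v ∨ (u = e.1 ∧ v = tgt e) := by
  funext u v
  apply propext
  constructor
  · rintro (h | h | ⟨f, hf, h1, h2⟩)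
    · exact Or.inl (Or.inl h)
    · exact Or.inl (Or.inr (Or.inl h))
    · rcases hf with rfl | hf
      · exact Or.inr h2
      · exact Or.inl (Or.inr (Or.inr ⟨f, hf, h1, h2⟩))
  · rintro ((h | h | ⟨f, hf, h⟩) | h)
    · exact Or.inl h
    · exact Or.inr (Or.inl h)
    · exact Or.inr (Or.inr ⟨f, Or.inr hf, h⟩)
    · exact Or.inr (Or.inr ⟨e, Or.inl rfl, he, h⟩)

lemma gen_insert_closed {e : (ℤ × ℤ) × Bool} (he : ω e = false) :
    Gen n G ω (insert e E) = Gen n G ω E := by
  funext u v
  apply propext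
  constructor
  · rintro (h | h | ⟨f, hf, h1, h2⟩)
    · exact Or.inl h
    · exact Or.inr (Or.inl h)
    · rcases hf with rfl | hf
      · rw [he] at h1; exact absurd h1 (by simp)
      · exact Or.inr (Or.inr ⟨f, hf, h1, h2⟩)
  · rintro (h | h | ⟨f, hf, h⟩)
    · exact Or.inl h
    · exact Or.inr (Or.inl h)
    · exact Or.inr (Or.inr ⟨f, Or.inr hf, h⟩)

lemma step_join {φ : Pt N → ℤ × ℤ} {c : Setoid (Pt N)}
    (hc : ∀ a b, c a b ↔ Con n G ω E (φ a) (φ b)) {x y : Pt N} {e : (ℤ × ℤ) × Bool}
    (hx : Con n G ω E e.1 (φ x)) (hy : Con n G ω E (tgt e) (φ y)) (a b : Pt N) :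
    (if ω e = true then join x y c else c) a b ↔ Con n G ω (insert e E) (φ a) (φ b) := by
  by_cases he : ω e = true
  · rw [if_pos he, Con, gen_insert_open he, eqv_add]
    change (c a b ∨ (c a x ∧ c b y) ∨ (c a y ∧ c b x)) ↔ _
    have key : ∀ d, (c d x ↔ Relation.EqvGen (Gen n G ω E) (φ d) e.1) ∧
        (c d y ↔ Relation.EqvGen (Gen n G ω E) (φ d) (tgt e)) := by
      intro d
      refine ⟨?_, ?_⟩
      · rw [hc]
        exact ⟨fun h => .trans _ _ _ h (.symm _ _ hx), fun h => .trans _ _ _ h hx⟩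
      · rw [hc]
        exact ⟨fun h => .trans _ _ _ h (.symm _ _ hy), fun h => .trans _ _ _ h hy⟩
    rw [(key a).1, (key a).2, (key b).1, (key b).2, hc]
  · have he' : ω e = false := by simpa using he
    rw [if_neg he, Con, gen_insert_closed he', hc]

lemma step_iso {φ φ' : Pt N → ℤ × ℤ} {c : Setoid (Pt N)}
    (hc : ∀ a b, c a b ↔ Con n G ω E (φ a) (φ b)) {x : Pt N} {p : ℤ × ℤ}
    {e : (ℤ × ℤ) × Bool} (hx : φ' x = p) (hφ : ∀ b, b ≠ x → φ' b = φ b)
    (hne : ∀ b, b ≠ x → φ b ≠ p) (hf : ∀ v, ¬ Gen n G ω E p v) (hf' : ∀ v, ¬ Gen n G ω E v p)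
    (he : (e.1 = φ x ∧ tgt e = p) ∨ (e.1 = p ∧ tgt e = φ x)) (a b : Pt N) :
    (if ω e = false then iso x c else c) a b ↔ Con n G ω (insert e E) (φ' a) (φ' b) := by
  have fr : ∀ {u v : ℤ × ℤ}, Relation.EqvGen (Gen n G ω E) u v → (u = p ↔ v = p) :=
    fun h => eqv_fresh hf hf' h
  by_cases ho : ω e = false
  · rw [if_pos ho, Con, gen_insert_closed ho]
    change (a = b ∨ (a ≠ x ∧ b ≠ x ∧ c a b)) ↔ _
    by_cases ha : a = x
    · subst ha
      by_cases hb : b = a
      · subst hb
        exact ⟨fun _ => .refl _, fun _ => Or.inl rfl⟩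
      · constructor
        · rintro (h | ⟨h, _⟩)
          · exact absurd h.symm hb
          · exact absurd rfl h
        · intro h
          have := (fr h).1 hx
          rw [hφ b hb] at this
          exact absurd this (hne b hb)
    · by_cases hb : b = x
      · subst hb
        constructor
        · rintro (h | ⟨_, h, _⟩)
          · exact absurd h ha
          · exact absurd rfl h
        · intro h
          have := (fr h).2 hx
          rw [hφ a ha] at this
          exact absurd this (hne a ha)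
      · rw [hφ a ha, hφ b hb]
        constructor
        · rintro (rfl | ⟨_, _, h⟩)
          · exact .refl _
          · exact (hc _ _).1 h
        · intro h
          exact Or.inr ⟨ha, hb, (hc _ _).2 h⟩
  · have ho' : ω e = true := by simpa using ho
    rw [if_neg ho, Con, gen_insert_open ho', eqv_add]
    have key : (Relation.EqvGen (Gen n G ω E) (φ' a) (φ' b) ∨
        (Relation.EqvGen (Gen n G ω E) (φ' a) e.1 ∧ Relation.EqvGen (Gen n G ω E) (φ' b) (tgt e)) ∨
        (Relation.EqvGen (Gen n G ω E) (φ' a) (tgt e) ∧ Relation.EqvGen (Gen n G ω E) (φ' b) e.1)) ↔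
        (Relation.EqvGen (Gen n G ω E) (φ' a) (φ' b) ∨
        (Relation.EqvGen (Gen n G ω E) (φ' a) (φ x) ∧ Relation.EqvGen (Gen n G ω E) (φ' b) p) ∨
        (Relation.EqvGen (Gen n G ω E) (φ' a) p ∧
          Relation.EqvGen (Gen n G ω E) (φ' b) (φ x))) := by
      rcases he with ⟨h1, h2⟩ | ⟨h1, h2⟩
      · rw [h1, h2]
      · rw [h1, h2]; tauto
    rw [key, hc]
    have hpp : ∀ d, d ≠ x → ¬ Relation.EqvGen (Gen n G ω E) (φ d) p := fun d hd h =>
      hne d hd ((fr h).2 rfl)
    have hpp' : ∀ d, d ≠ x → ¬ Relation.EqvGen (Gen n G ω E) p (φ d) := fun d hd h =>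
      hne d hd ((fr h).1 rfl)
    by_cases ha : a = x
    · subst ha
      by_cases hb : b = a
      · subst hb
        exact ⟨fun _ => Or.inl (.refl _), fun _ => .refl _⟩
      · rw [hφ b hb, hx]
        constructor
        · intro h
          exact Or.inr (Or.inr ⟨.refl _, .symm _ _ h⟩)
        · rintro (h | ⟨_, h⟩ | ⟨_, h⟩)
          · exact absurd h (hpp' b hb)
          · exact absurd h (hpp b hb)
          · exact .symm _ _ h
    · by_cases hb : b = x
      · subst hb
        rw [hφ a ha, hx]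
        constructor
        · intro h
          exact Or.inr (Or.inl ⟨h, .refl _⟩)
        · rintro (h | ⟨h, _⟩ | ⟨h, _⟩)
          · exact absurd h (hpp a ha)
          · exact h
          · exact absurd h (hpp a ha)
      · rw [hφ a ha, hφ b hb]
        constructor
        · exact fun h => Or.inl h
        · rintro (h | ⟨_, h⟩ | ⟨h, _⟩)
          · exact h
          · exact absurd h (hpp b hb)
          · exact absurd h (hpp a ha)

end step

/-! ### Positions -/


/-- The position map attached to positions of the columns. -/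
def pos (n : ℕ) (p : ℤ × ℤ) (f : ℕ → ℤ × ℤ) {N : ℕ} : Pt N → ℤ × ℤ
  | none => p
  | some none => ((n : ℤ), (n : ℤ))
  | some (some k) => f k

/-- A vertex off the wall, off the source and untouched by `E` is fresh. -/
lemma fresh_of {n : ℕ} {G : ℤ × ℤ → ℤ × ℤ → Prop} {ω : PConf} {E : Set ((ℤ × ℤ) × Bool)} {p : ℤ × ℤ}
    (hG : Low G) (h1 : p.1 + p.2 ≠ 2 * n) (h2 : p.2 < p.1) (h3 : ∀ e ∈ E, e.1 ≠ p ∧ tgt e ≠ p) :
    (∀ v, ¬ Gen n G ω E p v) ∧ (∀ v, ¬ Gen n G ω E v p) := by
  constructor
  · rintro v (h | h | ⟨e, he, _, h, _⟩)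
    · exact h1 h.1
    · exact absurd (hG _ _ h).1 (not_le.mpr h2)
    · exact (h3 e he).1 h.symm
  · rintro v (h | h | ⟨e, he, _, _, h⟩)
    · exact h1 h.2
    · exact absurd (hG _ _ h).2 (not_le.mpr h2)
    · exact (h3 e he).2 h.symm

lemma fresh_Y {n t k : ℕ} {G : ℤ × ℤ → ℤ × ℤ → Prop} (hG : Low G) {ω : PConf} :
    (∀ v, ¬ Gen n G ω (EA n t (2 * k - 1)) (YY t k) v) ∧
      (∀ v, ¬ Gen n G ω (EA n t (2 * k - 1)) v (YY t k)) := by
  apply fresh_of hG
  · simp only [YY]; omega
  · simp only [YY]; omega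
  · rintro e (h | ⟨i, h1, h2, rfl⟩)
    · obtain ⟨b1, b2⟩ := el_bound h
      constructor
      · intro h'
        rw [h'] at b1
        simp only [YY] at b1
        omega
      · intro h'
        rw [h'] at b2
        simp only [YY] at b2
        omega
    · obtain ⟨l, a1, a2, a3, a4, a5, a6, a7, a8, -⟩ := eA_ends t i h1
      constructor
      · intro h'
        rw [h'] at a5
        simp only [YY] at a5
        omega
      · intro h'
        rw [h'] at a6
        simp only [YY] at a6
        omega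

lemma fresh_X {n t k : ℕ} {G : ℤ × ℤ → ℤ × ℤ → Prop} (hG : Low G) (hk : k ≤ n) {ω : PConf} :
    (∀ v, ¬ Gen n G ω (EB n t (2 * n + 1 - 2 * k)) (XX (t + 1) k) v) ∧
      (∀ v, ¬ Gen n G ω (EB n t (2 * n + 1 - 2 * k)) v (XX (t + 1) k)) := by
  apply fresh_of hG
  · simp only [XX]; omega
  · simp only [XX]; push_cast; omega
  · rintro e (h | ⟨i, h1, h2, rfl⟩ | ⟨i, h1, h2, h3, rfl⟩)
    · obtain ⟨b1, b2⟩ := el_bound h
      constructor
      · intro h'
        rw [h'] at b1
        simp only [XX] at b1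
        push_cast at b1
        omega
      · intro h'
        rw [h'] at b2
        simp only [XX] at b2
        push_cast at b2
        omega
    · obtain ⟨l, a1, a2, -⟩ := eA_ends t i h1
      constructor
      · intro h'
        rw [h'] at a1
        simp only [XX] at a1
        push_cast at a1
        omega
      · intro h'
        rw [h'] at a2
        simp only [XX] at a2
        push_cast at a2
        omega
    · obtain ⟨l, a1, a2, a3, a4, a5, a6, a7, a8, -⟩ := eB_ends t i h2
      constructor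
      · intro h'
        rw [h'] at a5
        simp only [XX] at a5
        push_cast at a5
        omega
      · intro h'
        rw [h'] at a6
        simp only [XX] at a6
        push_cast at a6
        omega

/-! ### The two sweeps -/

/-- The invariant. -/
def Inv (n : ℕ) (G : ℤ × ℤ → ℤ × ℤ → Prop) (p : ℤ × ℤ) (ω : PConf) {N : ℕ} (E : Set ((ℤ × ℤ) × Bool)) (f : ℕ → ℤ × ℤ)
    (c : Setoid (Pt N)) : Prop :=
  ∀ a b, c a b ↔ Con n G ω E (pos n p f a) (pos n p f b)

lemma Inv.congr {n N : ℕ} {G : ℤ × ℤ → ℤ × ℤ → Prop} {p : ℤ × ℤ} {ω : PConf} {E E' : Set ((ℤ × ℤ) × Bool)} {f f' : ℕ → ℤ × ℤ}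
    {c : Setoid (Pt N)} (h : Inv n G p ω E f c) (hE : E = E') (hf : ∀ k < N, f k = f' k) :
    Inv n G p ω E' f' c := by
  subst hE
  intro a b
  have key : ∀ a : Pt N, pos n p f a = pos n p f' a := by
    rintro (_ | _ | k)
    · rfl
    · rfl
    · exact hf k k.2
  rw [h a b, key a, key b]

lemma con_nxt {n : ℕ} {G : ℤ × ℤ → ℤ × ℤ → Prop} {p : ℤ × ℤ} {ω : PConf} {E : Set ((ℤ × ℤ) × Bool)} {f : ℕ → ℤ × ℤ} {k : ℕ}
    (hk : k < n + 1) {v : ℤ × ℤ} (h1 : k + 1 < n + 1 → f (k + 1) = v)
    (h2 : k = n → v.1 + v.2 = 2 * n) :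
    Con n G ω E v (pos n p f (nxt (⟨k, hk⟩ : Fin (n + 1)))) := by
  unfold nxt
  split_ifs with h
  · have : pos n p f (col (⟨k + 1, h⟩ : Fin (n + 1))) = v := h1 h
    simp only [this]
    exact .refl _
  · refine .rel _ _ (Or.inl ⟨h2 ?_, ?_⟩)
    · simp only at h; omega
    · simp only [W, pos]; ring

lemma step_A {n t j : ℕ} {G : ℤ × ℤ → ℤ × ℤ → Prop} {p : ℤ × ℤ} {ω : PConf} (hj : j < 2 * n + 1) {c : Setoid (Pt (n + 1))}
    (hG : Low G) (hp : p.1 ≤ p.2) (h : Inv n G p ω (EA n t j) (fA' t j) c) :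
    Inv n G p ω (EA n t (j + 1)) (fA' t (j + 1)) (stepE n ω c (j + 2, eA t (j + 2))) := by
  rw [EA_succ]
  rcases exists_half (j + 2) (by omega) with ⟨k, hk⟩ | ⟨k, hk1, hk⟩
  · have hjk : j = 2 * k := by omega
    have hkn : k < n + 1 := by omega
    rw [hk, stepE_even hkn]
    have hx : Con n G ω (EA n t j) (eA t (2 * k + 2)).1 (pos n p (fA' t j) (col (⟨k, hkn⟩ : Fin (n + 1)))) := by
      have : pos n p (fA' t j) (col (⟨k, hkn⟩ : Fin (n + 1))) = YY t k := by
        simp only [col, pos, fA']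
        rw [if_pos (by omega)]
      rw [this, eA_even]
      exact .refl _
    have hy : Con n G ω (EA n t j) (tgt (eA t (2 * k + 2)))
        (pos n p (fA' t j) (nxt (⟨k, hkn⟩ : Fin (n + 1)))) := by
      rw [eA_even, tgt_Y_false]
      refine con_nxt hkn ?_ ?_
      · intro _
        simp only [fA']
        rw [if_neg (by omega)]
      · rintro rfl
        simp only [XX]
        push_cast
        ring
    have key : Inv n G p ω (insert (eA t (2 * k + 2)) (EA n t j)) (fA' t j)
        (if ω (eA t (2 * k + 2)) = true then join (col ⟨k, hkn⟩) (nxt ⟨k, hkn⟩) c else c) :=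
      fun a b => step_join h hx hy a b
    refine key.congr rfl ?_
    intro l _
    simp only [fA']
    by_cases hl : 2 * l ≤ j
    · rw [if_pos hl, if_pos (by omega)]
    · rw [if_neg hl, if_neg (by omega)]
  · have hjk : j = 2 * k - 1 := by omega
    have hkn : k < n + 1 := by omega
    rw [hk, stepE_odd hkn]
    obtain ⟨fr1, fr2⟩ := fresh_Y (n := n) (t := t) (k := k) hG (ω := ω)
    rw [← hjk] at fr1 fr2
    intro a b
    refine step_iso (φ := pos n p (fA' t j)) h (p := YY t k) ?_ ?_ ?_ fr1 fr2 (Or.inl ⟨?_, ?_⟩) a b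
    · simp only [col, pos, fA']
      rw [if_pos (by omega)]
    · rintro (_ | _ | l) hl
      · rfl
      · rfl
      · simp only [pos, fA']
        have hlk : (l : ℕ) ≠ k := fun h => hl (by simp only [col]; congr 2; exact Fin.ext h)
        by_cases h' : 2 * (l : ℕ) ≤ j
        · rw [if_pos h', if_pos (by omega)]
        · rw [if_neg h', if_neg (by omega)]
    · rintro (_ | _ | l) hl h'
      · simp only [pos, YY] at h'
        rw [h'] at hp
        simp only at hp
        omega
      · simp only [pos, YY, Prod.mk.injEq] at h'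
        omega
      · have hlk : (l : ℕ) ≠ k := fun h => hl (by simp only [col]; congr 2; exact Fin.ext h)
        simp only [pos, fA'] at h'
        split_ifs at h' with h''
        · simp only [YY, Prod.mk.injEq] at h'
          omega
        · simp only [YY, XX, Prod.mk.injEq] at h'
          omega
    · rw [eA_odd]
      simp only [col, pos, fA']
      rw [if_neg (by omega)]
    · rw [eA_odd, tgt_X_true]

lemma step_B {n t j : ℕ} {G : ℤ × ℤ → ℤ × ℤ → Prop} {p : ℤ × ℤ} {ω : PConf} (hj : j < 2 * n + 1) {c : Setoid (Pt (n + 1))}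
    (hG : Low G) (hp : p.1 ≤ p.2) (h : Inv n G p ω (EB n t j) (fB' n t j) c) :
    Inv n G p ω (EB n t (j + 1)) (fB' n t (j + 1))
      (stepE n ω c (2 * n + 2 - j, eB t (2 * n + 2 - j))) := by
  rw [EB_succ _ _ _ (by omega)]
  rcases exists_half (2 * n + 2 - j) (by omega) with ⟨k, hk⟩ | ⟨k, hk1, hk⟩
  · have hkn : k < n + 1 := by omega
    rw [hk, stepE_even hkn]
    have hx : Con n G ω (EB n t j) (eB t (2 * k + 2)).1
        (pos n p (fB' n t j) (col (⟨k, hkn⟩ : Fin (n + 1)))) := by
      have : pos n p (fB' n t j) (col (⟨k, hkn⟩ : Fin (n + 1))) = YY t k := by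
        simp only [col, pos, fB']
        rw [if_neg (by omega)]
      rw [this, eB_even]
      exact .refl _
    have hy : Con n G ω (EB n t j) (tgt (eB t (2 * k + 2)))
        (pos n p (fB' n t j) (nxt (⟨k, hkn⟩ : Fin (n + 1)))) := by
      rw [eB_even, tgt_Y_true]
      refine con_nxt hkn ?_ ?_
      · intro _
        simp only [fB']
        rw [if_pos (by omega)]
      · rintro rfl
        simp only [XX]
        push_cast
        ring
    have key : Inv n G p ω (insert (eB t (2 * k + 2)) (EB n t j)) (fB' n t j)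
        (if ω (eB t (2 * k + 2)) = true then join (col ⟨k, hkn⟩) (nxt ⟨k, hkn⟩) c else c) :=
      fun a b => step_join h hx hy a b
    refine key.congr rfl ?_
    intro l _
    simp only [fB']
    by_cases hl : 2 * n + 2 ≤ 2 * l + j
    · rw [if_pos hl, if_pos (by omega)]
    · rw [if_neg hl, if_neg (by omega)]
  · have hkn : k < n + 1 := by omega
    have hjk : j = 2 * n + 1 - 2 * k := by omega
    rw [hk, stepE_odd hkn]
    obtain ⟨fr1, fr2⟩ := fresh_X (n := n) (t := t) (k := k) hG (by omega) (ω := ω)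
    rw [← hjk] at fr1 fr2
    intro a b
    refine step_iso (φ := pos n p (fB' n t j)) h (p := XX (t + 1) k) ?_ ?_ ?_ fr1 fr2
      (Or.inr ⟨?_, ?_⟩) a b
    · simp only [col, pos, fB']
      rw [if_pos (by omega)]
    · rintro (_ | _ | l) hl
      · rfl
      · rfl
      · simp only [pos, fB']
        have hlk : (l : ℕ) ≠ k := fun h => hl (by simp only [col]; congr 2; exact Fin.ext h)
        by_cases h' : 2 * n + 2 ≤ 2 * (l : ℕ) + j
        · rw [if_pos h', if_pos (by omega)]
        · rw [if_neg h', if_neg (by omega)]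
    · rintro (_ | _ | l) hl h'
      · simp only [pos, XX] at h'
        rw [h'] at hp
        push_cast at hp
        omega
      · simp only [pos, XX, Prod.mk.injEq] at h'
        push_cast at h'
        omega
      · have hlk : (l : ℕ) ≠ k := fun h => hl (by simp only [col]; congr 2; exact Fin.ext h)
        simp only [pos, fB'] at h'
        split_ifs at h' with h''
        · simp only [XX, Prod.mk.injEq] at h'
          omega
        · simp only [YY, XX, Prod.mk.injEq] at h'
          push_cast at h'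
          omega
    · rw [eB_odd]
    · rw [eB_odd, tgt_X_false]
      simp only [col, pos, fB']
      rw [if_neg (by omega)]

lemma sweep_A {n t : ℕ} {G : ℤ × ℤ → ℤ × ℤ → Prop} {p : ℤ × ℤ} {ω : PConf} {c : Setoid (Pt (n + 1))}
    (hG : Low G) (hp : p.1 ≤ p.2) (h : Inv n G p ω (EA n t 0) (fA' t 0) c) (j : ℕ) (hj : j ≤ 2 * n + 1) :
    Inv n G p ω (EA n t j) (fA' t j)
      (((List.range j).map fun j => (j + 2, eA t (j + 2))).foldl (stepE n ω) c) := by
  induction j with
  | zero => simpa using h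
  | succ j ih =>
    rw [List.range_succ, List.map_append, List.foldl_append]
    exact step_A (by omega) hG hp (ih (by omega))
lemma sweep_B {n t : ℕ} {G : ℤ × ℤ → ℤ × ℤ → Prop} {p : ℤ × ℤ} {ω : PConf} {c : Setoid (Pt (n + 1))}
    (hG : Low G) (hp : p.1 ≤ p.2) (h : Inv n G p ω (EB n t 0) (fB' n t 0) c) (j : ℕ) (hj : j ≤ 2 * n + 1) :
    Inv n G p ω (EB n t j) (fB' n t j)
      (((List.range j).map fun j => (2 * n + 2 - j, eB t (2 * n + 2 - j))).foldl
        (stepE n ω) c) := by
  induction j with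
  | zero => simpa using h
  | succ j ih =>
    rw [List.range_succ, List.map_append, List.foldl_append]
    exact step_B (by omega) hG hp (ih (by omega))

lemma layer_step {n t : ℕ} {G : ℤ × ℤ → ℤ × ℤ → Prop} {p : ℤ × ℤ} {ω : PConf} {c : Setoid (Pt (n + 1))}
    (hG : Low G) (hp : p.1 ≤ p.2) (h : Inv n G p ω (EA n t 0) (fA' t 0) c) :
    Inv n G p ω (EL n (t + 1)) (fB' n t (2 * n + 1)) ((lay n t).foldl (stepE n ω) c) := by
  rw [foldl_lay, ← EB_last]
  refine sweep_B hG hp ?_ _ le_rfl
  refine (sweep_A hG hp h _ le_rfl).congr (EA_last n t) ?_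
  intro k hk
  simp only [fA', fB']
  rw [if_pos (by omega), if_neg (by omega)]

lemma up_inv {n t : ℕ} {G : ℤ × ℤ → ℤ × ℤ → Prop} {p : ℤ × ℤ} {ω : PConf} {c : Setoid (Pt n)}
    (hG : Low G) (hp : p.1 ≤ p.2) (h : Inv n G p ω (EL n t) (f0 t) c) : Inv n G p ω (EA n t 0) (fA' t 0) (up c) := by
  rw [EA_zero]
  have hemb : ∀ a : Pt n, pos n p (fA' t 0) (emb a) = pos n p (f0 t) a := by
    rintro (_ | _ | k)
    · rfl
    · rfl
    · simp only [emb, pos, fA', f0, Fin.val_succ]
      rw [if_neg (by omega)]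
  have hcol : pos n p (fA' t 0) (col (0 : Fin (n + 1))) = YY t 0 := by
    simp only [col, pos, fA']
    rw [if_pos (by simp)]
    simp
  have hcase : ∀ a : Pt (n + 1), a = col 0 ∨ ∃ a', emb a' = a := by
    rintro (_ | _ | k)
    · exact Or.inr ⟨none, rfl⟩
    · exact Or.inr ⟨some none, rfl⟩
    · refine Fin.cases (Or.inl rfl) (fun k => Or.inr ⟨some (some k), rfl⟩) k
  have hinj : Function.Injective (emb (n := n)) := by
    rintro (_ | _ | k) (_ | _ | l) h <;> simp [emb] at h ⊢
    exact h
  have hne0 : ∀ a' : Pt n, emb a' ≠ col (0 : Fin (n + 1)) := by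
    rintro (_ | _ | k) h <;> simp [emb, col] at h
  have fr : (∀ v, ¬ Gen n G ω (EL n t) (YY t 0) v) ∧ (∀ v, ¬ Gen n G ω (EL n t) v (YY t 0)) := by
    apply fresh_of hG
    · simp only [YY]; push_cast; omega
    · simp only [YY]; push_cast; omega
    · intro e he
      obtain ⟨b1, b2⟩ := el_bound he
      constructor
      · intro h'
        rw [h'] at b1
        simp only [YY] at b1
        push_cast at b1
        omega
      · intro h'
        rw [h'] at b2
        simp only [YY] at b2
        push_cast at b2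
        omega
  have hpos : ∀ a' : Pt n, pos n p (f0 t) a' ≠ YY t 0 := by
    rintro (_ | _ | k) h'
    · simp only [pos, YY] at h'
      rw [h'] at hp
      push_cast at hp
      omega
    · simp only [pos, YY, Prod.mk.injEq] at h'
      push_cast at h'
      omega
    · simp only [pos, YY, f0, XX, Prod.mk.injEq] at h'
      push_cast at h'
      omega
  intro a b
  change (a = b ∨ ∃ u' v', emb u' = a ∧ emb v' = b ∧ c u' v') ↔ _
  rcases hcase a with rfl | ⟨a', rfl⟩ <;> rcases hcase b with rfl | ⟨b', rfl⟩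
  · exact ⟨fun _ => .refl _, fun _ => Or.inl rfl⟩
  · constructor
    · rintro (h | ⟨u, v, h1, h2, _⟩)
      · exact absurd h.symm (hne0 b')
      · exact absurd h1 (hne0 u)
    · intro H
      have := (eqv_fresh fr.1 fr.2 H).1 hcol
      rw [hemb] at this
      exact absurd this (hpos b')
  · constructor
    · rintro (h | ⟨u, v, h1, h2, _⟩)
      · exact absurd h (hne0 a')
      · exact absurd h2 (hne0 v)
    · intro H
      have := (eqv_fresh fr.1 fr.2 H).2 hcol
      rw [hemb] at this
      exact absurd this (hpos a')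
  · rw [hemb, hemb, ← h a' b']
    constructor
    · rintro (h | ⟨u, v, h1, h2, h3⟩)
      · rw [hinj h]
      · rw [hinj h1, hinj h2] at h3; exact h3
    · intro h
      exact Or.inr ⟨a', b', rfl, rfl, h⟩

lemma down_inv {n t : ℕ} {G : ℤ × ℤ → ℤ × ℤ → Prop} {p : ℤ × ℤ} {ω : PConf} {c : Setoid (Pt (n + 1))}
    (h : Inv n G p ω (EL n (t + 1)) (fB' n t (2 * n + 1)) c) :
    Inv n G p ω (EL n (t + 1)) (f0 (t + 1)) (down c) := by
  have hemb : ∀ a : Pt n, pos n p (fB' n t (2 * n + 1)) (emb a) = pos n p (f0 (t + 1)) a := by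
    rintro (_ | _ | k)
    · rfl
    · rfl
    · simp only [emb, pos, fB', f0, Fin.val_succ]
      rw [if_pos (by omega)]
  intro a b
  change c (emb a) (emb b) ↔ _
  rw [h, hemb, hemb]
end Pool.Agent.H30.Glue
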