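import Mathlib
import Pool.Agent.H30.Glue.Det

set_option autoImplicit false
open Finset

/-! Generic sound/complete statements: a half-infinite strip with an arbitrary set `B` of further edges
below its short side and an arbitrary set `V` of source vertices. -/

namespace Pool.Agent.H30.Glue

open Pool.Agent.H65.Perc (PConf)
open Pool.Agent.H75.Exact
open Pool.Agent.H75.Exact.Det (tgt XX YY EL f0 inS_of_mem exists_layer EL_mono)

section Eqv

variable {α β : Type*}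

lemma eqv_map {R : α → α → Prop} {R' : β → β → Prop} (φ : α → β)
    (h : ∀ a b, R a b → Relation.EqvGen R' (φ a) (φ b)) {u v : α} (H : Relation.EqvGen R u v) :
    Relation.EqvGen R' (φ u) (φ v) := by
  induction H with
  | rel a b hab => exact h a b hab
  | refl a => exact .refl _
  | symm a b _ ih => exact .symm _ _ ih
  | trans a b c _ _ ih1 ih2 => exact .trans _ _ _ ih1 ih2

/-- two relations with disjoint supports -/
lemma eqv_or {R R' : α → α → Prop} (X : Set α) (h : ∀ a b, R a b → a ∈ X ∧ b ∈ X)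
    (h' : ∀ a b, R' a b → a ∉ X ∧ b ∉ X) {u v : α} :
    Relation.EqvGen (fun a b => R a b ∨ R' a b) u v ↔
      Relation.EqvGen R u v ∨ Relation.EqvGen R' u v := by
  have aux : ∀ {u v : α}, Relation.EqvGen R u v → u = v ∨ (u ∈ X ∧ v ∈ X) := by
    intro u v H
    induction H with
    | rel a b hab => exact Or.inr (h a b hab)
    | refl a => exact Or.inl rfl
    | symm a b _ ih => exact ih.imp Eq.symm And.symm
    | trans a b c _ _ ih1 ih2 =>
      rcases ih1 with rfl | ⟨h1, h2⟩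
      · exact ih2
      · rcases ih2 with rfl | ⟨h3, h4⟩
        · exact Or.inr ⟨h1, h2⟩
        · exact Or.inr ⟨h1, h4⟩
  have aux' : ∀ {u v : α}, Relation.EqvGen R' u v → u = v ∨ (u ∉ X ∧ v ∉ X) := by
    intro u v H
    induction H with
    | rel a b hab => exact Or.inr (h' a b hab)
    | refl a => exact Or.inl rfl
    | symm a b _ ih => exact ih.imp Eq.symm And.symm
    | trans a b c _ _ ih1 ih2 =>
      rcases ih1 with rfl | ⟨h1, h2⟩
      · exact ih2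
      · rcases ih2 with rfl | ⟨h3, h4⟩
        · exact Or.inr ⟨h1, h2⟩
        · exact Or.inr ⟨h1, h4⟩
  constructor
  · intro H
    induction H with
    | rel a b hab => exact hab.imp (.rel _ _) (.rel _ _)
    | refl a => exact Or.inl (.refl _)
    | symm a b _ ih => exact ih.imp (.symm _ _) (.symm _ _)
    | trans a b c _ _ ih1 ih2 =>
      rcases ih1 with h1 | h1 <;> rcases ih2 with h2 | h2
      · exact Or.inl (.trans _ _ _ h1 h2)
      · rcases aux h1 with rfl | ⟨_, hb⟩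
        · exact Or.inr h2
        · rcases aux' h2 with rfl | ⟨hb', _⟩
          · exact Or.inl h1
          · exact absurd hb hb'
      · rcases aux' h1 with rfl | ⟨_, hb⟩
        · exact Or.inl h2
        · rcases aux h2 with rfl | ⟨hb', _⟩
          · exact Or.inr h1
          · exact absurd hb' hb
      · exact Or.inr (.trans _ _ _ h1 h2)
  · rintro (H | H)
    · exact Relation.EqvGen.mono (fun _ _ => Or.inl) _ _ H
    · exact Relation.EqvGen.mono (fun _ _ => Or.inr) _ _ H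

end Eqv

/-- The relation below the row: the vertices of `V` are identified, and the open edges of `B`. -/
def Lo (V : Set (ℤ × ℤ)) (B : Set ((ℤ × ℤ) × Bool)) (ω : PConf) (u v : ℤ × ℤ) : Prop :=
  (u ∈ V ∧ v ∈ V) ∨ ∃ e ∈ B, ω e = true ∧ u = e.1 ∧ v = tgt e

/-- The graph of the open edges of a set of edges. -/
def EG (E : Set ((ℤ × ℤ) × Bool)) (ω : PConf) : SimpleGraph (ℤ × ℤ) :=
  SimpleGraph.fromRel (fun u v => ∃ e ∈ E, ω e = true ∧ u = e.1 ∧ v = tgt e)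

lemma tgt_ne (e : (ℤ × ℤ) × Bool) : e.1 ≠ tgt e := by
  obtain ⟨⟨x, y⟩, b⟩ := e
  cases b <;> simp [tgt]

lemma EG_adj {E : Set ((ℤ × ℤ) × Bool)} {ω : PConf} {e : (ℤ × ℤ) × Bool} (he : e ∈ E)
    (ho : ω e = true) : (EG E ω).Adj e.1 (tgt e) := by
  unfold EG
  rw [SimpleGraph.fromRel_adj]
  exact ⟨tgt_ne e, Or.inl ⟨e, he, ho, rfl, rfl⟩⟩

lemma EG_mono {E E' : Set ((ℤ × ℤ) × Bool)} (h : E ⊆ E') (ω : PConf) : EG E ω ≤ EG E' ω := by
  intro u v huv
  unfold EG at huv ⊢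
  rw [SimpleGraph.fromRel_adj] at huv ⊢
  obtain ⟨h1, h2⟩ := huv
  refine ⟨h1, ?_⟩
  rcases h2 with ⟨e, he, h3⟩ | ⟨e, he, h3⟩
  · exact Or.inl ⟨e, h he, h3⟩
  · exact Or.inr ⟨e, h he, h3⟩

/-- the generators of the connection relation, in the form of a graph -/
lemma gen_Lo_iff {n : ℕ} {V : Set (ℤ × ℤ)} {B E : Set ((ℤ × ℤ) × Bool)} {ω : PConf} {u v : ℤ × ℤ} :
    Gen n (Lo V B ω) ω E u v ↔ (u.1 + u.2 = 2 * n ∧ v.1 + v.2 = 2 * n) ∨ (u ∈ V ∧ v ∈ V) ∨
      ∃ e ∈ B ∪ E, ω e = true ∧ u = e.1 ∧ v = tgt e := by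
  unfold Gen Lo
  constructor
  · rintro (h | (h | ⟨e, he, h⟩) | ⟨e, he, h⟩)
    · exact Or.inl h
    · exact Or.inr (Or.inl h)
    · exact Or.inr (Or.inr ⟨e, Or.inl he, h⟩)
    · exact Or.inr (Or.inr ⟨e, Or.inr he, h⟩)
  · rintro (h | h | ⟨e, he | he, h⟩)
    · exact Or.inl h
    · exact Or.inr (Or.inl (Or.inl h))
    · exact Or.inr (Or.inl (Or.inr ⟨e, he, h⟩))
    · exact Or.inr (Or.inr ⟨e, he, h⟩)

lemma con_sound {n : ℕ} {V : Set (ℤ × ℤ)} {B E : Set ((ℤ × ℤ) × Bool)} {ω : PConf} {p w : ℤ × ℤ}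
    (hp : p ∈ V) (hw : w.1 + w.2 = 2 * n) (H : Con n (Lo V B ω) ω E p w) :
    ∃ u ∈ V, ∃ v : ℤ × ℤ, v.1 + v.2 = 2 * n ∧ (EG (B ∪ E) ω).Reachable u v := by
  by_contra hno
  have key : ∀ u v, Con n (Lo V B ω) ω E u v →
      ((∃ x ∈ V, (EG (B ∪ E) ω).Reachable x u) ↔ (∃ x ∈ V, (EG (B ∪ E) ω).Reachable x v)) := by
    intro u v H
    induction H with
    | rel a b hab =>
      rcases gen_Lo_iff.mp hab with ⟨h1, h2⟩ | ⟨h1, h2⟩ | ⟨e, he, ho, rfl, rfl⟩
      · constructor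
        · rintro ⟨x, hx, hr⟩; exact absurd ⟨x, hx, a, h1, hr⟩ hno
        · rintro ⟨x, hx, hr⟩; exact absurd ⟨x, hx, b, h2, hr⟩ hno
      · exact ⟨fun _ => ⟨b, h2, .refl _⟩, fun _ => ⟨a, h1, .refl _⟩⟩
      · have hadj := EG_adj he ho
        constructor
        · rintro ⟨x, hx, hr⟩; exact ⟨x, hx, hr.trans hadj.reachable⟩
        · rintro ⟨x, hx, hr⟩; exact ⟨x, hx, hr.trans hadj.symm.reachable⟩
    | refl a => exact Iff.rfl
    | symm a b _ ih => exact ih.symm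
    | trans a b c _ _ ih1 ih2 => exact ih1.trans ih2
  obtain ⟨x, hx, hr⟩ := (key _ _ H).1 ⟨p, hp, .refl _⟩
  exact hno ⟨x, hx, w, hw, hr⟩

lemma con_complete {n : ℕ} {V : Set (ℤ × ℤ)} {B E : Set ((ℤ × ℤ) × Bool)} {ω : PConf}
    {p w u v : ℤ × ℤ} (hp : p ∈ V) (hw : w.1 + w.2 = 2 * n) (hu : u ∈ V) (hv : v.1 + v.2 = 2 * n)
    (H : (EG (B ∪ E) ω).Reachable u v) : Con n (Lo V B ω) ω E p w := by
  have key : ∀ u v : ℤ × ℤ, (EG (B ∪ E) ω).Reachable u v → Con n (Lo V B ω) ω E u v := by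
    intro u v H
    obtain ⟨q⟩ := H
    induction q with
    | nil => exact .refl _
    | @cons a b c hab q ih =>
      refine .trans _ _ _ ?_ ih
      unfold EG at hab
      rw [SimpleGraph.fromRel_adj] at hab
      obtain ⟨-, h | h⟩ := hab
      · exact .rel _ _ (gen_Lo_iff.mpr (Or.inr (Or.inr h)))
      · exact .symm _ _ (.rel _ _ (gen_Lo_iff.mpr (Or.inr (Or.inr h))))
  exact .trans _ _ _ (.rel _ _ (gen_Lo_iff.mpr (Or.inr (Or.inl ⟨hp, hu⟩))))
    (.trans _ _ _ (key u v H) (.rel _ _ (gen_Lo_iff.mpr (Or.inl ⟨hv, hw⟩))))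

/-- a path in an increasing union of graphs -/
lemma reach_union {B E : ℕ → Set ((ℤ × ℤ) × Bool)} (hB : Monotone B) (hE : Monotone E)
    {ω : PConf} {u v : ℤ × ℤ} (H : (EG ((⋃ M, B M) ∪ ⋃ T, E T) ω).Reachable u v) :
    ∃ M₀, ∀ M ≥ M₀, ∃ T₀, ∀ T ≥ T₀, (EG (B M ∪ E T) ω).Reachable u v := by
  obtain ⟨q⟩ := H
  induction q with
  | nil => exact ⟨0, fun M _ => ⟨0, fun T _ => .refl _⟩⟩
  | @cons a b c hab q ih =>
    obtain ⟨M₀, h₀⟩ := ih
    have step : ∃ M₁ T₁, ∀ M ≥ M₁, ∀ T ≥ T₁, (EG (B M ∪ E T) ω).Adj a b := by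
      unfold EG at hab
      rw [SimpleGraph.fromRel_adj] at hab
      obtain ⟨hne, h⟩ := hab
      have aux : ∀ e, e ∈ (⋃ M, B M) ∪ ⋃ T, E T → ∃ M₁ T₁, ∀ M ≥ M₁, ∀ T ≥ T₁, e ∈ B M ∪ E T := by
        rintro e (he | he)
        · obtain ⟨M₁, h1⟩ := Set.mem_iUnion.mp he
          exact ⟨M₁, 0, fun M hM T _ => Or.inl (hB hM h1)⟩
        · obtain ⟨T₁, h1⟩ := Set.mem_iUnion.mp he
          exact ⟨0, T₁, fun M _ T hT => Or.inr (hE hT h1)⟩
      rcases h with ⟨e, he, h1, h2, h3⟩ | ⟨e, he, h1, h2, h3⟩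
      · obtain ⟨M₁, T₁, h4⟩ := aux e he
        refine ⟨M₁, T₁, fun M hM T hT => ?_⟩
        unfold EG
        rw [SimpleGraph.fromRel_adj]
        exact ⟨hne, Or.inl ⟨e, h4 M hM T hT, h1, h2, h3⟩⟩
      · obtain ⟨M₁, T₁, h4⟩ := aux e he
        refine ⟨M₁, T₁, fun M hM T hT => ?_⟩
        unfold EG
        rw [SimpleGraph.fromRel_adj]
        exact ⟨hne, Or.inr ⟨e, h4 M hM T hT, h1, h2, h3⟩⟩
    obtain ⟨M₁, T₁, h₁⟩ := step
    refine ⟨max M₀ M₁, fun M hM => ?_⟩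
    obtain ⟨T₀, h₀'⟩ := h₀ M (le_trans (le_max_left _ _) hM)
    refine ⟨max T₀ T₁, fun T hT => ?_⟩
    exact (h₁ M (le_trans (le_max_right _ _) hM) T (le_trans (le_max_right _ _) hT)).reachable.trans
      (h₀' T (le_trans (le_max_left _ _) hT))

/-- Con is monotone in the edges -/
lemma Con_mono {n : ℕ} {G : ℤ × ℤ → ℤ × ℤ → Prop} {ω : PConf} {E E' : Set ((ℤ × ℤ) × Bool)}
    (h : E ⊆ E') {u v : ℤ × ℤ} (H : Con n G ω E u v) : Con n G ω E' u v := by
  refine Relation.EqvGen.mono ?_ _ _ H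
  rintro a b (h1 | h1 | ⟨e, he, h2⟩)
  · exact Or.inl h1
  · exact Or.inr (Or.inl h1)
  · exact Or.inr (Or.inr ⟨e, h he, h2⟩)

/-! ### The process of partitions started from an arbitrary partition -/

/-- the partition after `t` layers, started from `c` -/
noncomputable def runC (n : ℕ) (c : Setoid (Pt n)) (ω : PConf) : ℕ → Setoid (Pt n)
  | 0 => c
  | t + 1 => down ((lay n t).foldl (stepE n ω) (up (runC n c ω t)))

lemma runC_inv {n : ℕ} {G : ℤ × ℤ → ℤ × ℤ → Prop} {p : ℤ × ℤ} {ω : PConf} {c : Setoid (Pt n)}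
    (hG : Low G) (hp : p.1 ≤ p.2) (h : Inv n G p ω ∅ (f0 0) c) (t : ℕ) :
    Inv n G p ω (EL n t) (f0 t) (runC n c ω t) := by
  induction t with
  | zero =>
    refine h.congr ?_ fun _ _ => rfl
    ext e
    simp only [EL, Set.mem_ofPred_eq, Set.mem_empty_iff_false, false_iff]
    rintro ⟨s, hs, _⟩
    omega
  | succ t ih => exact down_inv (layer_step hG hp (up_inv hG hp ih))

lemma runC_iff {n : ℕ} {G : ℤ × ℤ → ℤ × ℤ → Prop} {p : ℤ × ℤ} {ω : PConf} {c : Setoid (Pt n)}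
    (hG : Low G) (hp : p.1 ≤ p.2) (h : Inv n G p ω ∅ (f0 0) c) (t : ℕ) :
    runC n c ω t S W ↔ Con n G ω (EL n t) p ((n : ℤ), (n : ℤ)) :=
  runC_inv hG hp h t S W

end Pool.Agent.H30.Glue
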