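import Mathlib
import Pool.Agent.H30.Glue.Gen

set_option autoImplicit false
open Finset

/-! A translated half-infinite strip below the row, truncated at depth `M`. -/

namespace Pool.Agent.H30.Glue

open Pool.Agent.H65.Perc (PConf)
open Pool.Agent.H75.Exact
open Pool.Agent.H75.Exact.Det (tgt XX YY EL f0 inS_of_mem exists_layer EL_mono)

/-- translation of edges -/
def she (a : ℤ × ℤ) (e : (ℤ × ℤ) × Bool) : (ℤ × ℤ) × Bool := (e.1 + a, e.2)

/-- translation of configurations -/
def shω (a : ℤ × ℤ) (ω : PConf) : PConf := fun e => ω (she a e)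

lemma tgt_she (a : ℤ × ℤ) (e : (ℤ × ℤ) × Bool) : tgt (she a e) = tgt e + a := by
  obtain ⟨⟨x, y⟩, b⟩ := e
  obtain ⟨a1, a2⟩ := a
  cases b
  · simp only [tgt, she, Prod.mk_add_mk, Bool.false_eq_true, if_false, Prod.mk.injEq]
    exact ⟨trivial, by ring⟩
  · simp only [tgt, she, Prod.mk_add_mk, if_true, Prod.mk.injEq]
    exact ⟨by ring, trivial⟩

lemma she_inj (a : ℤ × ℤ) : Function.Injective (she a) := by
  intro e e' h
  simp only [she, Prod.mk.injEq] at h
  exact Prod.ext (add_right_cancel h.1) h.2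

/-- the first `M` layers of the strip with `m` columns, translated so that its last row is the row
`(k + s, k + s)` -/
def BM (m : ℕ) (s : ℤ) (M : ℕ) : Set ((ℤ × ℤ) × Bool) := she (s - M, s + M) '' EL m M

/-- The relation in a translated strip: wired wall `V = {x + y = 2 (m + s), x ≤ y}` and open edges. -/
def VW (w : ℤ) : Set (ℤ × ℤ) := {u | u.1 + u.2 = 2 * w ∧ u.1 ≤ u.2}

/-- no relation -/
def noR : ℤ × ℤ → ℤ × ℤ → Prop := fun _ _ => False

lemma low_noR : Low noR := fun _ _ h => h.elim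

/-- all singletons -/
lemma inv_bot (m : ℕ) (ω : PConf) : Inv m noR (-1, 0) ω ∅ (f0 0) (⊥ : Setoid (Pt m)) := by
  have hR : ∀ u v : ℤ × ℤ, Con m noR ω ∅ u v ↔
      (u = v ∨ (u.1 + u.2 = 2 * m ∧ v.1 + v.2 = 2 * m)) := by
    intro u v
    constructor
    · intro h
      induction h with
      | rel a b h =>
        rcases h with h | h | ⟨e, he, _⟩
        · exact Or.inr h
        · exact h.elim
        · exact absurd he (by simp)
      | refl a => exact Or.inl rfl
      | symm a b _ ih => exact ih.imp Eq.symm And.symm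
      | trans a b c _ _ ih1 ih2 =>
        rcases ih1 with rfl | ⟨h1, h2⟩
        · exact ih2
        · rcases ih2 with rfl | ⟨g1, g2⟩
          · exact Or.inr ⟨h1, h2⟩
          · exact Or.inr ⟨h1, g2⟩
    · rintro (rfl | h)
      · exact .refl _
      · exact .rel _ _ (Or.inl h)
  intro a b
  rw [hR]
  change a = b ↔ _
  constructor
  · rintro rfl; exact Or.inl rfl
  · rcases a with _ | _ | k <;> rcases b with _ | _ | l <;> intro h
    · rfl
    · simp only [pos, Prod.mk.injEq] at h
      omega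
    · simp only [pos, f0, XX, Prod.mk.injEq] at h
      push_cast at h
      omega
    · simp only [pos, Prod.mk.injEq] at h
      omega
    · rfl
    · simp only [pos, f0, XX, Prod.mk.injEq] at h
      push_cast at h
      have := l.2
      omega
    · simp only [pos, f0, XX, Prod.mk.injEq] at h
      push_cast at h
      omega
    · simp only [pos, f0, XX, Prod.mk.injEq] at h
      push_cast at h
      have := k.2
      omega
    · simp only [pos, f0, XX, Prod.mk.injEq] at h
      push_cast at h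
      have := k.2
      have := l.2
      congr 2
      apply Fin.ext
      omega

lemma mem_BM {m : ℕ} {s : ℤ} {M : ℕ} {e : (ℤ × ℤ) × Bool} (h : e ∈ BM m s M) :
    (2 * s - 1 ≤ e.1.1 + e.1.2 ∧ e.1.1 + e.1.2 ≤ 2 * (m + s) ∧ e.1.1 ≤ e.1.2) ∧
    (2 * s - 1 ≤ (tgt e).1 + (tgt e).2 ∧ (tgt e).1 + (tgt e).2 ≤ 2 * (m + s) ∧
      (tgt e).1 ≤ (tgt e).2) := by
  obtain ⟨e', he', rfl⟩ := h
  obtain ⟨⟨h1, h2, h3⟩, ⟨g1, g2, g3⟩⟩ := inS_of_mem he'
  obtain ⟨b1, b2⟩ := Det.el_bound he'
  rw [tgt_she]
  simp only [she, Prod.fst_add, Prod.snd_add]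
  refine ⟨⟨?_, ?_, ?_⟩, ⟨?_, ?_, ?_⟩⟩ <;> omega

/-- The state of the run in the translated strip, in terms of the wired wall `VW (m + s)` and the
open edges of `BM m s M`. -/
lemma run_BM (m : ℕ) (s : ℤ) (M : ℕ) (ω : PConf) (a b : Pt m) :
    runC m ⊥ (shω (s - M, s + M) ω) M a b ↔
      Relation.EqvGen (Lo (VW (m + s)) (BM m s M) ω) (pos m (-1, 0) (f0 M) a + (s - M, s + M))
        (pos m (-1, 0) (f0 M) b + (s - M, s + M)) := by
  rw [runC_inv low_noR (by norm_num) (inv_bot m _) M a b]
  set sh : ℤ × ℤ := (s - M, s + M) with hsh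
  constructor
  · intro H
    -- project the upper part of the wall to the row
    set φ : ℤ × ℤ → ℤ × ℤ := fun u =>
      if u.1 + u.2 = 2 * m ∧ 2 * M < u.1 - u.2 then ((m : ℤ) + s, (m : ℤ) + s) else u + sh with hφ
    have hφ0 : ∀ u : ℤ × ℤ, u.1 - u.2 ≤ 2 * M → φ u = u + sh := by
      intro u hu
      simp only [hφ]
      rw [if_neg (by omega)]
    have hpos : ∀ a : Pt m, (pos m (-1, 0) (f0 M) a).1 - (pos m (-1, 0) (f0 M) a).2 ≤ 2 * M := by
      rintro (_ | _ | k)
      · simp only [pos]; omega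
      · simp only [pos]; omega
      · simp only [pos, f0, XX]; push_cast; omega
    rw [← hφ0 _ (hpos a), ← hφ0 _ (hpos b)]
    refine eqv_map φ ?_ H
    rintro u v (⟨h1, h2⟩ | h | ⟨e, he, ho, rfl, rfl⟩)
    · refine .rel _ _ (Or.inl ⟨?_, ?_⟩)
      · simp only [hφ, VW, Set.mem_ofPred_eq]
        split_ifs with h3
        · simp only; constructor <;> omega
        · simp only [Prod.fst_add, Prod.snd_add, hsh]; constructor <;> omega
      · simp only [hφ, VW, Set.mem_ofPred_eq]
        split_ifs with h3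
        · simp only; constructor <;> omega
        · simp only [Prod.fst_add, Prod.snd_add, hsh]; constructor <;> omega
    · exact h.elim
    · obtain ⟨b1, b2⟩ := Det.el_bound he
      rw [hφ0 _ b1, hφ0 _ b2]
      exact .rel _ _ (Or.inr ⟨she sh e, ⟨e, he, rfl⟩, ho, rfl, (tgt_she sh e).symm⟩)
  · intro H
    have h1 := eqv_map (R := Lo (VW (m + s)) (BM m s M) ω)
      (R' := Gen m noR (shω sh ω) (EL m M)) (fun u => u - sh) ?_ H
    · simpa using h1
    · rintro u v (⟨⟨h1, h1'⟩, ⟨h2, h2'⟩⟩ | ⟨e, ⟨e', he', rfl⟩, ho, rfl, rfl⟩)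
      · refine .rel _ _ (Or.inl ⟨?_, ?_⟩)
        · simp only [Prod.fst_sub, Prod.snd_sub, hsh]; omega
        · simp only [Prod.fst_sub, Prod.snd_sub, hsh]; omega
      · refine .rel _ _ (Or.inr (Or.inr ⟨e', he', ho, ?_, ?_⟩))
        · change e'.1 + sh - sh = e'.1
          exact add_sub_cancel_right _ _
        · change tgt (she sh e') - sh = tgt e'
          rw [tgt_she]
          exact add_sub_cancel_right _ _

end Pool.Agent.H30.Glue
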