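import Mathlib
import Pool.Agent.H30.Glue.Shift
import Pool.Agent.H72.Cardy.PDefs

set_option autoImplicit false
open Finset

/-! The L-shaped strip: the geometry. -/

namespace Pool.Agent.H30.Glue

open Pool.Agent.H65.Perc (PConf)
open Pool.Agent.H75.Exact
open Pool.Agent.H72.CardyP
open Pool.Agent.H75.Exact.Det (tgt XX YY EL f0 inS_of_mem exists_layer EL_mono)

/-! ### Integer times -/

lemma eAZ_eq (M t i : ℕ) : eAZ (-(M : ℤ) + t) i = she (0 - (M : ℤ), 0 + (M : ℤ)) (eA t i) := by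
  unfold eAZ eA she
  split_ifs
  · refine Prod.ext (Prod.ext ?_ ?_) rfl <;> simp only [Prod.fst_add, Prod.snd_add] <;> ring
  · refine Prod.ext (Prod.ext ?_ ?_) rfl <;> simp only [Prod.fst_add, Prod.snd_add] <;> ring

lemma eBZ_eq (M t i : ℕ) : eBZ (-(M : ℤ) + t) i = she (0 - (M : ℤ), 0 + (M : ℤ)) (eB t i) := by
  unfold eBZ eB she
  split_ifs
  · refine Prod.ext (Prod.ext ?_ ?_) rfl <;> simp only [Prod.fst_add, Prod.snd_add] <;> ring
  · refine Prod.ext (Prod.ext ?_ ?_) rfl <;> simp only [Prod.fst_add, Prod.snd_add] <;> ring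

lemma layZ_eq (n M t : ℕ) : layZ n (-(M : ℤ) + t) =
    (lay n t).map (fun p => (p.1, she (0 - (M : ℤ), 0 + (M : ℤ)) p.2)) := by
  unfold layZ lay
  rw [List.map_append, List.map_reverse, List.map_map, List.map_map]
  congr 1
  · apply List.map_congr_left
    intro j _
    simp only [Function.comp, eAZ_eq]
  · congr 1
    apply List.map_congr_left
    intro j _
    simp only [Function.comp, eBZ_eq]

lemma runZ_eq (n M : ℕ) (c : Setoid (Pt n)) (ω : PConf) (T : ℕ) :
    runZ n (-(M : ℤ)) c ω T = runC n c (shω (0 - (M : ℤ), 0 + (M : ℤ)) ω) T := by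
  induction T with
  | zero => rfl
  | succ T ih =>
    simp only [runZ, runC]
    rw [ih, layZ_eq, List.foldl_map]
    rfl

lemma layZ_zero (n t : ℕ) : layZ n (0 + (t : ℤ)) = lay n t := by
  have h := layZ_eq n 0 t
  simp only [Nat.cast_zero, neg_zero] at h
  rw [h]
  conv_rhs => rw [← List.map_id (lay n t)]
  apply List.map_congr_left
  rintro ⟨i, ⟨u, b⟩⟩ _
  simp [she]

lemma runZ_zero (n : ℕ) (c : Setoid (Pt n)) (ω : PConf) (T : ℕ) :
    runZ n 0 c ω T = runC n c ω T := by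
  induction T with
  | zero => rfl
  | succ T ih =>
    simp only [runZ, runC]
    rw [ih, layZ_zero]

/-! ### The initial partition of the wide strip -/

lemma lo_isolated {V : Set (ℤ × ℤ)} {B : Set ((ℤ × ℤ) × Bool)} {ω : PConf} {u v : ℤ × ℤ}
    (h1 : u ∉ V) (h2 : ∀ e ∈ B, e.1 ≠ u ∧ tgt e ≠ u) (H : Relation.EqvGen (Lo V B ω) u v) :
    u = v := by
  have := (Det.eqv_fresh (G := Lo V B ω) (p := u) ?_ ?_ H).1 rfl
  · exact this.symm
  · rintro w (⟨h, _⟩ | ⟨e, he, _, h, _⟩)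
    · exact h1 h
    · exact (h2 e he).1 h.symm
  · rintro w (⟨_, h⟩ | ⟨e, he, _, _, h⟩)
    · exact h1 h
    · exact (h2 e he).2 h.symm

lemma ext_inv (m n : ℕ) (hmn : m < n) (ω : PConf) (M : ℕ) :
    Inv n (Lo (VW (m + 0)) (BM m 0 M) ω) ((m : ℤ), (m : ℤ)) ω ∅ (f0 0)
      (ext m n (runC m ⊥ (shω (0 - (M : ℤ), 0 + (M : ℤ)) ω) M)) := by
  set V : Set (ℤ × ℤ) := VW (m + 0) with hV
  set B := BM m 0 M with hB
  set sh : ℤ × ℤ := (0 - (M : ℤ), 0 + (M : ℤ)) with hsh
  set c := runC m ⊥ (shω sh ω) M with hc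
  have hrun : ∀ a b : Pt m, c a b ↔ Relation.EqvGen (Lo V B ω) (pos m (-1, 0) (f0 M) a + sh)
      (pos m (-1, 0) (f0 M) b + sh) := fun a b => run_BM m 0 M ω a b
  have hBs : ∀ e ∈ B, e.1.1 + e.1.2 ≤ 2 * m ∧ (tgt e).1 + (tgt e).2 ≤ 2 * m := by
    intro e he
    obtain ⟨⟨_, h1, _⟩, ⟨_, h2, _⟩⟩ := mem_BM he
    constructor <;> omega
  -- the relation splits
  have hsplit : ∀ u v : ℤ × ℤ, Con n (Lo V B ω) ω ∅ u v ↔
      Relation.EqvGen (fun u v : ℤ × ℤ => u.1 + u.2 = 2 * (n : ℤ) ∧ v.1 + v.2 = 2 * (n : ℤ)) u v ∨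
      Relation.EqvGen (Lo V B ω) u v := by
    intro u v
    rw [← eqv_or (X := {u : ℤ × ℤ | u.1 + u.2 = 2 * (n : ℤ)})]
    · have : Gen n (Lo V B ω) ω ∅ = fun u v =>
          (u.1 + u.2 = 2 * (n : ℤ) ∧ v.1 + v.2 = 2 * (n : ℤ)) ∨ Lo V B ω u v := by
        funext u v
        apply propext
        unfold Gen
        constructor
        · rintro (h | h | ⟨e, he, _⟩)
          · exact Or.inl h
          · exact Or.inr h
          · exact absurd he (by simp)
        · rintro (h | h)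
          · exact Or.inl h
          · exact Or.inr (Or.inl h)
      rw [← this]
    · intro a b h
      exact h
    · rintro a b (⟨⟨h1, _⟩, ⟨h2, _⟩⟩ | ⟨e, he, _, rfl, rfl⟩)
      · simp only [Set.mem_ofPred_eq]
        constructor <;> omega
      · have := hBs e he
        simp only [Set.mem_ofPred_eq]
        constructor <;> omega
  have hwall : ∀ u v : ℤ × ℤ,
      Relation.EqvGen (fun u v : ℤ × ℤ => u.1 + u.2 = 2 * (n : ℤ) ∧ v.1 + v.2 = 2 * (n : ℤ)) u v →
      u = v ∨ (u.1 + u.2 = 2 * n ∧ v.1 + v.2 = 2 * n) := by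
    intro u v h
    induction h with
    | rel a b h => exact Or.inr h
    | refl a => exact Or.inl rfl
    | symm a b _ ih => exact ih.imp Eq.symm And.symm
    | trans a b c _ _ ih1 ih2 =>
      rcases ih1 with rfl | ⟨h1, h2⟩
      · exact ih2
      · rcases ih2 with rfl | ⟨g1, g2⟩
        · exact Or.inr ⟨h1, h2⟩
        · exact Or.inr ⟨h1, g2⟩
  -- positions of the points that belong to the narrow strip
  have hmap : ∀ (a : Pt n) (a' : Pt m), extMap m a = some a' →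
      Relation.EqvGen (Lo V B ω) (pos n ((m : ℤ), (m : ℤ)) (f0 0) a)
        (pos m (-1, 0) (f0 M) a' + sh) := by
    have hW : Relation.EqvGen (Lo V B ω) ((m : ℤ), (m : ℤ)) (((m : ℤ), (m : ℤ)) + sh) := by
      refine .rel _ _ (Or.inl ⟨?_, ?_⟩)
      · simp only [hV, VW, Set.mem_ofPred_eq]
        constructor <;> omega
      · simp only [hV, VW, hsh, Set.mem_ofPred_eq, Prod.fst_add, Prod.snd_add]
        constructor <;> omega
    rintro (_ | _ | k) a' h
    · simp only [extMap, Option.some.injEq] at h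
      subst h
      exact hW
    · simp [extMap] at h
    · simp only [extMap] at h
      split_ifs at h with h1 h2
      · simp only [Option.some.injEq] at h
        subst h
        have : pos n ((m : ℤ), (m : ℤ)) (f0 0) (some (some k)) =
            pos m (-1, 0) (f0 M) (col (⟨(k : ℕ), h1⟩ : Fin m)) + sh := by
          simp only [pos, col, f0, XX, hsh]
          refine Prod.ext ?_ ?_ <;> simp only [Prod.fst_add, Prod.snd_add] <;> push_cast <;> ring
        rw [this]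
        exact .refl _
      · simp only [Option.some.injEq] at h
        subst h
        have : pos n ((m : ℤ), (m : ℤ)) (f0 0) (some (some k)) = ((m : ℤ), (m : ℤ)) := by
          simp only [pos, f0, XX]
          refine Prod.ext ?_ ?_ <;> simp only [] <;> push_cast <;> omega
        rw [this]
        exact hW
  -- the other points are isolated
  have hnone : ∀ a : Pt n, extMap m a = none → ∀ v,
      Relation.EqvGen (Lo V B ω) (pos n ((m : ℤ), (m : ℤ)) (f0 0) a) v →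
      pos n ((m : ℤ), (m : ℤ)) (f0 0) a = v := by
    intro a ha v H
    have hlt : 2 * (m : ℤ) < (pos n ((m : ℤ), (m : ℤ)) (f0 0) a).1 +
        (pos n ((m : ℤ), (m : ℤ)) (f0 0) a).2 := by
      rcases a with _ | _ | k
      · simp [extMap] at ha
      · simp only [pos]; omega
      · simp only [extMap] at ha
        split_ifs at ha with h1 h2
        simp only [pos, f0, XX]
        push_cast
        omega
    refine lo_isolated ?_ ?_ H
    · rintro ⟨h1, _⟩
      omega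
    · intro e he
      obtain ⟨h1, h2⟩ := hBs e he
      constructor
      · intro h; rw [h] at h1; omega
      · intro h; rw [h] at h2; omega
  have hinj : ∀ a b : Pt n, extMap m a = none →
      pos n ((m : ℤ), (m : ℤ)) (f0 0) a = pos n ((m : ℤ), (m : ℤ)) (f0 0) b → a = b := by
    intro a b ha h
    rcases a with _ | _ | k
    · simp [extMap] at ha
    · rcases b with _ | _ | l
      · simp only [pos, Prod.mk.injEq] at h; omega
      · rfl
      · simp only [pos, f0, XX, Prod.mk.injEq] at h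
        push_cast at h
        have := l.2
        omega
    · simp only [extMap] at ha
      split_ifs at ha with h1 h2
      rcases b with _ | _ | l
      · simp only [pos, f0, XX, Prod.mk.injEq] at h
        push_cast at h
        omega
      · simp only [pos, f0, XX, Prod.mk.injEq] at h
        push_cast at h
        have := k.2
        omega
      · simp only [pos, f0, XX, Prod.mk.injEq] at h
        push_cast at h
        congr 2
        apply Fin.ext
        omega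
  have hwallpos : ∀ a : Pt n, (pos n ((m : ℤ), (m : ℤ)) (f0 0) a).1 +
      (pos n ((m : ℤ), (m : ℤ)) (f0 0) a).2 = 2 * n → a = W := by
    rintro (_ | _ | k) h
    · simp only [pos] at h; omega
    · rfl
    · simp only [pos, f0, XX] at h
      push_cast at h
      have := k.2
      omega
  intro a b
  rw [hsplit]
  change (a = b ∨ ∃ u' v', extMap m a = some u' ∧ extMap m b = some v' ∧ c u' v') ↔ _
  constructor
  · rintro (rfl | ⟨a', b', ha, hb, hab⟩)
    · exact Or.inl (.refl _)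
    · exact Or.inr (.trans _ _ _ (hmap a a' ha) (.trans _ _ _ ((hrun a' b').1 hab)
        (.symm _ _ (hmap b b' hb))))
  · rintro (H | H)
    · rcases hwall _ _ H with h | ⟨h1, h2⟩
      · rcases hea : extMap m a with _ | a'
        · exact Or.inl (hinj a b hea h)
        · rcases heb : extMap m b with _ | b'
          · exact Or.inl (hinj b a heb h.symm).symm
          · refine Or.inr ⟨a', b', rfl, rfl, (hrun a' b').2 ?_⟩
            refine .trans _ _ _ (.symm _ _ (hmap a a' hea)) ?_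
            rw [h]
            exact hmap b b' heb
      · exact Or.inl ((hwallpos a h1).trans (hwallpos b h2).symm)
    · rcases hea : extMap m a with _ | a'
      · exact Or.inl (hinj a b hea (hnone a hea _ H))
      · rcases heb : extMap m b with _ | b'
        · exact Or.inl (hinj b a heb (hnone b heb _ (.symm _ _ H))).symm
        · exact Or.inr ⟨a', b', rfl, rfl, (hrun a' b').2 (.trans _ _ _
            (.symm _ _ (hmap a a' hea)) (.trans _ _ _ H (hmap b b' heb)))⟩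

lemma low_lo (m : ℕ) (ω : PConf) (M : ℕ) (s : ℤ) : Low (Lo (VW (m + s)) (BM m s M) ω) := by
  rintro u v (⟨h1, h2⟩ | ⟨e, he, _, rfl, rfl⟩)
  · exact ⟨h1.2, h2.2⟩
  · obtain ⟨⟨_, _, h1⟩, ⟨_, _, h2⟩⟩ := mem_BM he
    exact ⟨h1, h2⟩

lemma runZ_iff (m n : ℕ) (hmn : m < n) (ω : PConf) (M T : ℕ) :
    runZ n 0 (ext m n (runZ m (-M) ⊥ ω M)) ω T S W ↔
      Con n (Lo (VW (m + 0)) (BM m 0 M) ω) ω (EL n T) ((m : ℤ), (m : ℤ)) ((n : ℤ), (n : ℤ)) := by
  rw [runZ_zero, runZ_eq]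
  exact runC_iff (low_lo m ω M 0) le_rfl (ext_inv m n hmn ω M) T

lemma EG_le_lGraph (m n : ℕ) (hmn : m < n) (ω : PConf) (M T : ℕ) :
    EG (BM m 0 M ∪ EL n T) ω ≤ lGraph m n ω := by
  have key : ∀ e ∈ BM m 0 M ∪ EL n T, InL m n e.1 ∧ InL m n (tgt e) := by
    rintro e (he | he)
    · obtain ⟨⟨h1, h2, h3⟩, ⟨g1, g2, g3⟩⟩ := mem_BM he
      refine ⟨⟨by omega, fun h => by omega, fun h => by omega⟩,
        ⟨by omega, fun h => by omega, fun h => by omega⟩⟩
    · obtain ⟨⟨h1, h2, h3⟩, ⟨g1, g2, g3⟩⟩ := inS_of_mem he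
      refine ⟨⟨by omega, fun h => by omega, fun h => by omega⟩,
        ⟨by omega, fun h => by omega, fun h => by omega⟩⟩
  have key2 : ∀ u v : ℤ × ℤ, (∃ e ∈ BM m 0 M ∪ EL n T, ω e = true ∧ u = e.1 ∧ v = tgt e) →
      InL m n u ∧ InL m n v ∧
        ((v = (u.1 + 1, u.2) ∧ ω (u, true) = true) ∨ (v = (u.1, u.2 + 1) ∧ ω (u, false) = true)) := by
    rintro u v ⟨⟨u', b⟩, he, ho, h1, h2⟩
    simp only at h1
    subst h1
    obtain ⟨k1, k2⟩ := key _ he
    refine ⟨k1, h2 ▸ k2, ?_⟩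
    cases b
    · exact Or.inr ⟨by rw [h2]; simp [tgt], ho⟩
    · exact Or.inl ⟨by rw [h2]; simp [tgt], ho⟩
  intro u v huv
  unfold EG at huv
  unfold lGraph
  rw [SimpleGraph.fromRel_adj] at huv ⊢
  exact ⟨huv.1, huv.2.imp (key2 u v) (key2 v u)⟩

theorem l_sound (m n : ℕ) (hmn : m < n) (ω : PConf) (M T' : ℕ)
    (h : runZ n 0 (ext m n (runZ m (-M) ⊥ ω M)) ω T' S W) : LCross m n ω := by
  rw [runZ_iff m n hmn] at h
  obtain ⟨u, hu, v, hv, hr⟩ := con_sound (p := ((m : ℤ), (m : ℤ)))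
    (by simp only [VW, Set.mem_ofPred_eq]; constructor <;> omega) (by simp only []; omega) h
  have hr' := hr.mono (EG_le_lGraph m n hmn ω M T')
  refine ⟨v, u, hv, ?_, ?_, hu.2, hr'.symm⟩
  · -- the wall is only touched by the edges of the wide strip
    obtain ⟨q⟩ := hr
    have hne : u ≠ v := by
      rintro rfl
      have := hu.1
      omega
    obtain ⟨w, hw⟩ : ∃ w, (EG (BM m 0 M ∪ EL n T') ω).Adj w v := by
      have h1 : ¬ q.Nil := SimpleGraph.Walk.not_nil_of_ne hne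
      exact ⟨_, SimpleGraph.Walk.adj_penultimate h1⟩
    have hend : ∀ e ∈ BM m 0 M ∪ EL n T', (v = e.1 ∨ v = tgt e) → v.2 ≤ v.1 := by
      rintro e (he | he) h1
      · obtain ⟨⟨_, h2, _⟩, ⟨_, g2, _⟩⟩ := mem_BM he
        rcases h1 with rfl | rfl <;> omega
      · obtain ⟨⟨_, _, h3⟩, ⟨_, _, g3⟩⟩ := inS_of_mem he
        rcases h1 with rfl | rfl
        · exact h3
        · exact g3
    unfold EG at hw
    rw [SimpleGraph.fromRel_adj] at hw
    rcases hw.2 with ⟨e, he, _, _, h2⟩ | ⟨e, he, _, h1, _⟩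
    · exact hend e he (Or.inr h2)
    · exact hend e he (Or.inl h1)
  · have := hu.1
    omega

lemma BM_mono (m : ℕ) (s : ℤ) : Monotone (BM m s) := by
  -- a layer deeper only adds edges
  have key : ∀ (M t i : ℕ), she (s - (M : ℤ), s + (M : ℤ)) (eA t i) =
      she (s - ((M + 1 : ℕ) : ℤ), s + ((M + 1 : ℕ) : ℤ)) (eA (t + 1) i) := by
    intro M t i
    unfold eA she
    split_ifs
    · refine Prod.ext (Prod.ext ?_ ?_) rfl <;> simp only [Prod.fst_add, Prod.snd_add] <;>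
        push_cast <;> ring
    · refine Prod.ext (Prod.ext ?_ ?_) rfl <;> simp only [Prod.fst_add, Prod.snd_add] <;>
        push_cast <;> ring
  have key' : ∀ (M t i : ℕ), she (s - (M : ℤ), s + (M : ℤ)) (eB t i) =
      she (s - ((M + 1 : ℕ) : ℤ), s + ((M + 1 : ℕ) : ℤ)) (eB (t + 1) i) := by
    intro M t i
    unfold eB she
    split_ifs
    · refine Prod.ext (Prod.ext ?_ ?_) rfl <;> simp only [Prod.fst_add, Prod.snd_add] <;>
        push_cast <;> ring
    · refine Prod.ext (Prod.ext ?_ ?_) rfl <;> simp only [Prod.fst_add, Prod.snd_add] <;>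
        push_cast <;> ring
  refine monotone_nat_of_le_succ fun M => ?_
  rintro e ⟨e', ⟨t, ht, i, h1, h2, h3 | h3⟩, rfl⟩
  · subst h3
    exact ⟨eA (t + 1) i, ⟨t + 1, by omega, i, h1, h2, Or.inl rfl⟩, (key M t i).symm⟩
  · subst h3
    exact ⟨eB (t + 1) i, ⟨t + 1, by omega, i, h1, h2, Or.inr rfl⟩, (key' M t i).symm⟩

/-- every edge below the row belongs to some `BM` -/
lemma exists_BM {m : ℕ} {s : ℤ} {e : (ℤ × ℤ) × Bool}
    (h : 2 * s - 1 ≤ e.1.1 + e.1.2 ∧ e.1.1 + e.1.2 ≤ 2 * (m + s) ∧ e.1.1 ≤ e.1.2)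
    (h' : 2 * s - 1 ≤ (tgt e).1 + (tgt e).2 ∧ (tgt e).1 + (tgt e).2 ≤ 2 * (m + s) ∧
      (tgt e).1 ≤ (tgt e).2) : ∃ M, e ∈ BM m s M := by
  -- all edges of the translated strip at depth at most `2 M` are in `BM`
  obtain ⟨M, hM⟩ : ∃ M : ℕ, e.1.2 - e.1.1 + 2 ≤ 2 * (M : ℤ) := by
    refine ⟨(e.1.2 - e.1.1 + 2).toNat, ?_⟩
    have := Int.self_le_toNat (e.1.2 - e.1.1 + 2)
    omega
  refine ⟨M, she (-(s - (M : ℤ), s + (M : ℤ))) e, ?_, ?_⟩
  swap
  · exact Prod.ext (neg_add_cancel_right _ _) rfl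
  set e' := she (-(s - (M : ℤ), s + (M : ℤ))) e with he'
  have tt : tgt e' = tgt e + (-(s - (M : ℤ), s + (M : ℤ))) := tgt_she _ _
  have hb : (tgt e).1 + (tgt e).2 = e.1.1 + e.1.2 + 1 := by
    obtain ⟨⟨x, y⟩, b⟩ := e
    cases b <;> simp [tgt] <;> ring
  have hb2 : (tgt e).1 - (tgt e).2 = e.1.1 - e.1.2 + 1 ∨
      (tgt e).1 - (tgt e).2 = e.1.1 - e.1.2 - 1 := by
    obtain ⟨⟨x, y⟩, b⟩ := e
    cases b
    · right; simp [tgt]; ring
    · left; simp [tgt]; ring
  have h1 : InS m e'.1 := by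
    refine ⟨?_, ?_, ?_⟩ <;> simp only [he', she, Prod.fst_add, Prod.snd_add, Prod.fst_neg,
      Prod.snd_neg] <;> omega
  have h2 : InS m (tgt e') := by
    rw [tt]
    refine ⟨?_, ?_, ?_⟩ <;> simp only [Prod.fst_add, Prod.snd_add, Prod.fst_neg, Prod.snd_neg]
    · omega
    · omega
    · rcases hb2 with h | h <;> omega
  obtain ⟨t, ht⟩ := exists_layer h1 h2
  -- the layer of the edge is smaller than `M`
  obtain ⟨t', ht', i, hi1, hi2, hcase⟩ := ht
  refine ⟨t', ?_, i, hi1, hi2, hcase⟩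
  have hd1 : e'.1.1 - e'.1.2 = e.1.1 - e.1.2 + 2 * M := by
    simp only [he', she, Prod.fst_add, Prod.snd_add, Prod.fst_neg, Prod.snd_neg]
    ring
  have hd2 : (tgt e').1 - (tgt e').2 = (tgt e).1 - (tgt e).2 + 2 * M := by
    rw [tt]
    simp only [Prod.fst_add, Prod.snd_add, Prod.fst_neg, Prod.snd_neg]
    ring
  have hyy : ∃ k : ℕ, e'.1 = YY t' k ∨ tgt e' = YY t' k := by
    rcases hcase with hcase | hcase <;>
      rcases Det.exists_half i hi1 with ⟨k, rfl⟩ | ⟨k, _, rfl⟩ <;> refine ⟨k, ?_⟩ <;> rw [hcase]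
    · left; rw [Det.eA_even]
    · right; rw [Det.eA_odd, Det.tgt_X_true]
    · left; rw [Det.eB_even]
    · right; rw [Det.eB_odd, Det.tgt_X_false]
  obtain ⟨k, hk | hk⟩ := hyy
  · rw [hk] at hd1
    simp only [YY] at hd1
    omega
  · rw [hk] at hd2
    simp only [YY] at hd2
    omega

lemma tgt_cases (e : (ℤ × ℤ) × Bool) : (tgt e).1 + (tgt e).2 = e.1.1 + e.1.2 + 1 ∧
    ((tgt e).1 - (tgt e).2 = e.1.1 - e.1.2 + 1 ∨ (tgt e).1 - (tgt e).2 = e.1.1 - e.1.2 - 1) := by
  obtain ⟨⟨x, y⟩, b⟩ := e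
  cases b
  · refine ⟨?_, Or.inr ?_⟩ <;> simp [tgt] <;> ring
  · refine ⟨?_, Or.inl ?_⟩ <;> simp [tgt] <;> ring

lemma lGraph_le (m n : ℕ) (hmn : m < n) (ω : PConf) :
    lGraph m n ω ≤ EG ((⋃ M, BM m 0 M) ∪ ⋃ T, EL n T) ω := by
  have key : ∀ e : (ℤ × ℤ) × Bool, InL m n e.1 → InL m n (tgt e) →
      e ∈ (⋃ M, BM m 0 M) ∪ ⋃ T, EL n T := by
    rintro e ⟨h1, h2, h3⟩ ⟨g1, g2, g3⟩
    obtain ⟨c1, c2⟩ := tgt_cases e
    by_cases hup : e.1.1 ≤ e.1.2 ∧ (tgt e).1 ≤ (tgt e).2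
    · left
      obtain ⟨M, hM⟩ := exists_BM (m := m) (s := 0) (e := e)
        ⟨by omega, by rcases c2 with h | h <;> omega, hup.1⟩
        ⟨by omega, by rcases c2 with h | h <;> omega, hup.2⟩
      exact Set.mem_iUnion.mpr ⟨M, hM⟩
    · right
      obtain ⟨T, hT⟩ := exists_layer (n := n) (e := e)
        ⟨h1, by rcases c2 with h | h <;> omega, by rcases c2 with h | h <;> omega⟩
        ⟨g1, by rcases c2 with h | h <;> omega, by rcases c2 with h | h <;> omega⟩
      exact Set.mem_iUnion.mpr ⟨T, hT⟩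
  have key2 : ∀ u v : ℤ × ℤ, InL m n u ∧ InL m n v ∧
        ((v = (u.1 + 1, u.2) ∧ ω (u, true) = true) ∨ (v = (u.1, u.2 + 1) ∧ ω (u, false) = true)) →
      ∃ e ∈ (⋃ M, BM m 0 M) ∪ ⋃ T, EL n T, ω e = true ∧ u = e.1 ∧ v = tgt e := by
    rintro u v ⟨h1, h2, ⟨h3, h4⟩ | ⟨h3, h4⟩⟩
    · refine ⟨(u, true), key _ h1 ?_, h4, rfl, ?_⟩
      · simpa [tgt, h3] using h2
      · simp [tgt, h3]
    · refine ⟨(u, false), key _ h1 ?_, h4, rfl, ?_⟩
      · simpa [tgt, h3] using h2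
      · simp [tgt, h3]
  intro u v huv
  unfold lGraph at huv
  unfold EG
  rw [SimpleGraph.fromRel_adj] at huv ⊢
  exact ⟨huv.1, huv.2.imp (key2 u v) (key2 v u)⟩

theorem l_complete (m n : ℕ) (hmn : m < n) (ω : PConf) (h : LCross m n ω) :
    ∃ M₀, ∀ M : ℕ, M₀ ≤ M → ∃ T', runZ n 0 (ext m n (runZ m (-M) ⊥ ω M)) ω T' S W := by
  obtain ⟨u, v, hu1, _, hv1, hv2, hr⟩ := h
  obtain ⟨M₀, h₀⟩ := reach_union (BM_mono m 0)
    (monotone_nat_of_le_succ fun T => EL_mono (Nat.le_succ T)) (hr.mono (lGraph_le m n hmn ω)).symm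
  refine ⟨M₀, fun M hM => ?_⟩
  obtain ⟨T₀, h₁⟩ := h₀ M hM
  refine ⟨T₀, ?_⟩
  rw [runZ_iff m n hmn]
  refine con_complete (u := v) (v := u) ?_ ?_ ?_ hu1 (h₁ T₀ le_rfl)
  · simp only [VW, Set.mem_ofPred_eq]; constructor <;> omega
  · simp only []; omega
  · exact ⟨by omega, hv2⟩

end Pool.Agent.H30.Glue
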