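import Mathlib
import Pool.Agent.H75.Exact.Strip

set_option autoImplicit false
open Finset

/-! Critical bond percolation in a bi-infinite strip with a slit: definitions. -/

namespace Pool.Agent.H30.Glue

open Pool.Agent.H65.Perc (PConf)
open Pool.Agent.H75.Exact

/-- The open edges of the slit strip. The strip is `{-1 ≤ x + y ≤ 2 (r + 1 + m)}`; it is cut along the
half-line `{x + y = 2 r + 1/2, x ≤ y}`: the edges from `{x + y = 2 r}` to `{x + y = 2 r + 1}` with both
endpoints in `{x ≤ y}` are removed. -/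
def sGraph (r m : ℕ) (ω : PConf) : SimpleGraph (ℤ × ℤ) :=
  SimpleGraph.fromRel (fun u v => -1 ≤ u.1 + u.2 ∧ v.1 + v.2 ≤ 2 * ((r + 1 + m : ℕ) : ℤ) ∧
    ¬ (u.1 + u.2 = 2 * r ∧ u.1 ≤ u.2 ∧ v.1 ≤ v.2) ∧
    ((v = (u.1 + 1, u.2) ∧ ω (u, true) = true) ∨ (v = (u.1, u.2 + 1) ∧ ω (u, false) = true)))

/-- The side `{x + y = 2 r, x ≤ y}` of the slit is connected to the side
`{x + y = 2 (r + 1 + m)}` of the strip. -/
def SlitCross (r m : ℕ) (ω : PConf) : Prop :=
  ∃ u v : ℤ × ℤ, u.1 + u.2 = 2 * r ∧ u.1 ≤ u.2 ∧ v.1 + v.2 = 2 * ((r + 1 + m : ℕ) : ℤ) ∧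
    (sGraph r m ω).Reachable u v

/-- The disjoint union of two setoids. -/
def sumS {α β : Type*} (c : Setoid α) (d : Setoid β) : Setoid (α ⊕ β) where
  r u v := match u, v with
    | .inl a, .inl b => c a b
    | .inr a, .inr b => d a b
    | _, _ => False
  iseqv := by
    refine ⟨?_, ?_, ?_⟩
    · rintro (a | a)
      · exact c.refl a
      · exact d.refl a
    · rintro (a | a) (b | b) h
      · exact c.symm h
      · exact h
      · exact h
      · exact d.symm h
    · rintro (a | a) (b | b) (e | e) h h' <;> first | exact h.elim | exact h'.elim | skip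
      · exact c.trans h h'
      · exact d.trans h h'

/-- The points of the wide strip in terms of the two narrow strips below it: the source and column `r`
belong to the wall of the left strip. -/
def lab (r m : ℕ) : Pt (r + 1 + m) → Pt r ⊕ Pt m
  | none => .inl W
  | some none => .inr W
  | some (some k) => if h : (k : ℕ) < r then .inl (col ⟨k, h⟩)
      else if h' : (k : ℕ) = r then .inl W else .inr (col ⟨(k : ℕ) - r - 1, by omega⟩)

/-- initial partition of the wide strip -/
def ext2 (r m : ℕ) (c : Setoid (Pt r)) (d : Setoid (Pt m)) : Setoid (Pt (r + 1 + m)) :=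
  (sumS c d).comap (lab r m)

end Pool.Agent.H30.Glue
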