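import Mathlib
import Pool.Agent.H30.Glue.LStrip
import Pool.Agent.H30.Glue.SlitDefs

set_option autoImplicit false
open Finset

/-! The strip with a slit: the geometry. -/

namespace Pool.Agent.H30.Glue

open Pool.Agent.H65.Perc (PConf)
open Pool.Agent.H75.Exact
open Pool.Agent.H75.Exact.Det (tgt XX YY EL f0 inS_of_mem exists_layer EL_mono)

/-- the whole line `x + y = 2 w` -/
def Ln (w : ℤ) : Set (ℤ × ℤ) := {u | u.1 + u.2 = 2 * w}

/-- The state of the run in the translated strip, in terms of the wired line `Ln (m + s)` and the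
open edges of `BM m s M`. -/
lemma run_BM_full (m : ℕ) (s : ℤ) (M : ℕ) (ω : PConf) (a b : Pt m) :
    runC m ⊥ (shω (s - M, s + M) ω) M a b ↔
      Relation.EqvGen (Lo (Ln (m + s)) (BM m s M) ω) (pos m (-1, 0) (f0 M) a + (s - M, s + M))
        (pos m (-1, 0) (f0 M) b + (s - M, s + M)) := by
  rw [runC_inv low_noR (by norm_num) (inv_bot m _) M a b]
  set sh : ℤ × ℤ := (s - M, s + M) with hsh
  constructor
  · intro H
    refine eqv_map (fun u => u + sh) ?_ H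
    rintro u v (⟨h1, h2⟩ | h | ⟨e, he, ho, rfl, rfl⟩)
    · refine .rel _ _ (Or.inl ⟨?_, ?_⟩)
      · simp only [Ln, Set.mem_ofPred_eq, Prod.fst_add, Prod.snd_add, hsh]; omega
      · simp only [Ln, Set.mem_ofPred_eq, Prod.fst_add, Prod.snd_add, hsh]; omega
    · exact h.elim
    · exact .rel _ _ (Or.inr ⟨she sh e, ⟨e, he, rfl⟩, ho, rfl, (tgt_she sh e).symm⟩)
  · intro H
    have h1 := eqv_map (R := Lo (Ln (m + s)) (BM m s M) ω)
      (R' := Gen m noR (shω sh ω) (EL m M)) (fun u => u - sh) ?_ H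
    · simpa using h1
    · rintro u v (⟨h1, h2⟩ | ⟨e, ⟨e', he', rfl⟩, ho, rfl, rfl⟩)
      · refine .rel _ _ (Or.inl ⟨?_, ?_⟩)
        · simp only [Ln, Set.mem_ofPred_eq] at h1
          simp only [Prod.fst_sub, Prod.snd_sub, hsh]; omega
        · simp only [Ln, Set.mem_ofPred_eq] at h2
          simp only [Prod.fst_sub, Prod.snd_sub, hsh]; omega
      · refine .rel _ _ (Or.inr (Or.inr ⟨e', he', ho, ?_, ?_⟩))
        · change e'.1 + sh - sh = e'.1
          exact add_sub_cancel_right _ _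
        · change tgt (she sh e') - sh = tgt e'
          rw [tgt_she]
          exact add_sub_cancel_right _ _

lemma eqv_supp {α : Type*} {R : α → α → Prop} (X : Set α) (h : ∀ a b, R a b → a ∈ X ∧ b ∈ X)
    {u v : α} (H : Relation.EqvGen R u v) : u = v ∨ (u ∈ X ∧ v ∈ X) := by
  induction H with
  | rel a b hab => exact Or.inr (h a b hab)
  | refl a => exact Or.inl rfl
  | symm a b _ ih => exact ih.imp Eq.symm And.symm
  | trans a b c _ _ ih1 ih2 =>
    rcases ih1 with rfl | ⟨h1, h2⟩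
    · exact ih2
    · rcases ih2 with rfl | ⟨h3, h4⟩
      · exact Or.inr ⟨h1, h2⟩
      · exact Or.inr ⟨h1, h4⟩

/-- The state of the two narrow strips. -/
noncomputable def cL (r M : ℕ) (ω : PConf) : Setoid (Pt r) :=
  runC r ⊥ (shω (0 - (M : ℤ), 0 + (M : ℤ)) ω) M

noncomputable def cR (r m M : ℕ) (ω : PConf) : Setoid (Pt m) :=
  runC m ⊥ (shω (((r : ℤ) + 1) - (M : ℤ), ((r : ℤ) + 1) + (M : ℤ)) ω) M

lemma ext2_inv (r m : ℕ) (ω : PConf) (M : ℕ) :
    Inv (r + 1 + m) (Lo (VW (r + 0)) (BM r 0 M ∪ BM m (r + 1) M) ω) ((r : ℤ), (r : ℤ)) ω ∅ (f0 0)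
      (ext2 r m (cL r M ω) (cR r m M ω)) := by
  set n := r + 1 + m with hn
  set V : Set (ℤ × ℤ) := VW (r + 0) with hV
  set BL := BM r 0 M with hBL
  set BR := BM m (r + 1) M with hBR
  set shL : ℤ × ℤ := (0 - (M : ℤ), 0 + (M : ℤ)) with hshL
  set shR : ℤ × ℤ := (((r : ℤ) + 1) - (M : ℤ), ((r : ℤ) + 1) + (M : ℤ)) with hshR
  have hrunL : ∀ a b : Pt r, cL r M ω a b ↔
      Relation.EqvGen (Lo V BL ω) (pos r (-1, 0) (f0 M) a + shL) (pos r (-1, 0) (f0 M) b + shL) :=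
    fun a b => run_BM r 0 M ω a b
  have hrunR : ∀ a b : Pt m, cR r m M ω a b ↔
      Relation.EqvGen (Lo (Ln (m + (r + 1))) BR ω) (pos m (-1, 0) (f0 M) a + shR)
        (pos m (-1, 0) (f0 M) b + shR) := fun a b => run_BM_full m (r + 1) M ω a b
  have hnc : (n : ℤ) = r + 1 + m := by rw [hn]; push_cast; ring
  set X : Set (ℤ × ℤ) := {u : ℤ × ℤ | u.1 + u.2 ≤ 2 * (r : ℤ)} with hX
  have hXm : ∀ u : ℤ × ℤ, u ∈ X ↔ u.1 + u.2 ≤ 2 * (r : ℤ) := fun u => Iff.rfl
  have hsL : ∀ a b, Lo V BL ω a b → a ∈ X ∧ b ∈ X := by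
    rintro a b (⟨⟨h1, _⟩, ⟨h2, _⟩⟩ | ⟨e, he, _, rfl, rfl⟩)
    · rw [hXm, hXm]; constructor <;> omega
    · obtain ⟨⟨_, h1, _⟩, ⟨_, h2, _⟩⟩ := mem_BM he
      rw [hXm, hXm]; constructor <;> omega
  have hsR : ∀ a b, Lo (Ln (m + (r + 1))) BR ω a b → a ∈ Xᶜ ∧ b ∈ Xᶜ := by
    rintro a b (⟨h1, h2⟩ | ⟨e, he, _, rfl, rfl⟩)
    · simp only [Ln, Set.mem_ofPred_eq] at h1 h2
      rw [Set.mem_compl_iff, Set.mem_compl_iff, hXm, hXm]; constructor <;> omega
    · obtain ⟨⟨h1, _, _⟩, ⟨h2, _, _⟩⟩ := mem_BM he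
      rw [Set.mem_compl_iff, Set.mem_compl_iff, hXm, hXm]; constructor <;> omega
  -- the relation splits
  have hsplit : ∀ u v : ℤ × ℤ, Con n (Lo V (BL ∪ BR) ω) ω ∅ u v ↔
      Relation.EqvGen (Lo V BL ω) u v ∨ Relation.EqvGen (Lo (Ln (m + (r + 1))) BR ω) u v := by
    intro u v
    rw [← eqv_or (X := X) hsL fun a b h => ⟨(hsR a b h).1, (hsR a b h).2⟩]
    have : Gen n (Lo V (BL ∪ BR) ω) ω ∅ = fun u v =>
        Lo V BL ω u v ∨ Lo (Ln (m + (r + 1))) BR ω u v := by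
      funext u v
      apply propext
      unfold Gen Lo Ln
      simp only [Set.mem_ofPred_eq]
      constructor
      · rintro (h | (h | ⟨e, he | he, h⟩) | ⟨e, he, _⟩)
        · exact Or.inr (Or.inl ⟨by omega, by omega⟩)
        · exact Or.inl (Or.inl h)
        · exact Or.inl (Or.inr ⟨e, he, h⟩)
        · exact Or.inr (Or.inr ⟨e, he, h⟩)
        · exact absurd he (by simp)
      · rintro ((h | ⟨e, he, h⟩) | (⟨h1, h2⟩ | ⟨e, he, h⟩))
        · exact Or.inr (Or.inl (Or.inl h))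
        · exact Or.inr (Or.inl (Or.inr ⟨e, Or.inl he, h⟩))
        · exact Or.inl ⟨by omega, by omega⟩
        · exact Or.inr (Or.inl (Or.inr ⟨e, Or.inr he, h⟩))
    rw [← this]
  -- positions
  have hposL : ∀ (a : Pt n) (a' : Pt r), lab r m a = .inl a' →
      Relation.EqvGen (Lo V BL ω) (pos n ((r : ℤ), (r : ℤ)) (f0 0) a)
        (pos r (-1, 0) (f0 M) a' + shL) ∧ pos n ((r : ℤ), (r : ℤ)) (f0 0) a ∈ X := by
    have hW : Relation.EqvGen (Lo V BL ω) ((r : ℤ), (r : ℤ)) (((r : ℤ), (r : ℤ)) + shL) := by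
      refine .rel _ _ (Or.inl ⟨?_, ?_⟩)
      · simp only [hV, VW, Set.mem_ofPred_eq]
        constructor <;> omega
      · simp only [hV, VW, hshL, Set.mem_ofPred_eq, Prod.fst_add, Prod.snd_add]
        constructor <;> omega
    rintro (_ | _ | k) a' h
    · simp only [lab, Sum.inl.injEq] at h
      subst h
      exact ⟨hW, by rw [hXm]; simp only [pos]; omega⟩
    · simp [lab] at h
    · simp only [lab] at h
      split_ifs at h with h1 h2
      · simp only [Sum.inl.injEq] at h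
        subst h
        have : pos n ((r : ℤ), (r : ℤ)) (f0 0) (some (some k)) =
            pos r (-1, 0) (f0 M) (col (⟨(k : ℕ), h1⟩ : Fin r)) + shL := by
          simp only [pos, col, f0, XX, hshL]
          refine Prod.ext ?_ ?_ <;> simp only [Prod.fst_add, Prod.snd_add] <;> push_cast <;> ring
        refine ⟨?_, ?_⟩
        · rw [this]; exact .refl _
        · rw [hXm]; simp only [pos, f0, XX]; push_cast; omega
      · simp only [Sum.inl.injEq] at h
        subst h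
        have : pos n ((r : ℤ), (r : ℤ)) (f0 0) (some (some k)) = ((r : ℤ), (r : ℤ)) := by
          simp only [pos, f0, XX]
          refine Prod.ext ?_ ?_ <;> simp only [] <;> push_cast <;> omega
        rw [this]
        exact ⟨hW, by rw [hXm]; simp only []; omega⟩
  have hposR : ∀ (a : Pt n) (a' : Pt m), lab r m a = .inr a' →
      Relation.EqvGen (Lo (Ln (m + (r + 1))) BR ω) (pos n ((r : ℤ), (r : ℤ)) (f0 0) a)
        (pos m (-1, 0) (f0 M) a' + shR) ∧ pos n ((r : ℤ), (r : ℤ)) (f0 0) a ∉ X := by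
    rintro (_ | _ | k) a' h
    · simp [lab] at h
    · simp only [lab, Sum.inr.injEq] at h
      subst h
      refine ⟨.rel _ _ (Or.inl ⟨?_, ?_⟩), ?_⟩
      · simp only [Ln, Set.mem_ofPred_eq, pos]; omega
      · simp only [Ln, Set.mem_ofPred_eq, pos, W, hshR, Prod.fst_add, Prod.snd_add]; omega
      · rw [hXm]; simp only [pos]; omega
    · simp only [lab] at h
      split_ifs at h with h1 h2
      simp only [Sum.inr.injEq] at h
      subst h
      have : pos n ((r : ℤ), (r : ℤ)) (f0 0) (some (some k)) =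
          pos m (-1, 0) (f0 M) (col (⟨(k : ℕ) - r - 1, by omega⟩ : Fin m)) + shR := by
        simp only [pos, col, f0, XX, hshR]
        refine Prod.ext ?_ ?_ <;> simp only [Prod.fst_add, Prod.snd_add] <;> push_cast <;> omega
      refine ⟨?_, ?_⟩
      · rw [this]; exact .refl _
      · rw [hXm]; simp only [pos, f0, XX]; push_cast; omega
  intro a b
  rw [hsplit]
  change sumS (cL r M ω) (cR r m M ω) (lab r m a) (lab r m b) ↔ _
  rcases ha : lab r m a with a' | a' <;> rcases hb : lab r m b with b' | b'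
  · obtain ⟨h1, h2⟩ := hposL a a' ha
    obtain ⟨h3, h4⟩ := hposL b b' hb
    change cL r M ω a' b' ↔ _
    rw [hrunL]
    constructor
    · intro H
      exact Or.inl (.trans _ _ _ h1 (.trans _ _ _ H (.symm _ _ h3)))
    · rintro (H | H)
      · exact .trans _ _ _ (.symm _ _ h1) (.trans _ _ _ H h3)
      · rcases eqv_supp Xᶜ hsR H with h | ⟨h, _⟩
        · rw [h] at h1
          exact .trans _ _ _ (.symm _ _ h1) h3
        · exact absurd h2 h
  · obtain ⟨h1, h2⟩ := hposL a a' ha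
    obtain ⟨h3, h4⟩ := hposR b b' hb
    change False ↔ _
    constructor
    · exact False.elim
    · rintro (H | H)
      · rcases eqv_supp X hsL H with h | ⟨_, h⟩
        · exact h4 (h ▸ h2)
        · exact h4 h
      · rcases eqv_supp Xᶜ hsR H with h | ⟨h, _⟩
        · exact h4 (h ▸ h2)
        · exact h h2
  · obtain ⟨h1, h2⟩ := hposR a a' ha
    obtain ⟨h3, h4⟩ := hposL b b' hb
    change False ↔ _
    constructor
    · exact False.elim
    · rintro (H | H)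
      · rcases eqv_supp X hsL H with h | ⟨h, _⟩
        · exact h2 (h ▸ h4)
        · exact h2 h
      · rcases eqv_supp Xᶜ hsR H with h | ⟨_, h⟩
        · exact h2 (h ▸ h4)
        · exact h h4
  · obtain ⟨h1, h2⟩ := hposR a a' ha
    obtain ⟨h3, h4⟩ := hposR b b' hb
    change cR r m M ω a' b' ↔ _
    rw [hrunR]
    constructor
    · intro H
      exact Or.inr (.trans _ _ _ h1 (.trans _ _ _ H (.symm _ _ h3)))
    · rintro (H | H)
      · rcases eqv_supp X hsL H with h | ⟨h, _⟩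
        · rw [h] at h1
          exact .trans _ _ _ (.symm _ _ h1) h3
        · exact absurd h h2
      · exact .trans _ _ _ (.symm _ _ h1) (.trans _ _ _ H h3)

lemma low_slit (r m : ℕ) (ω : PConf) (M : ℕ) :
    Low (Lo (VW (r + 0)) (BM r 0 M ∪ BM m (r + 1) M) ω) := by
  rintro u v (⟨h1, h2⟩ | ⟨e, he | he, _, rfl, rfl⟩)
  · exact ⟨h1.2, h2.2⟩
  · obtain ⟨⟨_, _, h1⟩, ⟨_, _, h2⟩⟩ := mem_BM he
    exact ⟨h1, h2⟩
  · obtain ⟨⟨_, _, h1⟩, ⟨_, _, h2⟩⟩ := mem_BM he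
    exact ⟨h1, h2⟩

lemma slit_iff (r m : ℕ) (ω : PConf) (M T : ℕ) :
    runC (r + 1 + m) (ext2 r m (cL r M ω) (cR r m M ω)) ω T S W ↔
      Con (r + 1 + m) (Lo (VW (r + 0)) (BM r 0 M ∪ BM m (r + 1) M) ω) ω (EL (r + 1 + m) T)
        ((r : ℤ), (r : ℤ)) (((r + 1 + m : ℕ) : ℤ), ((r + 1 + m : ℕ) : ℤ)) :=
  runC_iff (low_slit r m ω M) le_rfl (ext2_inv r m ω M) T

/-- the edges of the slit strip -/
def SlitE (r m : ℕ) : Set ((ℤ × ℤ) × Bool) :=
  {e | -1 ≤ e.1.1 + e.1.2 ∧ (tgt e).1 + (tgt e).2 ≤ 2 * ((r + 1 + m : ℕ) : ℤ) ∧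
    ¬ (e.1.1 + e.1.2 = 2 * r ∧ e.1.1 ≤ e.1.2 ∧ (tgt e).1 ≤ (tgt e).2)}

lemma sGraph_eq (r m : ℕ) (ω : PConf) : sGraph r m ω = EG (SlitE r m) ω := by
  have key : ∀ u v : ℤ × ℤ, (-1 ≤ u.1 + u.2 ∧ v.1 + v.2 ≤ 2 * ((r + 1 + m : ℕ) : ℤ) ∧
      ¬ (u.1 + u.2 = 2 * r ∧ u.1 ≤ u.2 ∧ v.1 ≤ v.2) ∧
      ((v = (u.1 + 1, u.2) ∧ ω (u, true) = true) ∨ (v = (u.1, u.2 + 1) ∧ ω (u, false) = true))) ↔
      ∃ e ∈ SlitE r m, ω e = true ∧ u = e.1 ∧ v = tgt e := by
    intro u v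
    constructor
    · rintro ⟨h1, h2, h3, ⟨h4, h5⟩ | ⟨h4, h5⟩⟩
      · refine ⟨(u, true), ?_, h5, rfl, ?_⟩
        · have : tgt (u, true) = v := by rw [h4]; simp [tgt]
          simp only [SlitE, Set.mem_ofPred_eq, this]
          exact ⟨h1, h2, h3⟩
        · rw [h4]; simp [tgt]
      · refine ⟨(u, false), ?_, h5, rfl, ?_⟩
        · have : tgt (u, false) = v := by rw [h4]; simp [tgt]
          simp only [SlitE, Set.mem_ofPred_eq, this]
          exact ⟨h1, h2, h3⟩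
        · rw [h4]; simp [tgt]
    · rintro ⟨⟨u', b⟩, ⟨h1, h2, h3⟩, h4, rfl, rfl⟩
      refine ⟨h1, h2, h3, ?_⟩
      cases b
      · exact Or.inr ⟨by simp [tgt], h4⟩
      · exact Or.inl ⟨by simp [tgt], h4⟩
  unfold sGraph EG
  congr 1
  funext u v
  exact propext (key u v)

lemma SlitE_eq (r m : ℕ) : SlitE r m =
    (⋃ M, BM r 0 M ∪ BM m (r + 1) M) ∪ ⋃ T, EL (r + 1 + m) T := by
  ext e
  obtain ⟨c1, c2⟩ := tgt_cases e
  constructor
  · rintro ⟨h1, h2, h3⟩
    push_cast at h2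
    by_cases hup : e.1.1 ≤ e.1.2 ∧ (tgt e).1 ≤ (tgt e).2
    · left
      have hne : e.1.1 + e.1.2 ≠ 2 * r := fun h => h3 ⟨h, hup⟩
      by_cases hle : e.1.1 + e.1.2 ≤ 2 * r
      · obtain ⟨M, hM⟩ := exists_BM (m := r) (s := 0) (e := e)
          ⟨by omega, by omega, hup.1⟩ ⟨by omega, by omega, hup.2⟩
        exact Set.mem_iUnion.mpr ⟨M, Or.inl hM⟩
      · obtain ⟨M, hM⟩ := exists_BM (m := m) (s := (r : ℤ) + 1) (e := e)
          ⟨by omega, by omega, hup.1⟩ ⟨by omega, by omega, hup.2⟩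
        exact Set.mem_iUnion.mpr ⟨M, Or.inr hM⟩
    · right
      obtain ⟨T, hT⟩ := exists_layer (n := r + 1 + m) (e := e)
        ⟨h1, by push_cast; omega, by rcases c2 with h | h <;> omega⟩
        ⟨by omega, by push_cast; omega, by rcases c2 with h | h <;> omega⟩
      exact Set.mem_iUnion.mpr ⟨T, hT⟩
  · rintro (h | h)
    · obtain ⟨M, hM | hM⟩ := Set.mem_iUnion.mp h
      · obtain ⟨⟨h1, h2, h3⟩, ⟨g1, g2, g3⟩⟩ := mem_BM hM
        refine ⟨by omega, by push_cast; omega, fun h => by omega⟩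
      · obtain ⟨⟨h1, h2, h3⟩, ⟨g1, g2, g3⟩⟩ := mem_BM hM
        refine ⟨by omega, by push_cast; omega, fun h => by omega⟩
    · obtain ⟨T, hT⟩ := Set.mem_iUnion.mp h
      obtain ⟨⟨h1, h2, h3⟩, ⟨g1, g2, g3⟩⟩ := inS_of_mem hT
      push_cast at h2 g2
      refine ⟨by omega, by push_cast; omega, fun h => ?_⟩
      rcases c2 with h | h <;> omega

theorem s_sound (r m : ℕ) (ω : PConf) (M T : ℕ)
    (h : runC (r + 1 + m) (ext2 r m (cL r M ω) (cR r m M ω)) ω T S W) : SlitCross r m ω := by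
  rw [slit_iff] at h
  obtain ⟨u, hu, v, hv, hr⟩ := con_sound (p := ((r : ℤ), (r : ℤ)))
    (by simp only [VW, Set.mem_ofPred_eq]; constructor <;> omega) (by simp only []; ring) h
  refine ⟨u, v, ?_, hu.2, hv, ?_⟩
  · have := hu.1
    omega
  · rw [sGraph_eq, SlitE_eq]
    refine hr.mono (EG_mono ?_ ω)
    exact Set.union_subset_union (Set.subset_iUnion (fun M => BM r 0 M ∪ BM m (r + 1) M) M)
      (Set.subset_iUnion (fun T => EL (r + 1 + m) T) T)

theorem s_complete (r m : ℕ) (ω : PConf) (h : SlitCross r m ω) :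
    ∃ M₀, ∀ M : ℕ, M₀ ≤ M → ∃ T₀, ∀ T ≥ T₀,
      runC (r + 1 + m) (ext2 r m (cL r M ω) (cR r m M ω)) ω T S W := by
  obtain ⟨u, v, hu1, hu2, hv, hr⟩ := h
  rw [sGraph_eq, SlitE_eq] at hr
  obtain ⟨M₀, h₀⟩ := reach_union (B := fun M => BM r 0 M ∪ BM m (r + 1) M)
    (fun M M' h => Set.union_subset_union (BM_mono r 0 h) (BM_mono m (r + 1) h))
    (monotone_nat_of_le_succ fun T => EL_mono (Nat.le_succ T)) hr
  refine ⟨M₀, fun M hM => ?_⟩
  obtain ⟨T₀, h₁⟩ := h₀ M hM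
  refine ⟨T₀, fun T hT => ?_⟩
  rw [slit_iff]
  refine con_complete (u := u) (v := v) ?_ ?_ ?_ hv (h₁ T hT)
  · simp only [VW, Set.mem_ofPred_eq]; constructor <;> omega
  · simp only []; ring
  · exact ⟨by omega, hu2⟩

end Pool.Agent.H30.Glue
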