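import Mathlib
import Pool.Agent.H30.Glue.Slit
import Pool.Agent.H75.Exact.StripProb
import Pool.Agent.H65.Perc.HalfEmbed

set_option autoImplicit false
open Finset MeasureTheory Filter Topology ProbabilityTheory

/-! Half-infinite strips with a random initial partition: probabilities. -/

namespace Pool.Agent.H30.Glue

open Pool.Agent.H65.Perc (PConf planeMeasure)
open Pool.Agent.H75.Exact

/-! ### Integrals over a run started from a random partition -/

theorem runC_dep (n : ℕ) {F : Finset ((ℤ × ℤ) × Bool)} {g : PConf → Setoid (Pt n)}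
    (hg : DepOn F g) (t : ℕ) : DepOn (F ∪ FF n t) (fun ω => runC n (g ω) ω t) := by
  induction t with
  | zero => exact hg.mono subset_union_left
  | succ t ih =>
    rw [FF_succ, ← union_assoc]
    exact (foldl_dep n (lay n t) (F ∪ FF n t) _ (ih.comp up)).comp down

theorem runC_int (n : ℕ) {F : Finset ((ℤ × ℤ) × Bool)} {g : PConf → Setoid (Pt n)}
    (hg : DepOn F g) (hF : ∀ t, ∀ p ∈ lay n t, p.2 ∉ F) (t : ℕ) (H : Setoid (Pt n) → ℝ) :
    ∫ ω, H (runC n (g ω) ω (t + 1)) ∂planeMeasure =
      ∫ ω, TT n H (runC n (g ω) ω t) ∂planeMeasure := by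
  have h1 := fold_int n (fun d => H (down d)) (lay n t) (F ∪ FF n t)
    (fun ω => up (runC n (g ω) ω t)) ((runC_dep n hg t).comp up) (lay_nodup n t) (fun p hp => by
      rw [mem_union, not_or]
      exact ⟨hF t p hp, FF_disj hp⟩)
  rw [lay_fst] at h1
  exact h1

theorem runC_iter (n : ℕ) {F : Finset ((ℤ × ℤ) × Bool)} {g : PConf → Setoid (Pt n)}
    (hg : DepOn F g) (hF : ∀ t, ∀ p ∈ lay n t, p.2 ∉ F) (t : ℕ) :
    ∀ H : Setoid (Pt n) → ℝ, ∫ ω, H (runC n (g ω) ω t) ∂planeMeasure =
      ∫ ω, ((TT n)^[t] H) (g ω) ∂planeMeasure := by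
  induction t with
  | zero => intro H; rfl
  | succ t ih =>
    intro H
    rw [runC_int n hg hF, ih, Function.iterate_succ_apply]

theorem runC_NN (n : ℕ) {F : Finset ((ℤ × ℤ) × Bool)} {g : PConf → Setoid (Pt n)}
    (hg : DepOn F g) (hF : ∀ t, ∀ p ∈ lay n t, p.2 ∉ F) (t : ℕ) :
    ∫ ω, NN (runC n (g ω) ω t) ∂planeMeasure ≤ (1 - (1 / 2) ^ (4 * n + 2)) ^ t := by
  have h0 : (0 : ℝ) ≤ 1 - (1 / 2) ^ (4 * n + 2) := by
    have : (1 / 2 : ℝ) ^ (4 * n + 2) ≤ 1 := pow_le_one₀ (by norm_num) (by norm_num)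
    linarith
  induction t with
  | zero =>
    rw [pow_zero]
    calc ∫ ω, NN (runC n (g ω) ω 0) ∂planeMeasure ≤ ∫ _, (1 : ℝ) ∂planeMeasure :=
          integral_mono (((runC_dep n hg 0).comp NN).int _) (integrable_const _)
            fun ω => NN_le_one _
      _ = 1 := by simp
  | succ t ih =>
    rw [runC_int n hg hF, pow_succ']
    calc ∫ ω, TT n NN (runC n (g ω) ω t) ∂planeMeasure
        ≤ ∫ ω, (1 - (1 / 2) ^ (4 * n + 2)) * NN (runC n (g ω) ω t) ∂planeMeasure :=
          integral_mono (((runC_dep n hg t).comp (TT n NN)).int _)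
            ((((runC_dep n hg t).comp NN).int _).const_mul _) fun ω => TT_NN n _
      _ = (1 - (1 / 2) ^ (4 * n + 2)) * ∫ ω, NN (runC n (g ω) ω t) ∂planeMeasure :=
          integral_const_mul _ _
      _ ≤ _ := mul_le_mul_of_nonneg_left ih h0

theorem runC_SW_mono (n : ℕ) (c : Setoid (Pt n)) (ω : PConf) (t : ℕ) (h : runC n c ω t S W) :
    runC n c ω (t + 1) S W := by
  have key : ∀ (L : List (ℕ × ((ℤ × ℤ) × Bool))) (c : Setoid (Pt (n + 1))), c S W →
      (L.foldl (stepE n ω) c) S W := by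
    intro L
    induction L with
    | nil => intro c hc; exact hc
    | cons p L ih =>
      intro c hc
      rw [List.foldl_cons]
      refine ih _ ?_
      by_cases hq : ω p.2 = decide (p.1 % 2 = 0)
      · have e1 : stepE n ω c p = ee (n + 1) p.1 c := if_pos hq
        rw [e1]
        exact ee_SW _ _ hc
      · have e1 : stepE n ω c p = c := if_neg hq
        rw [e1]
        exact hc
  exact key (lay n t) _ ((up_emb _ S W).mpr h)

/-- The probability that source and wall are eventually connected is the expectation of the harmonic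
function at the initial partition; exponentially fast. -/
theorem top_bound (n : ℕ) (hn : 1 ≤ n) (h : Setoid (Pt n) → ℝ) (hh : Harm n h) :
    ∃ C, 0 ≤ C ∧ ∀ (F : Finset ((ℤ × ℤ) × Bool)) (g : PConf → Setoid (Pt n)), DepOn F g →
      (∀ t, ∀ p ∈ lay n t, p.2 ∉ F) → ∀ t,
      |(planeMeasure {ω | runC n (g ω) ω t S W}).toReal - ∫ ω, h (g ω) ∂planeMeasure| ≤
        C * (1 - (1 / 2) ^ (4 * n + 2)) ^ t := by
  obtain ⟨C, hC0, hC⟩ := h_sub_AA h hh
  refine ⟨C, hC0, fun F g hg hF t => ?_⟩
  have hdepA : DepOn (F ∪ FF n t) (fun ω => AA (runC n (g ω) ω t)) := (runC_dep n hg t).comp AA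
  have hmeas : MeasurableSet {ω | runC n (g ω) ω t S W} := by
    have : {ω | runC n (g ω) ω t S W} = (fun ω => AA (runC n (g ω) ω t)) ⁻¹' {1} := by
      ext ω
      rw [Set.mem_preimage, Set.mem_singleton_iff]
      by_cases hω : (runC n (g ω) ω t) S W
      · have h2 : ω ∈ {ω | runC n (g ω) ω t S W} := hω
        simp [AA, hω, h2]
      · have h2 : ω ∉ {ω | runC n (g ω) ω t S W} := hω
        simp [AA, hω, h2]
    rw [this]
    exact hdepA.meas (measurableSet_singleton _)
  have hAint : ∫ ω, AA (runC n (g ω) ω t) ∂planeMeasure =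
      (planeMeasure {ω | runC n (g ω) ω t S W}).toReal := by
    have : (fun ω => AA (runC n (g ω) ω t)) =
        ({ω | runC n (g ω) ω t S W}).indicator (fun _ => (1 : ℝ)) := by
      funext ω
      by_cases hω : (runC n (g ω) ω t) S W
      · have h2 : ω ∈ {ω | runC n (g ω) ω t S W} := hω
        rw [Set.indicator_of_mem h2]
        simp [AA, hω]
      · have h2 : ω ∉ {ω | runC n (g ω) ω t S W} := hω
        rw [Set.indicator_of_notMem h2]
        simp [AA, hω]
    rw [this, integral_indicator hmeas]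
    simp [Measure.real]
  have hTh : ∀ t : ℕ, (TT n)^[t] h = h := by
    intro t
    induction t with
    | zero => rfl
    | succ t ih =>
      rw [Function.iterate_succ_apply]
      have : TT n h = h := funext fun c => TT_harm n hn h hh c
      rw [this, ih]
  have hh' : ∫ ω, h (runC n (g ω) ω t) ∂planeMeasure = ∫ ω, h (g ω) ∂planeMeasure := by
    rw [runC_iter n hg hF t h, hTh]
  rw [← hAint, ← hh', ← integral_sub (hdepA.int _) (((runC_dep n hg t).comp h).int _)]
  calc |∫ ω, (AA (runC n (g ω) ω t) - h (runC n (g ω) ω t)) ∂planeMeasure|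
      ≤ ∫ ω, |AA (runC n (g ω) ω t) - h (runC n (g ω) ω t)| ∂planeMeasure :=
        abs_integral_le_integral_abs
    _ ≤ ∫ ω, C * NN (runC n (g ω) ω t) ∂planeMeasure :=
        integral_mono (((runC_dep n hg t).comp (fun c => |AA c - h c|)).int _)
          ((((runC_dep n hg t).comp NN).int _).const_mul _) fun ω => hC _
    _ = C * ∫ ω, NN (runC n (g ω) ω t) ∂planeMeasure := integral_const_mul _ _
    _ ≤ _ := mul_le_mul_of_nonneg_left (runC_NN n hg hF t) hC0

/-! ### Translations and independence -/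

theorem shω_mp (a : ℤ × ℤ) : MeasurePreserving (shω a) planeMeasure planeMeasure := by
  refine ⟨?_, ?_⟩
  · exact measurable_pi_lambda _ fun e => measurable_pi_apply _
  · exact Pool.Agent.H65.Perc.infinitePi_map_comp_injective _ (she a) (she_inj a)

theorem DepOn.shift {β : Type*} {F : Finset ((ℤ × ℤ) × Bool)} {g : PConf → β} (hg : DepOn F g)
    (a : ℤ × ℤ) : DepOn (F.map ⟨she a, she_inj a⟩) (fun ω => g (shω a ω)) := by
  intro ω ω' h
  refine hg _ _ fun e he => ?_
  exact h (she a e) (mem_map.mpr ⟨e, he, rfl⟩)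

/-- A run started from all singletons in a translated strip. -/
theorem run_shift_int (m : ℕ) (a : ℤ × ℤ) (M : ℕ) (H : Setoid (Pt m) → ℝ) :
    ∫ ω, H (runC m ⊥ (shω a ω) M) ∂planeMeasure = ((TT m)^[M] H) ⊥ := by
  have h1 : ∫ ω, H (runC m ⊥ (shω a ω) M) ∂planeMeasure =
      ∫ ω, H (runC m ⊥ ω M) ∂planeMeasure := by
    have h3 := (shω_mp a).map_eq
    have hdep : DepOn (∅ ∪ FF m M) (fun ω => H (runC m ⊥ ω M)) :=
      (runC_dep m (F := ∅) (g := fun _ => ⊥) (fun _ _ _ => rfl) M).comp H
    have h4 : ∫ ω, H (runC m ⊥ ω M) ∂planeMeasure =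
        ∫ ω, H (runC m ⊥ ω M) ∂(Measure.map (shω a) planeMeasure) := by rw [h3]
    rw [h4, integral_map (shω_mp a).measurable.aemeasurable hdep.meas.aestronglyMeasurable]
  rw [h1, runC_iter m (F := ∅) (g := fun _ => ⊥) (fun _ _ _ => rfl) (fun _ _ _ => notMem_empty _) M]
  simp

theorem planeIndep {F G : Finset ((ℤ × ℤ) × Bool)} (hFG : Disjoint F G) :
    IndepFun (fun (ω : PConf) (i : F) => ω i) (fun (ω : PConf) (i : G) => ω i) planeMeasure := by
  have h := iIndepFun_infinitePi (P := fun _ : (ℤ × ℤ) × Bool =>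
    (PMF.uniformOfFintype Bool).toMeasure) (X := fun _ x => x) (fun _ => measurable_id)
  exact h.indepFun_finset F G hFG (fun i => measurable_pi_apply i)

theorem indep_int {α β : Type*} {F G : Finset ((ℤ × ℤ) × Bool)} (hFG : Disjoint F G)
    {X : PConf → α} {Y : PConf → β} (hX : DepOn F X) (hY : DepOn G Y) [Finite α]
    (Φ : α → β → ℝ) :
    ∫ ω, Φ (X ω) (Y ω) ∂planeMeasure =
      ∫ ω, (∫ ω', Φ (X ω) (Y ω') ∂planeMeasure) ∂planeMeasure := by
  classical
  cases nonempty_fintype α
  -- decompose according to the value of `X`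
  have hdec : ∀ (f : PConf → α → ℝ), (fun ω => f ω (X ω)) =
      fun ω => ∑ c : α, (if X ω = c then 1 else 0) * f ω c := by
    intro f
    funext ω
    simp
  have hXi : ∀ c : α, DepOn F (fun ω => (if X ω = c then (1 : ℝ) else 0)) := fun c =>
    hX.comp (fun x => if x = c then (1 : ℝ) else 0)
  have hYi : ∀ c : α, DepOn G (fun ω => Φ c (Y ω)) := fun c => hY.comp (Φ c)
  have h1 : ∫ ω, Φ (X ω) (Y ω) ∂planeMeasure =
      ∑ c : α, ∫ ω, (if X ω = c then 1 else 0) * Φ c (Y ω) ∂planeMeasure := by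
    rw [hdec (fun ω c => Φ c (Y ω)), integral_finset_sum]
    intro c _
    have : DepOn (F ∪ G) (fun ω => (if X ω = c then (1 : ℝ) else 0) * Φ c (Y ω)) := by
      intro ω ω' h
      have e1 := hXi c ω ω' fun i hi => h i (mem_union_left _ hi)
      have e2 := hYi c ω ω' fun i hi => h i (mem_union_right _ hi)
      simp only at e1 e2
      simp only [e1, e2]
    exact this.int _
  have h2 : ∫ ω, (∫ ω', Φ (X ω) (Y ω') ∂planeMeasure) ∂planeMeasure =
      ∑ c : α, (∫ ω, (if X ω = c then (1 : ℝ) else 0) ∂planeMeasure) *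
        ∫ ω', Φ c (Y ω') ∂planeMeasure := by
    rw [hdec (fun _ c => ∫ ω', Φ c (Y ω') ∂planeMeasure), integral_finset_sum]
    · refine sum_congr rfl fun c _ => ?_
      rw [integral_mul_const]
    · intro c _
      exact ((hXi c).int _).mul_const _
  rw [h1, h2]
  refine sum_congr rfl fun c _ => ?_
  -- independence
  have hind : IndepFun (fun ω => (if X ω = c then (1 : ℝ) else 0)) (fun ω => Φ c (Y ω))
      planeMeasure := by
    rw [(hXi c).factor, (hYi c).factor]
    exact (planeIndep hFG).comp (measurable_of_finite _) (measurable_of_finite _)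
  exact hind.integral_fun_mul_eq_mul_integral ((hXi c).meas.aestronglyMeasurable)
    ((hYi c).meas.aestronglyMeasurable)

end Pool.Agent.H30.Glue
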