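import Mathlib
import Pool.Agent.H30.Glue.Prob

set_option autoImplicit false
open Finset MeasureTheory Filter Topology ProbabilityTheory

/-! The probability of the crossing event in the slit strip. -/

namespace Pool.Agent.H30.Glue

open Pool.Agent.H65.Perc (PConf planeMeasure)
open Pool.Agent.H75.Exact
open Pool.Agent.H75.Exact.Det (tgt XX YY f0 inS_of_mem exists_layer EL_mono)

/-- the edges of the translated strip as a finite set -/
noncomputable def FB (m : ℕ) (s : ℤ) (M : ℕ) : Finset ((ℤ × ℤ) × Bool) :=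
  (FF m M).map ⟨she (s - (M : ℤ), s + (M : ℤ)), she_inj _⟩

lemma lay_mem_EL {n t : ℕ} {p : ℕ × ((ℤ × ℤ) × Bool)} (hp : p ∈ lay n t) : p.2 ∈ Det.EL n (t + 1) := by
  unfold lay at hp
  rw [List.mem_append, List.mem_reverse, List.mem_map, List.mem_map] at hp
  rcases hp with ⟨j, hj, rfl⟩ | ⟨j, hj, rfl⟩
  · rw [List.mem_range] at hj
    exact ⟨t, by omega, j + 2, by omega, by omega, Or.inl rfl⟩
  · rw [List.mem_range] at hj
    exact ⟨t, by omega, j + 2, by omega, by omega, Or.inr rfl⟩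

lemma FF_sub_EL {m M : ℕ} {e : (ℤ × ℤ) × Bool} (he : e ∈ FF m M) : e ∈ Det.EL m M := by
  unfold FF at he
  rw [mem_biUnion] at he
  obtain ⟨t, ht, h⟩ := he
  rw [mem_range] at ht
  rw [List.mem_toFinset, List.mem_map] at h
  obtain ⟨p, hp, rfl⟩ := h
  exact EL_mono (by omega : t + 1 ≤ M) (lay_mem_EL hp)

lemma FB_sub {m : ℕ} {s : ℤ} {M : ℕ} {e : (ℤ × ℤ) × Bool} (he : e ∈ FB m s M) : e ∈ BM m s M := by
  unfold FB at he
  rw [Finset.mem_map] at he
  obtain ⟨e', he', rfl⟩ := he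
  exact ⟨e', FF_sub_EL he', rfl⟩

lemma FB_lay {m : ℕ} {s : ℤ} {M : ℕ} {n t : ℕ} {p : ℕ × ((ℤ × ℤ) × Bool)} (hp : p ∈ lay n t) :
    p.2 ∉ FB m s M := by
  intro h
  obtain ⟨⟨_, _, h1⟩, ⟨_, _, h2⟩⟩ := mem_BM (FB_sub h)
  obtain ⟨⟨_, _, g1⟩, ⟨_, _, g2⟩⟩ := inS_of_mem (lay_mem_EL hp)
  obtain ⟨_, c⟩ := tgt_cases p.2
  rcases c with c | c <;> omega

lemma FB_disj (r m M : ℕ) : Disjoint (FB r 0 M) (FB m (r + 1) M) := by
  rw [Finset.disjoint_left]
  intro e h1 h2
  obtain ⟨⟨_, a1, _⟩, _⟩ := mem_BM (FB_sub h1)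
  obtain ⟨⟨a2, _, _⟩, _⟩ := mem_BM (FB_sub h2)
  omega

lemma cL_dep (r M : ℕ) : DepOn (FB r 0 M) (cL r M) := by
  have h := DepOn.shift (runC_dep r (F := ∅) (g := fun _ => ⊥) (fun _ _ _ => rfl) M)
    (0 - (M : ℤ), 0 + (M : ℤ))
  rw [empty_union] at h
  exact h

lemma cR_dep (r m M : ℕ) : DepOn (FB m (r + 1) M) (cR r m M) := by
  have h := DepOn.shift (runC_dep m (F := ∅) (g := fun _ => ⊥) (fun _ _ _ => rfl) M)
    (((r : ℤ) + 1) - (M : ℤ), ((r : ℤ) + 1) + (M : ℤ))
  rw [empty_union] at h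
  exact h

lemma ext2_dep (r m M : ℕ) : DepOn (FB r 0 M ∪ FB m (r + 1) M)
    (fun ω => ext2 r m (cL r M ω) (cR r m M ω)) := by
  intro ω ω' h
  have e1 := cL_dep r M ω ω' fun i hi => h i (mem_union_left _ hi)
  have e2 := cR_dep r m M ω ω' fun i hi => h i (mem_union_right _ hi)
  simp only [e1, e2]

/-- the expectation of a function of the two lower partitions -/
theorem ext2_int (r m M : ℕ) (h : Setoid (Pt (r + 1 + m)) → ℝ) :
    ∫ ω, h (ext2 r m (cL r M ω) (cR r m M ω)) ∂planeMeasure =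
      ((TT r)^[M] fun c => ((TT m)^[M] fun d => h (ext2 r m c d)) ⊥) ⊥ := by
  rw [indep_int (FB_disj r m M) (cL_dep r M) (cR_dep r m M) (fun c d => h (ext2 r m c d))]
  have h1 : ∀ c : Setoid (Pt r), ∫ ω', h (ext2 r m c (cR r m M ω')) ∂planeMeasure =
      ((TT m)^[M] fun d => h (ext2 r m c d)) ⊥ := fun c =>
    run_shift_int m _ M (fun d => h (ext2 r m c d))
  simp only [h1]
  exact run_shift_int r _ M (fun c => ((TT m)^[M] fun d => h (ext2 r m c d)) ⊥)

theorem slit_lim (r m : ℕ) (h : Setoid (Pt (r + 1 + m)) → ℝ) (hh : Harm (r + 1 + m) h) :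
    Tendsto (fun M : ℕ => ((TT r)^[M] fun c => ((TT m)^[M] fun d => h (ext2 r m c d)) ⊥) ⊥) atTop
      (𝓝 (planeMeasure {ω | SlitCross r m ω}).toReal) := by
  have hn1 : 1 ≤ r + 1 + m := by omega
  set g : ℕ → PConf → Setoid (Pt (r + 1 + m)) := fun M ω => ext2 r m (cL r M ω) (cR r m M ω) with hg
  have hdep : ∀ M, DepOn (FB r 0 M ∪ FB m (r + 1) M) (g M) := fun M => ext2_dep r m M
  have hF : ∀ M, ∀ t, ∀ p ∈ lay (r + 1 + m) t, p.2 ∉ FB r 0 M ∪ FB m (r + 1) M := by
    intro M t p hp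
    rw [mem_union, not_or]
    exact ⟨FB_lay hp, FB_lay hp⟩
  -- the event with truncated lower strips
  set E : ℕ → Set PConf := fun M => {ω | ∃ T, runC (r + 1 + m) (g M ω) ω T S W} with hE
  have hmeasT : ∀ M T, MeasurableSet {ω | runC (r + 1 + m) (g M ω) ω T S W} := by
    intro M T
    have hdepA : DepOn ((FB r 0 M ∪ FB m (r + 1) M) ∪ FF (r + 1 + m) T)
      (fun ω => AA (runC (r + 1 + m) (g M ω) ω T)) := (runC_dep (r + 1 + m) (hdep M) T).comp AA
    have : {ω | runC (r + 1 + m) (g M ω) ω T S W} = (fun ω => AA (runC (r + 1 + m) (g M ω) ω T)) ⁻¹' {1} := by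
      ext ω
      rw [Set.mem_preimage, Set.mem_singleton_iff]
      by_cases hω : (runC (r + 1 + m) (g M ω) ω T) S W
      · have h2 : ω ∈ {ω | runC (r + 1 + m) (g M ω) ω T S W} := hω
        simp [AA, hω, h2]
      · have h2 : ω ∉ {ω | runC (r + 1 + m) (g M ω) ω T S W} := hω
        simp [AA, hω, h2]
    rw [this]
    exact hdepA.meas (measurableSet_singleton _)
  have hEU : ∀ M, E M = ⋃ T, {ω | runC (r + 1 + m) (g M ω) ω T S W} := by
    intro M
    ext ω
    simp [hE]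
  have hmeasE : ∀ M, MeasurableSet (E M) := by
    intro M
    rw [hEU]
    exact MeasurableSet.iUnion fun T => hmeasT M T
  -- the probability of the truncated event
  have hPE : ∀ M, (planeMeasure (E M)).toReal = ∫ ω, h (g M ω) ∂planeMeasure := by
    intro M
    obtain ⟨C, hC0, hC⟩ := top_bound (r + 1 + m) hn1 h hh
    have hlim1 : Tendsto (fun T => (planeMeasure {ω | runC (r + 1 + m) (g M ω) ω T S W}).toReal) atTop
        (𝓝 (planeMeasure (E M)).toReal) := by
      rw [hEU]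
      refine (ENNReal.tendsto_toReal (measure_ne_top _ _)).comp (tendsto_measure_iUnion_atTop ?_)
      exact monotone_nat_of_le_succ fun T ω hω => runC_SW_mono (r + 1 + m) (g M ω) ω T hω
    refine tendsto_nhds_unique hlim1 ?_
    rw [tendsto_iff_dist_tendsto_zero]
    have hq : (1 / 2 : ℝ) ^ (4 * (r + 1 + m) + 2) ≤ 1 := pow_le_one₀ (by norm_num) (by norm_num)
    have hq' : (0 : ℝ) < (1 / 2) ^ (4 * (r + 1 + m) + 2) := by positivity
    have h1 : Tendsto (fun t : ℕ => C * (1 - (1 / 2 : ℝ) ^ (4 * (r + 1 + m) + 2)) ^ t) atTop (𝓝 0) := by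
      have := (tendsto_pow_atTop_nhds_zero_of_lt_one (r := 1 - (1 / 2 : ℝ) ^ (4 * (r + 1 + m) + 2))
        (by linarith) (by linarith)).const_mul C
      rwa [mul_zero] at this
    exact squeeze_zero (fun t => dist_nonneg)
      (fun t => by rw [Real.dist_eq]; exact hC _ (g M) (hdep M) (hF M) t) h1
  -- convergence to the full event
  have hconv : Tendsto (fun M => planeMeasure (E M)) atTop
      (𝓝 (planeMeasure {ω | SlitCross r m ω})) := by
    refine tendsto_measure_of_tendsto_indicator_of_isFiniteMeasure atTop planeMeasure hmeasE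
      fun ω => ?_
    by_cases hω : SlitCross r m ω
    · obtain ⟨M₀, h0⟩ := s_complete r m ω hω
      filter_upwards [eventually_ge_atTop M₀] with M hM
      obtain ⟨T₀, h1⟩ := h0 M hM
      exact ⟨fun _ => hω, fun _ => ⟨T₀, h1 T₀ le_rfl⟩⟩
    · refine Eventually.of_forall fun M => ⟨fun ⟨T, hT⟩ => ?_, fun h => absurd h hω⟩
      exact s_sound r m ω M T hT
  have hfin := (ENNReal.tendsto_toReal (measure_ne_top planeMeasure _)).comp hconv
  refine hfin.congr fun M => ?_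
  simp only [Function.comp]
  rw [hPE M]
  exact ext2_int r m M h

end Pool.Agent.H30.Glue
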