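import Mathlib
import Pool.Agent.H30.Glue.SlitProb

set_option autoImplicit false
open Finset MeasureTheory Filter Topology ProbabilityTheory

/-! The probability of the crossing event in the L-shaped strip. -/

namespace Pool.Agent.H30.Glue

open Pool.Agent.H65.Perc (PConf planeMeasure)
open Pool.Agent.H75.Exact
open Pool.Agent.H72.CardyP

theorem runZ_int (m M : ℕ) (g : Setoid (Pt m) → ℝ) :
    ∫ ω, g (runZ m (-M) ⊥ ω M) ∂planeMeasure = ((TT m)^[M] g) ⊥ := by
  simp only [runZ_eq]
  exact run_shift_int m _ M g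

theorem perc_lim (m n : ℕ) (hmn : m < n) (h : Setoid (Pt n) → ℝ) (hh : Harm n h)
    (hsound : ∀ (ω : PConf) (M T' : ℕ), runZ n 0 (ext m n (runZ m (-M) ⊥ ω M)) ω T' S W → LCross m n ω)
    (hcomp : ∀ ω, LCross m n ω →
      ∃ M₀, ∀ M : ℕ, M₀ ≤ M → ∃ T', runZ n 0 (ext m n (runZ m (-M) ⊥ ω M)) ω T' S W) :
    Tendsto (fun M : ℕ => ((TT m)^[M] fun c => h (ext m n c)) ⊥) atTop
      (𝓝 (planeMeasure {ω | LCross m n ω}).toReal) := by
  have hn1 : 1 ≤ n := by omega
  set g : ℕ → PConf → Setoid (Pt n) := fun M ω => ext m n (runZ m (-M) ⊥ ω M) with hg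
  have hdep : ∀ M, DepOn (FB m 0 M) (g M) := by
    intro M
    have h1 : g M = fun ω => ext m n (cL m M ω) := by
      funext ω
      simp only [hg, runZ_eq, cL]
    rw [h1]
    exact (cL_dep m M).comp (ext m n)
  have hF : ∀ M, ∀ t, ∀ p ∈ lay n t, p.2 ∉ FB m 0 M := fun M t p hp => FB_lay hp
  -- the event with truncated lower strip
  set E : ℕ → Set PConf := fun M => {ω | ∃ T, runC n (g M ω) ω T S W} with hE
  have hmeasT : ∀ M T, MeasurableSet {ω | runC n (g M ω) ω T S W} := by
    intro M T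
    have hdepA : DepOn (FB m 0 M ∪ FF n T) (fun ω => AA (runC n (g M ω) ω T)) :=
      (runC_dep n (hdep M) T).comp AA
    have : {ω | runC n (g M ω) ω T S W} = (fun ω => AA (runC n (g M ω) ω T)) ⁻¹' {1} := by
      ext ω
      rw [Set.mem_preimage, Set.mem_singleton_iff]
      by_cases hω : (runC n (g M ω) ω T) S W
      · have h2 : ω ∈ {ω | runC n (g M ω) ω T S W} := hω
        simp [AA, hω, h2]
      · have h2 : ω ∉ {ω | runC n (g M ω) ω T S W} := hω
        simp [AA, hω, h2]
    rw [this]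
    exact hdepA.meas (measurableSet_singleton _)
  have hEU : ∀ M, E M = ⋃ T, {ω | runC n (g M ω) ω T S W} := by
    intro M
    ext ω
    simp [hE]
  have hmeasE : ∀ M, MeasurableSet (E M) := by
    intro M
    rw [hEU]
    exact MeasurableSet.iUnion fun T => hmeasT M T
  have hPE : ∀ M, (planeMeasure (E M)).toReal = ∫ ω, h (g M ω) ∂planeMeasure := by
    intro M
    obtain ⟨C, hC0, hC⟩ := top_bound n hn1 h hh
    have hlim1 : Tendsto (fun T => (planeMeasure {ω | runC n (g M ω) ω T S W}).toReal) atTop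
        (𝓝 (planeMeasure (E M)).toReal) := by
      rw [hEU]
      refine (ENNReal.tendsto_toReal (measure_ne_top _ _)).comp (tendsto_measure_iUnion_atTop ?_)
      exact monotone_nat_of_le_succ fun T ω hω => runC_SW_mono n (g M ω) ω T hω
    refine tendsto_nhds_unique hlim1 ?_
    rw [tendsto_iff_dist_tendsto_zero]
    have hq : (1 / 2 : ℝ) ^ (4 * n + 2) ≤ 1 := pow_le_one₀ (by norm_num) (by norm_num)
    have hq' : (0 : ℝ) < (1 / 2) ^ (4 * n + 2) := by positivity
    have h1 : Tendsto (fun t : ℕ => C * (1 - (1 / 2 : ℝ) ^ (4 * n + 2)) ^ t) atTop (𝓝 0) := by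
      have := (tendsto_pow_atTop_nhds_zero_of_lt_one (r := 1 - (1 / 2 : ℝ) ^ (4 * n + 2))
        (by linarith) (by linarith)).const_mul C
      rwa [mul_zero] at this
    exact squeeze_zero (fun t => dist_nonneg)
      (fun t => by rw [Real.dist_eq]; exact hC _ (g M) (hdep M) (hF M) t) h1
  have hconv : Tendsto (fun M => planeMeasure (E M)) atTop
      (𝓝 (planeMeasure {ω | LCross m n ω})) := by
    refine tendsto_measure_of_tendsto_indicator_of_isFiniteMeasure atTop planeMeasure hmeasE
      fun ω => ?_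
    by_cases hω : LCross m n ω
    · obtain ⟨M₀, h0⟩ := hcomp ω hω
      filter_upwards [eventually_ge_atTop M₀] with M hM
      obtain ⟨T₀, h1⟩ := h0 M hM
      rw [runZ_zero] at h1
      exact ⟨fun _ => hω, fun _ => ⟨T₀, h1⟩⟩
    · refine Eventually.of_forall fun M => ⟨fun ⟨T, hT⟩ => ?_, fun h => absurd h hω⟩
      refine hsound ω M T ?_
      rw [runZ_zero]
      exact hT
  have hfin := (ENNReal.tendsto_toReal (measure_ne_top planeMeasure _)).comp hconv
  refine hfin.congr fun M => ?_
  simp only [Function.comp]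
  rw [hPE M]
  exact runZ_int m M (fun c => h (ext m n c))

/-- the same without hypotheses -/
theorem perc_lim' (m n : ℕ) (hmn : m < n) (h : Setoid (Pt n) → ℝ) (hh : Harm n h) :
    Tendsto (fun M : ℕ => ((TT m)^[M] fun c => h (ext m n c)) ⊥) atTop
      (𝓝 (planeMeasure {ω | LCross m n ω}).toReal) :=
  perc_lim m n hmn h hh (fun ω M T' => l_sound m n hmn ω M T') (fun ω => l_complete m n hmn ω)

end Pool.Agent.H30.Glue
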