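import Pool.Agent.H30.Glue.SlitFinal

set_option autoImplicit false
open Finset MeasureTheory Filter Topology

/-! The slit strip: `P r m + P m r = 1`. -/

namespace Pool.Agent.H30.Glue

open Pool.Agent.H65.Perc (PConf planeMeasure)
open Pool.Agent.H75.Exact Pool.Agent.H75.Exact.Lk
open Pool.Agent.H72.CardyP
open Pool.Agent.H72.Cardy (sumC cap capR A Sol)

/-- eigenvector in the sector with `n` down sites -/
structure HV (a : ℂ) (n : ℕ) (V : List Bool → ℂ) : Prop where
  hl : HL a n V
  supp : ∀ x : List Bool, x.length = 2 * n + 1 → x.count true ≠ n → V x = 0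

/-- closure -/
noncomputable def cz (a : ℂ) (n : ℕ) (V : List Bool → ℂ) : ℂ := capR a n V [] [false]

section Gen

variable {q a : ℂ} {n : ℕ} {V : List Bool → ℂ}

lemma HV.heig (hq : q ^ 2 + q + 1 = 0) (ha : a ^ 2 = - q ^ 2) (hV : HV a n V) (D : Finset ℕ) :
    ∑ i ∈ Icc 1 (2 * n), E q i (fun D => V (lst (2 * n + 1) D)) D =
      2 * n * V (lst (2 * n + 1) D) := by
  obtain ⟨ha0, _, h1, h2, _⟩ := a_facts hq ha
  exact HL.heig h1 h2 ha0 hV.hl D

lemma HV.up (hq : q ^ 2 + q + 1 = 0) (ha : a ^ 2 = - q ^ 2) (hV : HV a n V)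
    {B : Cov} {c : Setoid ℕ} (hB : RepP a false n B c) :
    GG n n (fun D => V (lst (2 * n + 1) D)) B = cz a n V := by
  obtain ⟨c', hc'⟩ := Cc_rep a false n
  have := closure_const q a hq ha n false (fun D => V (lst (2 * n + 1) D))
    (fun D _ _ => hV.heig hq ha D) B (Cc a false n) c c' hB hc'
  simp only [Bool.false_eq_true, if_false] at this
  rw [this, GG_eq, PL_Cc]
  · rfl
  · intro x hx hc
    rw [hV.supp x hx hc, zero_mul]

lemma HV.fA (hq : q ^ 2 + q + 1 = 0) (ha : a ^ 2 = - q ^ 2) (hV : HV a n V) :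
    fA a n (fun D => V (lst (2 * n + 1) D)) = cz a n V := by
  have hr : ∀ (n : ℕ) (B : Cov), Rep1 a n B → ∃ c, RepP a false n B c := by
    intro n B h
    induction h with
    | base => exact ⟨⊥, RepP.base⟩
    | cup j h1 h2 _ ih =>
      obtain ⟨c, hc⟩ := ih
      exact ⟨_, RepP.cup j h1 h2 hc⟩
  obtain ⟨c, hc⟩ := hr n _ (B1_rep a n)
  rw [← hV.up hq ha hc, ← L1_eq, ← G_L1]
  unfold G GG
  exact sum_congr rfl fun D _ => mul_comm _ _

lemma HV.Cd (hq : q ^ 2 + q + 1 = 0) (ha : a ^ 2 = - q ^ 2) (hV : HV a n V) :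
    capR a n V [false] [] = cz a n V := by
  obtain ⟨c, hc⟩ := Cd_rep a false n
  rw [← hV.up hq ha hc, GG_eq, PL_Cd]
  intro x hx hc
  rw [hV.supp x hx hc, zero_mul]

lemma HV.down (hq : q ^ 2 + q + 1 = 0) (ha : a ^ 2 = - q ^ 2) (hV : HV a n V) :
    PL (2 * n + 1) (fun s => V (flipL s)) (Cc a true n) = cz a n V := by
  rw [PL_Cc, capR_flip, ← hV.Cd hq ha]
  rfl

lemma HV.supp2 (hV : HV a n V) (x : List Bool) (hx : x.length = 2 * n + 1)
    (hc : x.count true ≠ n + 1) : V (flipL x) = 0 := by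
  apply hV.supp _ (by rw [flipL_length, hx])
  rw [count_flipL]
  have := List.count_le_length (a := true) (l := x)
  omega

/-- the stationary law, defect up -/
theorem HV.eq_vU (hq : q ^ 2 + q + 1 = 0) (ha : a ^ 2 = - q ^ 2) (hV : HV a n V)
    {L : (Setoid (Pt n) → ℂ) →ₗ[ℂ] ℂ} (hL : Stat n L) (x : List Bool)
    (hx : x.length = 2 * n + 1) : V x = cz a n V * vU a L x := by
  obtain ⟨ha0, _, h1, h2, h3⟩ := a_facts hq ha
  by_cases hcx : x.count true = n
  · set V' : List Bool → ℂ := fun x => V x - cz a n V * vU a L x with hV'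
    have hHL : HL a n V' := by
      intro s hs
      have e1 := hV.hl s hs
      have e2 := vU_HL ha0 h3 hL s hs
      have : ∀ i, cap a V' (s.take i) (s.drop (i + 2)) =
          cap a V (s.take i) (s.drop (i + 2)) -
          cz a n V * cap a (vU a L) (s.take i) (s.drop (i + 2)) := by
        intro i
        unfold cap
        rw [hV']
        ring
      simp only [this, mul_sub]
      rw [sum_sub_distrib]
      have e3 : ∑ i ∈ range (2 * n), A a (s.getD i false) (s.getD (i + 1) false) *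
          (cz a n V * cap a (vU a L) (s.take i) (s.drop (i + 2))) =
          cz a n V * (2 * n * vU a L s) := by
        rw [← e2, mul_sum]
        exact sum_congr rfl fun i _ => by ring
      rw [e3, e1, hV']
      ring
    obtain ⟨c, hc⟩ := Cc_rep a false n
    have hsupp : ∀ x : List Bool, x.length = 2 * n + 1 → x.count true ≠ n → V' x = 0 := by
      intro x hx hc
      rw [hV']
      simp only
      rw [hV.supp x hx hc, vU_supp hL x hx hc]
      ring
    have hGG : GG n n (fun D => V' (lst (2 * n + 1) D)) (Cc a false n) = 0 := by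
      rw [GG_eq _ _ _ _ fun x hx hc => by rw [hsupp x hx hc, zero_mul]]
      have : PL (2 * n + 1) V' (Cc a false n) =
          PL (2 * n + 1) V (Cc a false n) -
          cz a n V * PL (2 * n + 1) (vU a L) (Cc a false n) := by
        unfold PL
        rw [sumC_eq, sumC_eq, sumC_eq, mul_sum, ← sum_sub_distrib]
        refine sum_congr rfl fun D _ => ?_
        rw [hV']
        ring
      rw [this, vU_Cc ha0 h3 hL, PL_Cc]
      unfold cz
      ring
    have := heig_unique q a hq ha n false (fun D => V' (lst (2 * n + 1) D))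
      (fun D _ _ => HL.heig h1 h2 ha0 hHL D) (Cc a false n) c hc (by simpa using hGG)
      (stl x) (by rw [← hx]; exact stl_sub x) (by
        have hh := count_lst x.length (stl x) (stl_sub x)
        rw [lst_stl] at hh
        rw [← hh, hcx]
        rfl)
    rw [← hx, lst_stl, hV'] at this
    simp only at this
    linear_combination this
  · rw [hV.supp x hx hcx, vU_supp hL x hx hcx]
    ring

/-- the stationary law, defect down -/
theorem HV.eq_vL (hq : q ^ 2 + q + 1 = 0) (ha : a ^ 2 = - q ^ 2) (hV : HV a n V)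
    {L : (Setoid (Pt n) → ℂ) →ₗ[ℂ] ℂ} (hL : Stat n L) (x : List Bool)
    (hx : x.length = 2 * n + 1) : V (flipL x) = cz a n V * vL a L x := by
  obtain ⟨ha0, _, h1, h2, h3⟩ := a_facts hq ha
  by_cases hcx : x.count true = n + 1
  · set V' : List Bool → ℂ := fun x => V (flipL x) - cz a n V * vL a L x with hV'
    have hHL : HL a n V' := by
      intro s hs
      have e1 := hV.hl.flip s hs
      have e2 := vL_HL ha0 h3 hL s hs
      have : ∀ i, cap a V' (s.take i) (s.drop (i + 2)) =
          cap a (fun x => V (flipL x)) (s.take i) (s.drop (i + 2)) -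
          cz a n V * cap a (vL a L) (s.take i) (s.drop (i + 2)) := by
        intro i
        unfold cap
        rw [hV']
        ring
      simp only [this, mul_sub]
      rw [sum_sub_distrib]
      have e3 : ∑ i ∈ range (2 * n), A a (s.getD i false) (s.getD (i + 1) false) *
          (cz a n V * cap a (vL a L) (s.take i) (s.drop (i + 2))) =
          cz a n V * (2 * n * vL a L s) := by
        rw [← e2, mul_sum]
        exact sum_congr rfl fun i _ => by ring
      rw [e3, e1, hV']
      ring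
    obtain ⟨c, hc⟩ := Cc_rep a true n
    have hsupp : ∀ x : List Bool, x.length = 2 * n + 1 → x.count true ≠ n + 1 → V' x = 0 := by
      intro x hx hc
      rw [hV']
      simp only
      rw [hV.supp2 x hx hc, vL_supp hL x hx hc]
      ring
    have hGG : GG n (n + 1) (fun D => V' (lst (2 * n + 1) D)) (Cc a true n) = 0 := by
      rw [GG_eq _ _ _ _ fun x hx hc => by rw [hsupp x hx hc, zero_mul]]
      have : PL (2 * n + 1) V' (Cc a true n) =
          PL (2 * n + 1) (fun x => V (flipL x)) (Cc a true n) -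
          cz a n V * PL (2 * n + 1) (vL a L) (Cc a true n) := by
        unfold PL
        rw [sumC_eq, sumC_eq, sumC_eq, mul_sum, ← sum_sub_distrib]
        refine sum_congr rfl fun D _ => ?_
        rw [hV']
        ring
      rw [this, hV.down hq ha, vL_Cc ha0 h3 hL]
      ring
    have := heig_unique q a hq ha n true (fun D => V' (lst (2 * n + 1) D))
      (fun D _ _ => HL.heig h1 h2 ha0 hHL D) (Cc a true n) c hc (by simpa using hGG)
      (stl x) (by rw [← hx]; exact stl_sub x) (by
        have hh := count_lst x.length (stl x) (stl_sub x)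
        rw [lst_stl] at hh
        rw [← hh, hcx]
        rfl)
    rw [← hx, lst_stl, hV'] at this
    simp only at this
    linear_combination this
  · rw [hV.supp2 x hx hcx, vL_supp hL x hx hcx]
    ring

/-! ### reversal -/

lemma A_rev (a : ℂ) (x y : Bool) : A a⁻¹ y x = A a x y := by
  cases x <;> cases y <;> simp [A]

lemma cap_rev (a : ℂ) (V : List Bool → ℂ) (s t : List Bool) :
    cap a⁻¹ (fun s => V s.reverse) s t = cap a V t.reverse s.reverse := by
  unfold cap
  simp only [List.reverse_append, List.reverse_cons, List.append_assoc, List.cons_append,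
    List.nil_append, inv_inv]
  ring

lemma HL_rev (hV : HL a n V) : HL a⁻¹ n (fun s => V s.reverse) := by
  intro s hs
  rw [← hV s.reverse (by rw [List.length_reverse, hs])]
  rw [← Finset.sum_range_reflect]
  refine sum_congr rfl fun i hi => ?_
  rw [mem_range] at hi
  rw [cap_rev]
  have hj : 2 * n - 1 - i + 1 < s.length := by omega
  have e1 : s.reverse.getD i false = s.getD (2 * n - 1 - i + 1) false := by
    rw [List.getD_eq_getElem _ _ (by rw [List.length_reverse]; omega),
      List.getD_eq_getElem _ _ (by omega), List.getElem_reverse]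
    congr 1
    omega
  have e2 : s.reverse.getD (i + 1) false = s.getD (2 * n - 1 - i) false := by
    rw [List.getD_eq_getElem _ _ (by rw [List.length_reverse]; omega),
      List.getD_eq_getElem _ _ (by omega), List.getElem_reverse]
    congr 1
    omega
  rw [e1, e2, ← A_rev, inv_inv]
  have e3 : (s.drop (2 * n - 1 - i + 2)).reverse = s.reverse.take i := by
    rw [List.take_reverse]
    congr 2
    omega
  have e4 : (s.take (2 * n - 1 - i)).reverse = s.reverse.drop (i + 2) := by
    rw [List.drop_reverse]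
    congr 2
    omega
  rw [e3, e4]

lemma HV.rev (hV : HV a n V) : HV a⁻¹ n (fun s => V s.reverse) where
  hl := HL_rev hV.hl
  supp x hx hc := hV.supp _ (by rw [List.length_reverse, hx]) (by rw [List.count_reverse]; exact hc)

lemma sumC_rev (N : ℕ) (f : List Bool → ℂ) : sumC N (fun s => f s.reverse) = sumC N f := by
  induction N generalizing f with
  | zero => rfl
  | succ N ih =>
    have h1 : sumC (N + 1) f = sumC N fun s => sumC 1 fun t => f (s ++ t) := sumC_add N 1 f
    rw [h1, sumC]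
    simp only [List.reverse_cons, sumC_one]
    rw [ih (fun s => f (s ++ [false])), ih (fun s => f (s ++ [true])), sumC_addf]

lemma arcsL_rev (a : ℂ) (r : ℕ) (u : List Bool) (hu : u.length = 2 * r) :
    arcsL a⁻¹ u.reverse = arcsL a u := by
  induction r generalizing u with
  | zero =>
    have : u = [] := List.length_eq_zero_iff.1 (by omega)
    subst this
    rfl
  | succ r ih =>
    match u, hu with
    | c :: d :: u, hu =>
      have hu' : u.length = 2 * r := by simp only [List.length_cons] at hu; omega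
      rw [List.reverse_cons, List.reverse_cons, List.append_assoc,
        arcsL_append a⁻¹ r _ _ (by rw [List.length_reverse, hu']), ih u hu']
      simp only [List.cons_append, List.nil_append, arcsL, A_rev]
      ring

lemma cz_rev (hq : q ^ 2 + q + 1 = 0) (ha : a ^ 2 = - q ^ 2) (hV : HV a n V) :
    cz a⁻¹ n (fun s => V s.reverse) = cz a n V := by
  rw [← hV.Cd hq ha]
  unfold cz
  rw [capR_eq, capR_eq, ← sumC_rev]
  apply sumC_congr
  intro u hu
  rw [arcsL_rev a n u hu]
  simp

end Gen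

/-! ### the glued sums -/

/-- spins down, up, up -/
theorem compS_rep3d (a : ℂ) (r m : ℕ) (BL BR : Cov) (cL cR : Setoid ℕ)
    (hL : RepP a true r BL cL) (hR : RepP a false m BR cR) :
    Rep3d a (r + 1 + m) (compS r BL BR) (extS r cL cR) := by
  induction hL with
  | base =>
    induction hR with
    | base =>
      have e1 : compS 0 (fun s => if s 1 = true then 1 else 0)
          (fun s => if s 1 = false then 1 else 0) =
          (fun s => if s 1 = true ∧ s 2 = false ∧ s 3 = false then 1 else 0) := by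
        funext s
        unfold compS
        simp only [Nat.mul_zero, Nat.zero_add]
        by_cases h1 : s 1 = true <;> by_cases h2 : s 2 = false <;> by_cases h3 : s 3 = false <;>
          simp [h1, h2, h3]
      have e2 : extS 0 ⊥ ⊥ = C0N 1 := by
        apply Setoid.ext
        intro u v
        rw [extS_apply, C0N_apply]
        have hb : ∀ x y : ℕ, (⊥ : Setoid ℕ) x y ↔ x = y := fun x y => Iff.rfl
        rw [hb, hb]
        unfold gS
        split_ifs <;> omega
      rw [e1, e2]
      exact Rep3d.base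
    | @cup m BR cR j h1 h2 h ih =>
      rw [extS_cupR 0 j h1, compS_cupR a 0 j h1]
      · have := Rep3d.cup (a := a) (j + (2 * 0 + 2)) (by omega) (by omega) ih
        exact this
      · intro s s' hs
        simp only [hs 1 le_rfl (by omega)]
  | @cup r BL cL j h1 h2 h ih =>
    rw [extS_cupL r j h1 h2, compS_cupL a r j h2]
    have := Rep3d.cup (a := a) j h1 (by omega) ih
    rw [show r + 1 + 1 + m = r + 1 + m + 1 by ring]
    exact this

/-- `PL_compS` for arbitrary defects -/
lemma PL_compS' (a : ℂ) (r m : ℕ) (σ σ' : Bool) (BL BR : Cov) (cL cR : Setoid ℕ)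
    (hL : RepP a σ r BL cL) (hR : RepP a σ' m BR cR) (V : List Bool → ℂ) :
    PL (2 * (r + 1 + m) + 1) V (compS r BL BR) =
      sumC (2 * r + 1) fun s => sumC (2 * m + 1) fun t =>
        BL (fn s) * BR (fn t) * V (s ++ false :: t) := by
  unfold PL
  rw [show 2 * (r + 1 + m) + 1 = (2 * r + 1) + (1 + (2 * m + 1)) by ring, sumC_add]
  apply sumC_congr
  intro s hs
  rw [sumC_add, sumC_one]
  have hval : ∀ (c : Bool) (t : List Bool), t.length = 2 * m + 1 →
      compS r BL BR (fn (s ++ ([c] ++ t))) = BL (fn s) * (if c = false then 1 else 0) * BR (fn t) := by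
    intro c t ht
    unfold compS
    have e1 : fn (s ++ ([c] ++ t)) (2 * r + 2) = c := by
      rw [show 2 * r + 2 = 2 * r + 1 + 1 by ring, fn_succ, getD_app_right _ _ _ (by omega), hs]
      simp
    have e2 : BR (fun i => fn (s ++ ([c] ++ t)) (2 * r + 2 + i)) = BR (fn t) := by
      apply hR.loc
      intro i hi hi'
      rw [fn_pos _ _ (by omega), fn_pos _ _ hi, getD_app_right _ _ _ (by omega),
        getD_app_right _ _ _ (by simp; omega)]
      congr 1
      simp only [List.length_cons, List.length_nil]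
      omega
    rw [e1, e2, hL.loc_fn s _ hs]
  have h0 : (sumC (2 * m + 1) fun t => V (s ++ ([true] ++ t)) *
      compS r BL BR (fn (s ++ ([true] ++ t)))) = sumC (2 * m + 1) fun _ => 0 := by
    apply sumC_congr
    intro t ht
    rw [hval true t ht]
    simp
  rw [h0]
  have hz : sumC (2 * m + 1) (fun _ => (0 : ℂ)) = 0 := by rw [sumC_eq]; simp
  rw [hz, add_zero]
  apply sumC_congr
  intro t ht
  rw [hval false t ht]
  simp only [if_true, mul_one, List.cons_append, List.nil_append]
  ring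

/-- linearity -/
lemma glue_lin {r m : ℕ} (L : (Setoid (Pt r) → ℂ) →ₗ[ℂ] ℂ) (L' : (Setoid (Pt m) → ℂ) →ₗ[ℂ] ℂ)
    (f : Setoid (Pt r) → List Bool → ℂ) (g : Setoid (Pt m) → List Bool → ℂ)
    (W : List Bool → List Bool → ℂ) (N N' : ℕ) :
    (sumC N fun s => sumC N' fun t => (L fun c => f c s) * (L' fun d => g d t) * W s t) =
      L fun c => L' fun d => sumC N fun s => sumC N' fun t => f c s * g d t * W s t := by
  have e5 : ∀ c : Setoid (Pt r), (L' fun d => sumC N fun s => sumC N' fun t =>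
      f c s * g d t * W s t) =
      sumC N fun s => f c s * sumC N' fun t => (L' fun d => g d t) * W s t := by
    intro c
    rw [lin_sumC]
    apply sumC_congr
    intro s _
    rw [lin_sumC, ← sumC_mul]
    apply sumC_congr
    intro t _
    rw [mul_comm (L' _), ← lin_mul, ← lin_mul]
    congr 1
    funext d
    ring
  simp only [e5]
  rw [lin_sumC]
  apply sumC_congr
  intro s _
  have e6 : (fun c => f c s * sumC N' fun t => (L' fun d => g d t) * W s t) =
      fun c => (sumC N' fun t => (L' fun d => g d t) * W s t) * f c s := by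
    funext c
    ring
  rw [e6, lin_mul, mul_comm, ← sumC_mul]
  apply sumC_congr
  intro t _
  ring

section Val

variable {q a : ℂ} {r m : ℕ} {V₁ V₂ V₃ : List Bool → ℂ}

/-- spins up, up, down -/
theorem glue_value (hq : q ^ 2 + q + 1 = 0) (ha : a ^ 2 = - q ^ 2) (hV₁ : HV a r V₁)
    (hV₂ : HV a (r + 1 + m) V₂) (hV₃ : HV a m V₃)
    (h : Setoid (Pt (r + 1 + m)) → ℝ) (hh : Harm (r + 1 + m) h)
    (L : (Setoid (Pt r) → ℝ) →ₗ[ℝ] ℝ) (h1 : L (fun _ => 1) = 1)
    (h2 : ∀ g, L (fun c => ∑ i ∈ Icc 1 (2 * r), g (ee r i c)) = 2 * r * L g)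
    (h3 : ∀ g g', (∀ c, NC r c → g c = g' c) → L g = L g')
    (L' : (Setoid (Pt m) → ℝ) →ₗ[ℝ] ℝ) (h1' : L' (fun _ => 1) = 1)
    (h2' : ∀ g, L' (fun c => ∑ i ∈ Icc 1 (2 * m), g (ee m i c)) = 2 * m * L' g)
    (h3' : ∀ g g', (∀ c, NC m c → g c = g' c) → L' g = L' g') :
    (sumC (2 * r + 1) fun s => sumC (2 * m + 1) fun t =>
      V₁ s * V₂ (s ++ false :: t) * V₃ (flipL t)) =
      a * (L (fun c => L' fun d => h (ext2 r m c d)) : ℂ) * cz a r V₁ * cz a m V₃ *
        cz a (r + 1 + m) V₂ := by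
  have hL := cplx_stat L h1 h2 h3
  have hL' := cplx_stat L' h1' h2' h3'
  have e1 : (sumC (2 * r + 1) fun s => sumC (2 * m + 1) fun t =>
      V₁ s * V₂ (s ++ false :: t) * V₃ (flipL t)) =
      cz a r V₁ * cz a m V₃ * (sumC (2 * r + 1) fun s => sumC (2 * m + 1) fun t =>
        vU a (cplx L) s * vL a (cplx L') t * V₂ (s ++ false :: t)) := by
    rw [← sumC_mul]
    apply sumC_congr
    intro s hs
    rw [← sumC_mul]
    apply sumC_congr
    intro t ht
    rw [hV₁.eq_vU hq ha hL s hs, hV₃.eq_vL hq ha hL' t ht]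
    ring
  rw [e1]
  unfold vU vL
  rw [glue_lin (cplx L) (cplx L') (fun c s => BofU a r c (fn s)) (fun d t => Bof a m d (fn t))
    (fun s t => V₂ (s ++ false :: t))]
  have e6 : (cplx L fun c => cplx L' fun d => sumC (2 * r + 1) fun s => sumC (2 * m + 1) fun t =>
        BofU a r c (fn s) * Bof a m d (fn t) * V₂ (s ++ false :: t)) =
      cplx L fun c => (a * cz a (r + 1 + m) V₂) * ((L' fun d => h (ext2 r m c d) : ℝ) : ℂ) := by
    apply hL.nc
    intro c hc
    obtain ⟨BL, cL, hBL, rfl⟩ := (NC_iff a false r c).1 hc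
    rw [BofU_eq hBL, ← cplx_real L', ← lin_mul]
    apply hL'.nc
    intro d hd
    obtain ⟨BR, cR, hBR, rfl⟩ := (NC_iff a true m d).1 hd
    rw [Bof_eq hBR, ← PL_compS' a r m _ _ BL BR cL cR hBL hBR, ← GG_eq (r + 1 + m) (r + 1 + m) _ _
      (fun x hx hc => by rw [hV₂.supp x hx hc, zero_mul]), ← G_eq_GG,
      rep3_pair q a hq ha (r + 1 + m) (by omega) _ (fun D _ _ => hV₂.heig hq ha D) h hh _ _
      (compS_rep a r m BL BR cL cR hBL hBR), extS_comap, hV₂.fA hq ha]
    ring
  rw [e6, lin_mul, cplx_real]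
  ring

/-- spins down, up, up -/
theorem glue_value_dual (hq : q ^ 2 + q + 1 = 0) (ha : a ^ 2 = - q ^ 2) (hV₁ : HV a r V₁)
    (hV₂ : HV a (r + 1 + m) V₂) (hV₃ : HV a m V₃)
    (h : Setoid (Pt (r + 1 + m)) → ℝ) (hh : Harm (r + 1 + m) h)
    (L : (Setoid (Pt r) → ℝ) →ₗ[ℝ] ℝ) (h1 : L (fun _ => 1) = 1)
    (h2 : ∀ g, L (fun c => ∑ i ∈ Icc 1 (2 * r), g (ee r i c)) = 2 * r * L g)
    (h3 : ∀ g g', (∀ c, NC r c → g c = g' c) → L g = L g')
    (L' : (Setoid (Pt m) → ℝ) →ₗ[ℝ] ℝ) (h1' : L' (fun _ => 1) = 1)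
    (h2' : ∀ g, L' (fun c => ∑ i ∈ Icc 1 (2 * m), g (ee m i c)) = 2 * m * L' g)
    (h3' : ∀ g g', (∀ c, NC m c → g c = g' c) → L' g = L' g') :
    (sumC (2 * r + 1) fun s => sumC (2 * m + 1) fun t =>
      V₁ (flipL s) * V₂ (s ++ false :: t) * V₃ t) =
      a⁻¹ * (1 - (L (fun c => L' fun d => h (ext2 r m c d)) : ℂ)) * cz a r V₁ * cz a m V₃ *
        cz a (r + 1 + m) V₂ := by
  have hL := cplx_stat L h1 h2 h3
  have hL' := cplx_stat L' h1' h2' h3'
  have e1 : (sumC (2 * r + 1) fun s => sumC (2 * m + 1) fun t =>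
      V₁ (flipL s) * V₂ (s ++ false :: t) * V₃ t) =
      cz a r V₁ * cz a m V₃ * (sumC (2 * r + 1) fun s => sumC (2 * m + 1) fun t =>
        vL a (cplx L) s * vU a (cplx L') t * V₂ (s ++ false :: t)) := by
    rw [← sumC_mul]
    apply sumC_congr
    intro s hs
    rw [← sumC_mul]
    apply sumC_congr
    intro t ht
    rw [hV₁.eq_vL hq ha hL s hs, hV₃.eq_vU hq ha hL' t ht]
    ring
  rw [e1]
  unfold vU vL
  rw [glue_lin (cplx L) (cplx L') (fun c s => Bof a r c (fn s)) (fun d t => BofU a m d (fn t))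
    (fun s t => V₂ (s ++ false :: t))]
  have e6 : (cplx L fun c => cplx L' fun d => sumC (2 * r + 1) fun s => sumC (2 * m + 1) fun t =>
        Bof a r c (fn s) * BofU a m d (fn t) * V₂ (s ++ false :: t)) =
      cplx L fun c => (a⁻¹ * cz a (r + 1 + m) V₂) *
        ((L' (fun d => 1 - h (ext2 r m c d)) : ℝ) : ℂ) := by
    apply hL.nc
    intro c hc
    obtain ⟨BL, cL, hBL, rfl⟩ := (NC_iff a true r c).1 hc
    rw [Bof_eq hBL, ← cplx_real L', ← lin_mul]
    apply hL'.nc
    intro d hd
    obtain ⟨BR, cR, hBR, rfl⟩ := (NC_iff a false m d).1 hd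
    rw [BofU_eq hBR, ← PL_compS' a r m _ _ BL BR cL cR hBL hBR, ← GG_eq (r + 1 + m) (r + 1 + m) _ _
      (fun x hx hc => by rw [hV₂.supp x hx hc, zero_mul]),
      rep3d_pair q a hq ha (r + 1 + m) (by omega) _ (fun D _ _ => hV₂.heig hq ha D) h hh _ _
      (compS_rep3d a r m BL BR cL cR hBL hBR), extS_comap, hV₂.fA hq ha]
    push_cast
    ring
  rw [e6, lin_mul, cplx_real]
  have e7 : ∀ c, L' (fun d => 1 - h (ext2 r m c d)) = 1 - L' fun d => h (ext2 r m c d) := by
    intro c
    have : (fun d => 1 - h (ext2 r m c d)) = (fun _ => (1 : ℝ)) - fun d => h (ext2 r m c d) := rfl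
    rw [this, map_sub, h1']
  have e8 : L (fun c => L' fun d => 1 - h (ext2 r m c d)) =
      1 - L fun c => L' fun d => h (ext2 r m c d) := by
    simp only [e7]
    have : (fun c => 1 - L' fun d => h (ext2 r m c d)) =
      (fun _ => (1 : ℝ)) - fun c => L' fun d => h (ext2 r m c d) := rfl
    rw [this, map_sub, h1]
  rw [e8]
  push_cast
  ring

end Val

/-! ### probabilities -/

section Pr

variable {q a : ℂ} {r m : ℕ} {V₁ V₂ V₃ : List Bool → ℂ}

/-- the crossing probability of the slit strip -/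
noncomputable def PS (r m : ℕ) : ℝ := (planeMeasure {ω | SlitCross r m ω}).toReal

theorem glue_prob (hq : q ^ 2 + q + 1 = 0) (ha : a ^ 2 = - q ^ 2) (hV₁ : HV a r V₁)
    (hV₂ : HV a (r + 1 + m) V₂) (hV₃ : HV a m V₃) :
    (sumC (2 * r + 1) fun s => sumC (2 * m + 1) fun t =>
      V₁ s * V₂ (s ++ false :: t) * V₃ (flipL t)) =
      a * (PS r m : ℂ) * cz a r V₁ * cz a m V₃ * cz a (r + 1 + m) V₂ := by
  obtain ⟨h, hh, _⟩ := exists_harm (r + 1 + m) (by omega)
  obtain ⟨L, hL, h1, h2, h3⟩ := stat_exists r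
  obtain ⟨L', hL', h1', h2', h3'⟩ := stat_exists m
  have e1 := iter_lim r m (fun c d => h (ext2 r m c d)) L L' hL hL'
  have e2 := tendsto_nhds_unique e1 (slit_lim r m h hh)
  rw [glue_value hq ha hV₁ hV₂ hV₃ h hh L h1 h2 h3 L' h1' h2' h3', e2]
  rfl

theorem glue_prob_dual (hq : q ^ 2 + q + 1 = 0) (ha : a ^ 2 = - q ^ 2) (hV₁ : HV a r V₁)
    (hV₂ : HV a (r + 1 + m) V₂) (hV₃ : HV a m V₃) :
    (sumC (2 * r + 1) fun s => sumC (2 * m + 1) fun t =>
      V₁ (flipL s) * V₂ (s ++ false :: t) * V₃ t) =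
      a⁻¹ * (1 - (PS r m : ℂ)) * cz a r V₁ * cz a m V₃ * cz a (r + 1 + m) V₂ := by
  obtain ⟨h, hh, _⟩ := exists_harm (r + 1 + m) (by omega)
  obtain ⟨L, hL, h1, h2, h3⟩ := stat_exists r
  obtain ⟨L', hL', h1', h2', h3'⟩ := stat_exists m
  have e1 := iter_lim r m (fun c d => h (ext2 r m c d)) L L' hL hL'
  have e2 := tendsto_nhds_unique e1 (slit_lim r m h hh)
  rw [glue_value_dual hq ha hV₁ hV₂ hV₃ h hh L h1 h2 h3 L' h1' h2' h3', e2]
  rfl

lemma flipL_rev (t : List Bool) : (flipL t.reverse).reverse = flipL t := by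
  unfold flipL
  rw [List.reverse_reverse, List.map_reverse]

lemma sumC_comm (N N' : ℕ) (f : List Bool → List Bool → ℂ) :
    (sumC N fun s => sumC N' fun t => f s t) = sumC N' fun t => sumC N fun s => f s t := by
  simp only [sumC_eq]
  exact Finset.sum_comm

/-- duality -/
theorem PS_dual_of (hq : q ^ 2 + q + 1 = 0) (ha : a ^ 2 = - q ^ 2) (hV₁ : HV a r V₁)
    (hV₂ : HV a (r + 1 + m) V₂) (hV₃ : HV a m V₃) (h₁ : cz a r V₁ ≠ 0)
    (h₂ : cz a (r + 1 + m) V₂ ≠ 0) (h₃ : cz a m V₃ ≠ 0) : PS r m + PS m r = 1 := by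
  obtain ⟨ha0, hq0, _⟩ := a_facts hq ha
  have hq' : (q⁻¹) ^ 2 + q⁻¹ + 1 = 0 := by
    field_simp
    linear_combination hq
  have ha' : (a⁻¹) ^ 2 = - (q⁻¹) ^ 2 := by
    rw [inv_pow, inv_pow, ha, inv_neg]
  have hV₂' : HV a (m + 1 + r) V₂ := by
    rw [show m + 1 + r = r + 1 + m by ring]
    exact hV₂
  have e1 := glue_prob hq' ha' hV₃.rev hV₂'.rev hV₁.rev
  have e2 := glue_prob_dual hq ha hV₁ hV₂ hV₃
  rw [cz_rev hq ha hV₃, cz_rev hq ha hV₂', cz_rev hq ha hV₁] at e1
  rw [sumC_comm] at e2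
  have e3 : (sumC (2 * m + 1) fun s => sumC (2 * r + 1) fun t =>
      (fun s => V₃ s.reverse) s * (fun s => V₂ s.reverse) (s ++ false :: t) *
        (fun s => V₁ s.reverse) (flipL t)) =
      sumC (2 * m + 1) fun t => sumC (2 * r + 1) fun s =>
        V₁ (flipL s) * V₂ (s ++ false :: t) * V₃ t := by
    rw [← sumC_rev]
    apply sumC_congr
    intro s _
    rw [← sumC_rev]
    apply sumC_congr
    intro t _
    simp only [List.reverse_reverse, flipL_rev, List.reverse_append, List.reverse_cons,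
      List.append_assoc, List.cons_append, List.nil_append]
    ring
  rw [e3, e2, show m + 1 + r = r + 1 + m by ring] at e1
  have e4 : (a⁻¹ * cz a r V₁ * cz a m V₃ * cz a (r + 1 + m) V₂) * ((1 : ℂ) - (PS r m : ℂ)) =
      (a⁻¹ * cz a r V₁ * cz a m V₃ * cz a (r + 1 + m) V₂) * (PS m r : ℂ) := by
    linear_combination e1
  have e5 := mul_left_cancel₀ (mul_ne_zero (mul_ne_zero (mul_ne_zero (inv_ne_zero ha0) h₁) h₃) h₂) e4
  have e6 : ((PS r m + PS m r : ℝ) : ℂ) = ((1 : ℝ) : ℂ) := by
    push_cast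
    rw [← e5]
    ring
  exact_mod_cast e6

lemma HV_V1 {Φ : List ℂ → List Bool → ℂ} (hq : q ^ 2 + q + 1 = 0) (ha : a ^ 2 = - q ^ 2)
    (hΦ : Sol q a Φ) (n : ℕ) : HV a n (V1 Φ n) where
  hl := HL_one hq ha hΦ n
  supp := V1_supp hΦ n

/-- the crossing probabilities of the slit strips `r, m` and `m, r` add up to one -/
theorem slit_dual {Φ : List ℂ → List Bool → ℂ} (hq : q ^ 2 + q + 1 = 0) (ha : a ^ 2 = - q ^ 2)
    (hΦ : Sol q a Φ) (hc : ∀ n, cl a Φ n ≠ 0) (r m : ℕ) :
    (planeMeasure {ω | SlitCross r m ω}).toReal +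
      (planeMeasure {ω | SlitCross m r ω}).toReal = 1 :=
  PS_dual_of hq ha (HV_V1 hq ha hΦ r) (HV_V1 hq ha hΦ (r + 1 + m)) (HV_V1 hq ha hΦ m)
    (hc r) (hc (r + 1 + m)) (hc m)

end Pr

end Pool.Agent.H30.Glue
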