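import Pool.Agent.H30.Glue.SlitValue
import Pool.Agent.H30.Glue.SlitProb
import Pool.Agent.H72.Cardy.Stat

set_option autoImplicit false
open Finset MeasureTheory Filter Topology

/-! The crossing probability of the slit strip in terms of the spin vectors. -/

namespace Pool.Agent.H30.Glue

open Pool.Agent.H65.Perc (PConf planeMeasure)
open Pool.Agent.H75.Exact Pool.Agent.H75.Exact.Lk
open Pool.Agent.H72.CardyP
open Pool.Agent.H72.Cardy (sumC cap capR A Sol)

lemma NC_eeAll (n i : ℕ) (c : Setoid (Pt n)) (hc : NC n c) : NC n (ee n i c) := by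
  exact NC_ee n i c hc

lemma NC_fold (n : ℕ) (l : List ℕ) (c : Setoid (Pt n)) (hc : NC n c) :
    NC n (down (l.foldl (fun d i => ee (n + 1) i d) (up c))) := by
  apply NC_down
  have : ∀ (l : List ℕ) (d : Setoid (Pt (n + 1))), NC (n + 1) d →
      NC (n + 1) (l.foldl (fun d i => ee (n + 1) i d) d) := by
    intro l
    induction l with
    | nil => exact fun d hd => hd
    | cons i l ih =>
      intro d hd
      rw [List.foldl_cons]
      exact ih _ (NC_ee (n + 1) i d hd)
  exact this l _ (NC_up n c hc)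

/-- the stationary functional -/
theorem stat_exists (m : ℕ) : ∃ L : (Setoid (Pt m) → ℝ) →ₗ[ℝ] ℝ,
      (∀ g, Tendsto (fun M : ℕ => ((TT m)^[M] g) ⊥) atTop (𝓝 (L g))) ∧
      L (fun _ => 1) = 1 ∧
      (∀ g, L (fun c => ∑ i ∈ Icc 1 (2 * m), g (ee m i c)) = 2 * m * L g) ∧
      (∀ g g', (∀ c, NC m c → g c = g' c) → L g = L g') :=
  exists_stat m (NC_bot m) (fun i c hc => NC_ee m i c hc) (fun l c hc => NC_fold m l c hc)

/-- iterates of the transfer matrix are averages -/
lemma TT_iter_abs (m M : ℕ) (g : Setoid (Pt m) → ℝ) (C : ℝ) (hC : ∀ c, |g c| ≤ C) :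
    |((TT m)^[M] g) ⊥| ≤ C := by
  rw [← run_shift_int m 0 M g]
  calc |∫ ω, g (runC m ⊥ (shω 0 ω) M) ∂planeMeasure|
      ≤ ∫ ω, |g (runC m ⊥ (shω 0 ω) M)| ∂planeMeasure := abs_integral_le_integral_abs
    _ ≤ ∫ _, C ∂planeMeasure := by
        refine integral_mono_of_nonneg (Eventually.of_forall fun ω => abs_nonneg _)
          (integrable_const _) (Eventually.of_forall fun ω => hC _)
    _ = C := by simp

lemma iter_lim (r m : ℕ) (F : Setoid (Pt r) → Setoid (Pt m) → ℝ)
    (L : (Setoid (Pt r) → ℝ) →ₗ[ℝ] ℝ) (L' : (Setoid (Pt m) → ℝ) →ₗ[ℝ] ℝ)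
    (hL : ∀ g, Tendsto (fun M : ℕ => ((TT r)^[M] g) ⊥) atTop (𝓝 (L g)))
    (hL' : ∀ g, Tendsto (fun M : ℕ => ((TT m)^[M] g) ⊥) atTop (𝓝 (L' g))) :
    Tendsto (fun M : ℕ => ((TT r)^[M] fun c => ((TT m)^[M] fun d => F c d) ⊥) ⊥) atTop
      (𝓝 (L fun c => L' fun d => F c d)) := by
  cases nonempty_fintype (Setoid (Pt r))
  set G : Setoid (Pt r) → ℝ := fun c => L' fun d => F c d with hG
  set D : ℕ → Setoid (Pt r) → ℝ := fun M c => ((TT m)^[M] fun d => F c d) ⊥ - G c with hD
  have hD0 : Tendsto (fun M => ∑ c, |D M c|) atTop (𝓝 0) := by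
    have : ∀ c : Setoid (Pt r), Tendsto (fun M => |D M c|) atTop (𝓝 0) := by
      intro c
      have h1 := (hL' (fun d => F c d)).sub_const (G c)
      have h2 : G c = L' (fun d => F c d) := rfl
      rw [h2, sub_self] at h1
      have h3 := h1.abs
      rwa [abs_zero] at h3
    have h := tendsto_finset_sum (Finset.univ : Finset (Setoid (Pt r))) fun c _ => this c
    simpa using h
  have hadd : ∀ M, ((TT r)^[M] fun c => ((TT m)^[M] fun d => F c d) ⊥) ⊥ =
      ((TT r)^[M] G) ⊥ + ((TT r)^[M] (D M)) ⊥ := by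
    intro M
    have h1 : (fun c => ((TT m)^[M] fun d => F c d) ⊥) = G + D M := by
      funext c
      simp only [hD, Pi.add_apply]
      ring
    rw [h1, ← TL_pow, ← TL_pow, ← TL_pow, map_add]
    rfl
  simp only [hadd]
  have h1 := hL G
  have h2 : Tendsto (fun M => ((TT r)^[M] (D M)) ⊥) atTop (𝓝 0) := by
    refine squeeze_zero_norm (fun M => ?_) hD0
    rw [Real.norm_eq_abs]
    exact TT_iter_abs r M (D M) _ fun c =>
      single_le_sum (f := fun c => |D M c|) (fun c _ => abs_nonneg _) (mem_univ c)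
  simpa using h1.add h2

variable {q a : ℂ} {Φ : List ℂ → List Bool → ℂ}

/-- The crossing probability of the slit strip. -/
theorem slit_value (hq : q ^ 2 + q + 1 = 0) (ha : a ^ 2 = - q ^ 2) (hΦ : Sol q a Φ) (r m : ℕ) :
    Nslit Φ (List.replicate (2 * r + 1) 1) (List.replicate (2 * (r + 1 + m) + 1) 1)
        (List.replicate (2 * m + 1) 1) =
      a * ((planeMeasure {ω | SlitCross r m ω}).toReal : ℂ) * cl a Φ r * cl a Φ m *
        cl a Φ (r + 1 + m) := by
  obtain ⟨h, hh, _⟩ := exists_harm (r + 1 + m) (by omega)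
  obtain ⟨L, hL, h1, h2, h3⟩ := stat_exists r
  obtain ⟨L', hL', h1', h2', h3'⟩ := stat_exists m
  have e1 := iter_lim r m (fun c d => h (ext2 r m c d)) L L' hL hL'
  have e2 := tendsto_nhds_unique e1 (slit_lim r m h hh)
  rw [Nslit_value hq ha hΦ r m h hh L h1 h2 h3 L' h1' h2' h3', e2]

end Pool.Agent.H30.Glue
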