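import Pool.Agent.H30.Glue.SlitDefs
import Pool.Agent.H72.Cardy.AsmF

set_option autoImplicit false
open Finset

/-! The slit strip: composition of the link states of the two lower strips. -/

namespace Pool.Agent.H30.Glue

open Pool.Agent.H75.Exact Pool.Agent.H75.Exact.Lk
open Pool.Agent.H72.CardyP
open Pool.Agent.H72.Cardy (sumC cap capR A Sol)

/-- The covector of the wide strip: the left link state `BL` on the sites `1..2r+1`, up at `2r+2`
(the tip), the right link state `BR` on the sites `2r+3..`. -/
noncomputable def compS (r : ℕ) (BL BR : Cov) : Cov := fun s =>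
  BL s * (if s (2 * r + 2) = false then 1 else 0) * BR (fun i => s (2 * r + 2 + i))

/-- the left part: the source is identified with the wall of the left strip -/
def gS (r : ℕ) (u : ℕ) : ℕ := if u = 0 then r + 1 else u

/-- The partition of the wide strip. -/
def extS (r : ℕ) (cL cR : Setoid ℕ) : Setoid ℕ where
  r u v := (u ≤ r + 1 ∧ v ≤ r + 1 ∧ cL (gS r u) (gS r v)) ∨
    (r + 1 < u ∧ r + 1 < v ∧ cR (u - (r + 1)) (v - (r + 1)))
  iseqv := by
    refine ⟨?_, ?_, ?_⟩
    · intro u
      rcases Nat.lt_or_ge (r + 1) u with h | h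
      · exact Or.inr ⟨h, h, cR.refl _⟩
      · exact Or.inl ⟨h, h, cL.refl _⟩
    · rintro u v (⟨h1, h2, h3⟩ | ⟨h1, h2, h3⟩)
      · exact Or.inl ⟨h2, h1, cL.symm h3⟩
      · exact Or.inr ⟨h2, h1, cR.symm h3⟩
    · rintro u v w (⟨h1, h2, h3⟩ | ⟨h1, h2, h3⟩) (⟨g1, g2, g3⟩ | ⟨g1, g2, g3⟩)
      · exact Or.inl ⟨h1, g2, cL.trans h3 g3⟩
      · omega
      · omega
      · exact Or.inr ⟨h1, g2, cR.trans h3 g3⟩

lemma extS_apply (r : ℕ) (cL cR : Setoid ℕ) (u v : ℕ) : extS r cL cR u v ↔
    (u ≤ r + 1 ∧ v ≤ r + 1 ∧ cL (gS r u) (gS r v)) ∨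
    (r + 1 < u ∧ r + 1 < v ∧ cR (u - (r + 1)) (v - (r + 1))) := Iff.rfl

/-! ### insertion of an arc in the right strip -/

lemma extS_cupR (r j : ℕ) (hj : 1 ≤ j) (cL cR : Setoid ℕ) :
    extS r cL (cupP j cR) = cupP (j + (2 * r + 2)) (extS r cL cR) := by
  apply Setoid.ext
  intro u v
  obtain ⟨p, rfl | rfl⟩ := Nat.even_or_odd' j
  · rw [show 2 * p + (2 * r + 2) = 2 * (p + (r + 1)) by ring, cupP_even, cupP_even]
    simp only [comap_apply, extS_apply]
    have h1 : ∀ u, u ≤ r + 1 → mrg (p + (r + 1)) u = u := fun u hu => mrg_le (by omega)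
    have h2 : ∀ u, r + 1 < u → r + 1 < mrg (p + (r + 1)) u ∧
        mrg (p + (r + 1)) u - (r + 1) = mrg p (u - (r + 1)) := by
      intro u hu
      unfold mrg
      split_ifs <;> omega
    rcases Nat.lt_or_ge (r + 1) u with hu | hu <;> rcases Nat.lt_or_ge (r + 1) v with hv | hv
    · rw [(h2 u hu).2, (h2 v hv).2]
      have := (h2 u hu).1
      have := (h2 v hv).1
      constructor
      · rintro (h | h)
        · omega
        · exact Or.inr ⟨by omega, by omega, h.2.2⟩
      · rintro (h | h)
        · omega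
        · exact Or.inr ⟨by omega, by omega, h.2.2⟩
    · rw [h1 v hv]
      have := (h2 u hu).1
      constructor
      · rintro (h | h) <;> omega
      · rintro (h | h) <;> omega
    · rw [h1 u hu]
      have := (h2 v hv).1
      constructor
      · rintro (h | h) <;> omega
      · rintro (h | h) <;> omega
    · rw [h1 u hu, h1 v hv]
      constructor
      · rintro (h | h)
        · exact Or.inl h
        · omega
      · rintro (h | h)
        · exact Or.inl h
        · omega
  · rw [show 2 * p + 1 + (2 * r + 2) = 2 * (p + (r + 1)) + 1 by ring, cupP_odd, cupP_odd]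
    simp only [comap_apply, extS_apply, isoN_apply]
    have h1 : ∀ u, u ≤ r + 1 → mrg (p + (r + 1) + 1) u = u := fun u hu => mrg_le (by omega)
    have h2 : ∀ u, r + 1 < u → u ≠ p + (r + 1) + 1 → r + 1 < mrg (p + (r + 1) + 1) u ∧
        mrg (p + (r + 1) + 1) u - (r + 1) = mrg (p + 1) (u - (r + 1)) := by
      intro u hu hu'
      unfold mrg
      split_ifs <;> omega
    rcases Nat.lt_or_ge (r + 1) u with hu | hu <;> rcases Nat.lt_or_ge (r + 1) v with hv | hv
    · constructor
      · rintro (h | ⟨_, _, h | ⟨h3, h4, h5⟩⟩)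
        · omega
        · exact Or.inl (by omega)
        · refine Or.inr ⟨by omega, by omega, Or.inr ?_⟩
          rw [(h2 u hu (by omega)).2, (h2 v hv (by omega)).2]
          exact ⟨(h2 u hu (by omega)).1, (h2 v hv (by omega)).1, h5⟩
      · rintro (rfl | ⟨h3, h4, h | ⟨h5, h6, h7⟩⟩)
        · exact Or.inr ⟨hu, hu, Or.inl rfl⟩
        · have := (h2 u hu h3).1
          omega
        · rw [(h2 u hu h3).2, (h2 v hv h4).2] at h7
          exact Or.inr ⟨hu, hv, Or.inr ⟨by omega, by omega, h7⟩⟩
    · constructor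
      · rintro (h | h) <;> omega
      · rintro (rfl | ⟨h3, h4, h | h⟩)
        · omega
        · have := (h2 u hu h3).1
          omega
        · rw [h1 v hv] at h
          omega
    · constructor
      · rintro (h | h) <;> omega
      · rintro (rfl | ⟨h3, h4, h | h⟩)
        · omega
        · have := (h2 v hv h4).1
          omega
        · rw [h1 u hu] at h
          omega
    · rw [h1 u hu, h1 v hv]
      constructor
      · rintro (h | h)
        · exact Or.inr ⟨by omega, by omega, Or.inl h⟩
        · omega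
      · rintro (rfl | ⟨h3, h4, h | h⟩)
        · exact Or.inl ⟨hu, hv, cL.refl _⟩
        · exact Or.inl h
        · omega

/-! ### insertion of an arc in the left strip -/

lemma extS_cupL (r j : ℕ) (hj : 1 ≤ j) (hj2 : j ≤ 2 * r + 2) (cL cR : Setoid ℕ) :
    extS (r + 1) (cupP j cL) cR = cupP j (extS r cL cR) := by
  apply Setoid.ext
  intro u v
  obtain ⟨p, rfl | rfl⟩ := Nat.even_or_odd' j
  · rw [cupP_even, cupP_even]
    simp only [comap_apply, extS_apply]
    have h1 : ∀ u, u ≤ r + 1 + 1 → mrg p u ≤ r + 1 ∧ gS r (mrg p u) = mrg p (gS (r + 1) u) := by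
      intro u hu
      unfold mrg gS
      split_ifs <;> omega
    have h2 : ∀ u, r + 1 + 1 < u → r + 1 < mrg p u ∧ mrg p u - (r + 1) = u - (r + 1 + 1) := by
      intro u hu
      unfold mrg
      split_ifs <;> omega
    rcases Nat.lt_or_ge (r + 1 + 1) u with hu | hu <;> rcases Nat.lt_or_ge (r + 1 + 1) v with hv | hv
    · obtain ⟨a1, a2⟩ := h2 u hu
      obtain ⟨b1, b2⟩ := h2 v hv
      rw [a2, b2]
      constructor
      · rintro (h | h)
        · omega
        · exact Or.inr ⟨a1, b1, h.2.2⟩
      · rintro (h | h)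
        · omega
        · exact Or.inr ⟨hu, hv, h.2.2⟩
    · have := h2 u hu
      have := h1 v hv
      constructor
      · rintro (h | h) <;> omega
      · rintro (h | h) <;> omega
    · have := h1 u hu
      have := h2 v hv
      constructor
      · rintro (h | h) <;> omega
      · rintro (h | h) <;> omega
    · obtain ⟨a1, a2⟩ := h1 u hu
      obtain ⟨b1, b2⟩ := h1 v hv
      rw [a2, b2]
      constructor
      · rintro (h | h)
        · exact Or.inl ⟨a1, b1, h.2.2⟩
        · omega
      · rintro (h | h)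
        · exact Or.inl ⟨hu, hv, h.2.2⟩
        · omega
  · rw [cupP_odd, cupP_odd]
    simp only [comap_apply, extS_apply, isoN_apply]
    have h1 : ∀ u, u ≤ r + 1 + 1 → u ≠ p + 1 → mrg (p + 1) u ≤ r + 1 ∧
        gS r (mrg (p + 1) u) = mrg (p + 1) (gS (r + 1) u) := by
      intro u hu hu'
      unfold mrg gS
      split_ifs <;> omega
    have h0 : ∀ u, u ≤ r + 1 + 1 → (gS (r + 1) u = p + 1 ↔ u = p + 1) := by
      intro u hu
      unfold gS
      split_ifs <;> omega
    have h2 : ∀ u, r + 1 + 1 < u → r + 1 < mrg (p + 1) u ∧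
        mrg (p + 1) u - (r + 1) = u - (r + 1 + 1) ∧ u ≠ p + 1 := by
      intro u hu
      unfold mrg
      split_ifs <;> omega
    rcases Nat.lt_or_ge (r + 1 + 1) u with hu | hu <;> rcases Nat.lt_or_ge (r + 1 + 1) v with hv | hv
    · obtain ⟨a1, a2, a3⟩ := h2 u hu
      obtain ⟨b1, b2, b3⟩ := h2 v hv
      rw [a2, b2]
      constructor
      · rintro (h | h)
        · omega
        · exact Or.inr ⟨a3, b3, Or.inr ⟨a1, b1, h.2.2⟩⟩
      · rintro (rfl | ⟨_, _, h | h⟩)
        · exact Or.inr ⟨hu, hu, cR.refl _⟩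
        · omega
        · exact Or.inr ⟨hu, hv, h.2.2⟩
    · have := h2 u hu
      constructor
      · rintro (h | h) <;> omega
      · rintro (rfl | ⟨h3, h4, h | h⟩)
        · omega
        · omega
        · have := h1 v hv h4
          omega
    · have := h2 v hv
      constructor
      · rintro (h | h) <;> omega
      · rintro (rfl | ⟨h3, h4, h | h⟩)
        · omega
        · omega
        · have := h1 u hu h3
          omega
    · constructor
      · rintro (⟨_, _, h | ⟨h3, h4, h5⟩⟩ | h)
        · -- equal images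
          by_cases hup : u = p + 1
          · have e1 := (h0 u hu).2 hup
            rw [e1] at h
            exact Or.inl (hup.trans ((h0 v hv).1 h.symm).symm)
          · by_cases hvp : v = p + 1
            · have e1 := (h0 v hv).2 hvp
              rw [e1] at h
              exact absurd ((h0 u hu).1 h) hup
            · obtain ⟨a1, a2⟩ := h1 u hu hup
              obtain ⟨b1, b2⟩ := h1 v hv hvp
              refine Or.inr ⟨hup, hvp, Or.inl ⟨a1, b1, ?_⟩⟩
              rw [a2, b2, h]
        · have hup : u ≠ p + 1 := fun h => h3 ((h0 u hu).2 h)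
          have hvp : v ≠ p + 1 := fun h => h4 ((h0 v hv).2 h)
          obtain ⟨a1, a2⟩ := h1 u hu hup
          obtain ⟨b1, b2⟩ := h1 v hv hvp
          refine Or.inr ⟨hup, hvp, Or.inl ⟨a1, b1, ?_⟩⟩
          rw [a2, b2]
          exact h5
        · omega
      · rintro (rfl | ⟨hup, hvp, h | h⟩)
        · exact Or.inl ⟨hu, hv, Or.inl rfl⟩
        · obtain ⟨a1, a2⟩ := h1 u hu hup
          obtain ⟨b1, b2⟩ := h1 v hv hvp
          rw [a2, b2] at h
          exact Or.inl ⟨hu, hv, Or.inr ⟨fun h' => hup ((h0 u hu).1 h'),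
            fun h' => hvp ((h0 v hv).1 h'), h.2.2⟩⟩
        · have := h1 u hu hup
          omega

/-! ### covectors -/

lemma compS_cupR (a : ℂ) (r j : ℕ) (hj : 1 ≤ j) (BL BR : Cov)
    (hloc : ∀ s s' : ℕ → Bool, (∀ i, 1 ≤ i → i ≤ 2 * r + 1 → s i = s' i) → BL s = BL s') :
    compS r BL (Lk.cup a j BR) = Lk.cup a (j + (2 * r + 2)) (compS r BL BR) := by
  funext s
  unfold compS Lk.cup
  have e1 : s (2 * r + 2 + (j + 1)) = s (j + (2 * r + 2) + 1) := by congr 1; ring
  have e2 : s (2 * r + 2 + j) = s (j + (2 * r + 2)) := by congr 1; ring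
  have e3 : skip (j + (2 * r + 2)) s (2 * r + 2) = s (2 * r + 2) := by
    unfold skip; rw [if_pos (by omega)]
  have e4 : BL (skip (j + (2 * r + 2)) s) = BL s := by
    apply hloc
    intro i _ hi
    unfold skip; rw [if_pos (by omega)]
  have e5 : (fun i => skip (j + (2 * r + 2)) s (2 * r + 2 + i)) =
      skip j (fun i => s (2 * r + 2 + i)) := by
    funext i
    unfold skip
    by_cases h : i < j
    · rw [if_pos (by omega), if_pos h]
    · rw [if_neg (by omega), if_neg h]
      congr 1
  simp only [e1, e2, e3, e4, e5]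
  split_ifs <;> ring

lemma compS_cupL (a : ℂ) (r j : ℕ) (hj2 : j ≤ 2 * r + 2) (BL BR : Cov) :
    compS (r + 1) (Lk.cup a j BL) BR = Lk.cup a j (compS r BL BR) := by
  funext s
  unfold compS Lk.cup
  have e3 : skip j s (2 * r + 2) = s (2 * (r + 1) + 2) := by
    unfold skip; rw [if_neg (by omega)]; congr 1
  have e5 : (fun i => skip j s (2 * r + 2 + i)) = fun i => s (2 * (r + 1) + 2 + i) := by
    funext i
    unfold skip
    rw [if_neg (by omega)]
    congr 1
    ring
  simp only [e3, e5]
  split_ifs <;> ring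

theorem compS_rep (a : ℂ) (r m : ℕ) (BL BR : Cov) (cL cR : Setoid ℕ)
    (hL : RepP a false r BL cL) (hR : RepP a true m BR cR) :
    Rep3 a (r + 1 + m) (compS r BL BR) (extS r cL cR) := by
  induction hL with
  | base =>
    induction hR with
    | base =>
      have e1 : compS 0 (fun s => if s 1 = false then 1 else 0)
          (fun s => if s 1 = true then 1 else 0) = base3 := by
        funext s
        unfold compS base3
        simp only [Nat.mul_zero, Nat.zero_add]
        by_cases h1 : s 1 = false <;> by_cases h2 : s 2 = false <;> by_cases h3 : s 3 = true <;>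
          simp [h1, h2, h3]
      have e2 : extS 0 ⊥ ⊥ = C0N 1 := by
        apply Setoid.ext
        intro u v
        rw [extS_apply, C0N_apply]
        have hb : ∀ x y : ℕ, (⊥ : Setoid ℕ) x y ↔ x = y := fun x y => Iff.rfl
        rw [hb, hb]
        unfold gS
        split_ifs <;> omega
      rw [e1, e2]
      exact Rep3.base
    | @cup m BR cR j h1 h2 h ih =>
      rw [extS_cupR 0 j h1, compS_cupR a 0 j h1]
      · have := Rep3.cup (a := a) (j + (2 * 0 + 2)) (by omega) (by omega) ih
        exact this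
      · intro s s' hs
        simp only [hs 1 le_rfl (by omega)]
  | @cup r BL cL j h1 h2 h ih =>
    rw [extS_cupL r j h1 h2, compS_cupL a r j h2]
    have := Rep3.cup (a := a) j h1 (by omega) ih
    rw [show r + 1 + 1 + m = r + 1 + m + 1 by ring]
    exact this

theorem extS_comap (r m : ℕ) (cL cR : Setoid ℕ) :
    (extS r cL cR).comap (io (n := r + 1 + m)) = ext2 r m (cL.comap io) (cR.comap io) := by
  have key : ∀ u : Pt (r + 1 + m), (∃ u' : Pt r, lab r m u = .inl u' ∧ io u ≤ r + 1 ∧
      gS r (io u) = io u') ∨ (∃ u' : Pt m, lab r m u = .inr u' ∧ r + 1 < io u ∧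
      io u - (r + 1) = io u') := by
    rintro (_ | _ | k)
    · exact Or.inl ⟨W, rfl, by simp [io], by simp [io, gS, W]⟩
    · refine Or.inr ⟨W, rfl, ?_, ?_⟩
      · simp only [io]; omega
      · simp only [io, W]; omega
    · simp only [lab]
      split_ifs with h1 h2
      · exact Or.inl ⟨_, rfl, by simp only [io]; omega, by simp [io, gS, col]⟩
      · exact Or.inl ⟨_, rfl, by simp only [io]; omega, by simp [io, gS, W, h2]⟩
      · refine Or.inr ⟨_, rfl, ?_, ?_⟩
        · simp only [io]; omega
        · simp only [io, col]; omega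
  apply Setoid.ext
  intro u v
  change extS r cL cR (io u) (io v) ↔
    sumS (cL.comap io) (cR.comap io) (lab r m u) (lab r m v)
  rw [extS_apply]
  rcases key u with ⟨u', hu1, hu2, hu3⟩ | ⟨u', hu1, hu2, hu3⟩ <;>
    rcases key v with ⟨v', hv1, hv2, hv3⟩ | ⟨v', hv1, hv2, hv3⟩ <;> rw [hu1, hv1]
  · change _ ↔ cL (io u') (io v')
    rw [hu3, hv3]
    constructor
    · rintro (h | h)
      · exact h.2.2
      · omega
    · intro h
      exact Or.inl ⟨hu2, hv2, h⟩
  · change _ ↔ False
    constructor
    · rintro (h | h) <;> omega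
    · exact False.elim
  · change _ ↔ False
    constructor
    · rintro (h | h) <;> omega
    · exact False.elim
  · change _ ↔ cR (io u') (io v')
    rw [hu3, hv3]
    constructor
    · rintro (h | h)
      · omega
      · exact h.2.2
    · intro h
      exact Or.inr ⟨hu2, hv2, h⟩

end Pool.Agent.H30.Glue
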