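import Pool.Agent.H30.Glue.SlitLink

set_option autoImplicit false
open Finset

/-! The slit strip: the value of the glued sum of the three spin vectors. -/

namespace Pool.Agent.H30.Glue

open Pool.Agent.H75.Exact Pool.Agent.H75.Exact.Lk
open Pool.Agent.H72.CardyP
open Pool.Agent.H72.Cardy (sumC cap capR A Sol)

/-! ### the left strip: defect up -/

section Up

variable {q a : ℂ} {Φ : List ℂ → List Bool → ℂ} {m : ℕ}

open Classical in
/-- the covector of a link state (defect up) -/
noncomputable def BofU (a : ℂ) (m : ℕ) (c : Setoid (Pt m)) : Cov :=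
  if h : ∃ B c', RepP a false m B c' ∧ c = c'.comap io then h.choose else 0

lemma BofU_eq {a : ℂ} {m : ℕ} {B : Cov} {c' : Setoid ℕ} (h : RepP a false m B c') :
    BofU a m (c'.comap io) = B := by
  have hex : ∃ B c'', RepP a false m B c'' ∧ c'.comap (io (n := m)) = c''.comap io :=
    ⟨B, c', h, rfl⟩
  unfold BofU
  rw [dif_pos hex]
  obtain ⟨c'', h1, h2⟩ := hex.choose_spec
  have := comap_io_inj h h1 h2
  subst this
  exact h1.inj h

lemma BofU_ee {a : ℂ} (ha0 : a ≠ 0) (ha : a⁻¹ * a⁻¹ + a * a = 1) {m : ℕ} {c : Setoid (Pt m)}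
    (hc : NC m c) (i : ℕ) (h1 : 1 ≤ i) (h2 : i ≤ 2 * m) :
    BofU a m (ee m i c) = EE a i (BofU a m c) := by
  obtain ⟨B, c', h, rfl⟩ := (NC_iff a false m c).1 hc
  rw [ee_comap m i h1 h2, BofU_eq (h.step ha0 ha i h1 h2), BofU_eq h]

/-- the spin vector of the stationary law (defect up) -/
noncomputable def vU (a : ℂ) (L : (Setoid (Pt m) → ℂ) →ₗ[ℂ] ℂ) (x : List Bool) : ℂ :=
  L fun c => BofU a m c (fn x)

lemma cap_vU (a : ℂ) (L : (Setoid (Pt m) → ℂ) →ₗ[ℂ] ℂ) (s t : List Bool) :
    cap a (vU a L) s t = L fun c => cap a (fun x => BofU a m c (fn x)) s t := by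
  unfold cap vU
  rw [lin_add, lin_mul, lin_mul]

lemma vU_HL (ha0 : a ≠ 0) (ha : a⁻¹ * a⁻¹ + a * a = 1) {L : (Setoid (Pt m) → ℂ) →ₗ[ℂ] ℂ}
    (hL : Stat m L) : HL a m (vU a L) := by
  intro s hs
  have h1 : ∀ i ∈ range (2 * m), A a (s.getD i false) (s.getD (i + 1) false) *
      cap a (vU a L) (s.take i) (s.drop (i + 2)) = L fun c => EE a (i + 1) (BofU a m c) (fn s) := by
    intro i hi
    rw [mem_range] at hi
    rw [cap_vU, ← lin_mul]
    congr 1
    funext c
    have hsp := list_split s i (by omega)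
    have e1 : s.getD i false = s[i] := List.getD_eq_getElem _ _ _
    have e2 : s.getD (i + 1) false = s[i + 1] := List.getD_eq_getElem _ _ _
    have hl : (s.take i).length = i := by rw [List.length_take]; omega
    rw [e1, e2]
    conv_rhs => rw [hsp]
    have := EE_fn a (BofU a m c) (s.take i) (s.drop (i + 2)) s[i] s[i + 1]
    rw [hl] at this
    rw [this]
  rw [sum_congr rfl h1, ← map_sum]
  have h2 : L (∑ i ∈ range (2 * m), fun c => EE a (i + 1) (BofU a m c) (fn s)) =
      L (fun c => ∑ i ∈ Icc 1 (2 * m), BofU a m (ee m i c) (fn s)) := by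
    apply hL.nc
    intro c hc
    rw [Finset.sum_apply, range_eq_Ico,
      sum_Ico_add' (fun i => EE a i (BofU a m c) (fn s)) 0 (2 * m) 1]
    refine sum_congr rfl fun i hi => ?_
    have hi' : 1 ≤ i ∧ i ≤ 2 * m := by
      rw [mem_Icc] at hi
      exact hi
    rw [BofU_ee ha0 ha hc i hi'.1 hi'.2]
  rw [h2, hL.eig (fun c => BofU a m c (fn s))]
  rfl

lemma vU_supp {L : (Setoid (Pt m) → ℂ) →ₗ[ℂ] ℂ} (hL : Stat m L) (x : List Bool)
    (hx : x.length = 2 * m + 1) (hc : x.count true ≠ m) : vU a L x = 0 := by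
  unfold vU
  rw [hL.nc _ (fun _ => 0), ← Pi.zero_def, map_zero]
  intro c hc'
  obtain ⟨B, c', h, rfl⟩ := (NC_iff a false m c).1 hc'
  rw [BofU_eq h]
  exact h.step' x hx (by simpa using hc)

lemma vU_Cc (ha0 : a ≠ 0) (ha : a⁻¹ * a⁻¹ + a * a = 1) {L : (Setoid (Pt m) → ℂ) →ₗ[ℂ] ℂ}
    (hL : Stat m L) : PL (2 * m + 1) (vU a L) (Cc a false m) = 1 := by
  unfold PL
  have : (fun x => vU a L x * Cc a false m (fn x)) =
      fun x => L fun c => BofU a m c (fn x) * Cc a false m (fn x) := by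
    funext x
    unfold vU
    rw [mul_comm, ← lin_mul]
    congr 1
    funext c
    ring
  rw [this, ← lin_sumC, hL.nc _ (fun _ => 1) ?_, hL.one]
  intro c hc
  obtain ⟨B, c', h, rfl⟩ := (NC_iff a false m c).1 hc
  rw [BofU_eq h]
  obtain ⟨c'', h''⟩ := Cc_rep a false m
  exact gram ha0 false (hstep ha0 ha false) h h''

/-- the stationary law of the left strip -/
theorem V_eq_vU (hq : q ^ 2 + q + 1 = 0) (ha : a ^ 2 = - q ^ 2) (hΦ : Sol q a Φ)
    {L : (Setoid (Pt m) → ℂ) →ₗ[ℂ] ℂ} (hL : Stat m L) (x : List Bool)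
    (hx : x.length = 2 * m + 1) : V1 Φ m x = cl a Φ m * vU a L x := by
  obtain ⟨ha0, _, h1, h2, h3⟩ := a_facts hq ha
  by_cases hcx : x.count true = m
  · set V : List Bool → ℂ := fun x => V1 Φ m x - cl a Φ m * vU a L x with hV
    have hHL : HL a m V := by
      intro s hs
      have e1 := HL_one hq ha hΦ m s hs
      have e2 := vU_HL ha0 h3 hL s hs
      have : ∀ i, cap a V (s.take i) (s.drop (i + 2)) =
          cap a (V1 Φ m) (s.take i) (s.drop (i + 2)) -
          cl a Φ m * cap a (vU a L) (s.take i) (s.drop (i + 2)) := by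
        intro i
        unfold cap
        rw [hV]
        ring
      simp only [this, mul_sub]
      rw [sum_sub_distrib]
      have e3 : ∑ i ∈ range (2 * m), A a (s.getD i false) (s.getD (i + 1) false) *
          (cl a Φ m * cap a (vU a L) (s.take i) (s.drop (i + 2))) =
          cl a Φ m * (2 * m * vU a L s) := by
        rw [← e2, mul_sum]
        exact sum_congr rfl fun i _ => by ring
      rw [e3]
      have e4 : ∑ i ∈ range (2 * m), A a (s.getD i false) (s.getD (i + 1) false) *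
          cap a (V1 Φ m) (s.take i) (s.drop (i + 2)) = 2 * m * V1 Φ m s := e1
      rw [e4, hV]
      ring
    obtain ⟨c, hc⟩ := Cc_rep a false m
    have hsupp : ∀ x : List Bool, x.length = 2 * m + 1 → x.count true ≠ m → V x = 0 := by
      intro x hx hc
      rw [hV]
      simp only
      rw [V1_supp hΦ m x hx hc, vU_supp hL x hx hc]
      ring
    have hGG : GG m m (fun D => V (lst (2 * m + 1) D)) (Cc a false m) = 0 := by
      rw [GG_eq _ _ _ _ fun x hx hc => by rw [hsupp x hx hc, zero_mul]]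
      have : PL (2 * m + 1) V (Cc a false m) =
          PL (2 * m + 1) (V1 Φ m) (Cc a false m) -
          cl a Φ m * PL (2 * m + 1) (vU a L) (Cc a false m) := by
        unfold PL
        rw [sumC_eq, sumC_eq, sumC_eq, mul_sum, ← sum_sub_distrib]
        refine sum_congr rfl fun D _ => ?_
        rw [hV]
        ring
      rw [this, vU_Cc ha0 h3 hL, PL_Cc]
      unfold cl
      ring
    have := heig_unique q a hq ha m false (fun D => V (lst (2 * m + 1) D))
      (fun D _ _ => HL.heig h1 h2 ha0 hHL D) (Cc a false m) c hc (by simpa using hGG)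
      (stl x) (by rw [← hx]; exact stl_sub x) (by
        have hh := count_lst x.length (stl x) (stl_sub x)
        rw [lst_stl] at hh
        rw [← hh, hcx]
        rfl)
    rw [← hx, lst_stl, hV] at this
    simp only at this
    linear_combination this
  · rw [V1_supp hΦ m x hx hcx, vU_supp hL x hx hcx]
    ring

end Up

/-! ### the pairing -/

/-- the glued sum of three vectors: bottom left `x`, top `y`, bottom right `z` -/
noncomputable def Nslit (Φ : List ℂ → List Bool → ℂ) (x : List ℂ) (y : List ℂ) (z : List ℂ) : ℂ :=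
  sumC x.length fun s => sumC z.length fun t =>
    Φ x s * Φ y (s ++ false :: t) * Φ z ((t.map not).reverse)

lemma PL_compS (a : ℂ) (r m : ℕ) (BL BR : Cov) (cL cR : Setoid ℕ) (hL : RepP a false r BL cL)
    (hR : RepP a true m BR cR) (V : List Bool → ℂ) :
    PL (2 * (r + 1 + m) + 1) V (compS r BL BR) =
      sumC (2 * r + 1) fun s => sumC (2 * m + 1) fun t =>
        BL (fn s) * BR (fn t) * V (s ++ false :: t) := by
  unfold PL
  rw [show 2 * (r + 1 + m) + 1 = (2 * r + 1) + (1 + (2 * m + 1)) by ring, sumC_add]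
  apply sumC_congr
  intro s hs
  rw [sumC_add, sumC_one]
  have hval : ∀ (c : Bool) (t : List Bool), t.length = 2 * m + 1 →
      compS r BL BR (fn (s ++ ([c] ++ t))) = BL (fn s) * (if c = false then 1 else 0) * BR (fn t) := by
    intro c t ht
    unfold compS
    have e1 : fn (s ++ ([c] ++ t)) (2 * r + 2) = c := by
      rw [show 2 * r + 2 = 2 * r + 1 + 1 by ring, fn_succ, getD_app_right _ _ _ (by omega), hs]
      simp
    have e2 : BR (fun i => fn (s ++ ([c] ++ t)) (2 * r + 2 + i)) = BR (fn t) := by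
      apply hR.loc
      intro i hi hi'
      rw [fn_pos _ _ (by omega), fn_pos _ _ hi, getD_app_right _ _ _ (by omega),
        getD_app_right _ _ _ (by simp; omega)]
      congr 1
      simp only [List.length_cons, List.length_nil]
      omega
    rw [e1, e2, hL.loc_fn s _ hs]
  have h0 : (sumC (2 * m + 1) fun t => V (s ++ ([true] ++ t)) *
      compS r BL BR (fn (s ++ ([true] ++ t)))) = sumC (2 * m + 1) fun _ => 0 := by
    apply sumC_congr
    intro t ht
    rw [hval true t ht]
    simp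
  rw [h0]
  have hz : sumC (2 * m + 1) (fun _ => (0 : ℂ)) = 0 := by rw [sumC_eq]; simp
  rw [hz, add_zero]
  apply sumC_congr
  intro t ht
  rw [hval false t ht]
  simp only [if_true, mul_one, List.cons_append, List.nil_append]
  ring

variable {q a : ℂ} {Φ : List ℂ → List Bool → ℂ}

/-- H75's `link_pairing` for all three-defect link states -/
theorem rep3_pair (q a : ℂ) (hq : q ^ 2 + q + 1 = 0) (ha : a ^ 2 = -q ^ 2) (n : ℕ) (hn : 1 ≤ n)
    (Ψ : Finset ℕ → ℂ) (hΨ : HEig q n Ψ) (h : Setoid (Pt n) → ℝ) (hh : Harm n h)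
    (B : Cov) (c : Setoid ℕ) (hB : Rep3 a n B c) :
    G n Ψ B = a * h (c.comap io) * fA a n Ψ := by
  obtain ⟨N, rfl⟩ : ∃ N, n = N + 1 := ⟨n - 1, by omega⟩
  have hq0 : q ≠ 0 := by
    rintro rfl
    norm_num at hq
  have ha0 : a ≠ 0 := by
    rintro rfl
    apply hq0
    have : q ^ 2 = 0 := by linear_combination ha
    exact pow_eq_zero_iff (two_ne_zero) |>.1 this
  have hq3 : q ^ 3 = 1 := by linear_combination (q - 1) * hq
  have hqi : q⁻¹ = q ^ 2 := by
    field_simp
    linear_combination -hq3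
  have h2 : a * a = -q⁻¹ := by rw [hqi]; linear_combination ha
  have h1 : a⁻¹ * a⁻¹ = -q := by
    rw [← mul_inv, h2, inv_neg, inv_inv]
  have hl : a⁻¹ * a⁻¹ + a * a = 1 := by
    rw [h1, h2, hqi]; linear_combination -hq
  set V := fA a (N + 1) Ψ with hV
  have hharm := harmonic q a h1 h2 ha0 (N + 1) Ψ hΨ
  -- one defect
  have H1 : ∀ B, Rep1 a (N + 1) B → G (N + 1) Ψ B = V := by
    intro B hB
    have := maxprin {B : Cov | Rep1 a (N + 1) B} (Rep1.fin a (N + 1)) (2 * (N + 1)) (EE a)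
      (fun B => G (N + 1) Ψ B - V) ?_ ?_ (w1 (N + 1)) ?_ ?_ B hB
    · exact sub_eq_zero.1 this
    · intro B _
      rw [Finset.sum_sub_distrib, hharm B, Finset.sum_const, Nat.card_Icc, nsmul_eq_mul]
      push_cast
      ring
    · intro B hB i hi
      rw [Finset.mem_Icc] at hi
      exact Or.inl (Rep1.step a ha0 hl hB i hi.1 hi.2)
    · intro i hi
      rw [Finset.mem_Icc]
      have := w1_mem (N + 1) i hi
      omega
    · intro B hB _
      rw [Rep1.foldl_w1 a ha0 hl (N + 1) B hB, ← L1_eq, G_L1, hV, sub_self]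
  -- three defects
  have H3 := maxprin {x : Cov × Setoid ℕ | Rep3 a (N + 1) x.1 x.2} (Rep3.fin a (N + 1))
    (2 * (N + 1)) (fun i x => (EE a i x.1, eeP i x.2))
    (fun x => G (N + 1) Ψ x.1 - a * h (x.2.comap io) * V) ?_ ?_
    ((List.range (N + 1)).map (fun k => 2 * k + 1)) ?_ ?_
    (B, c) hB
  · exact sub_eq_zero.1 H3
  · rintro ⟨B, c⟩ _
    simp only []
    rw [Finset.sum_sub_distrib, hharm B, ← Finset.sum_mul, ← Finset.mul_sum, ← Complex.ofReal_sum]
    have : ∑ i ∈ Icc 1 (2 * (N + 1)), h ((eeP i c).comap io) =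
        2 * ((N + 1 : ℕ) : ℝ) * h (c.comap io) := by
      rw [← hh.2.2]
      refine Finset.sum_congr rfl fun i hi => ?_
      rw [Finset.mem_Icc] at hi
      rw [ee_comap (N + 1) i hi.1 hi.2]
    rw [this]
    push_cast
    ring
  · rintro ⟨B, c⟩ hx i hi
    rw [Finset.mem_Icc] at hi
    rcases Rep3.step a ha0 hl hx i hi.1 hi.2 with g | ⟨g, g'⟩ | ⟨B', hB', g, g'⟩
    · exact Or.inl g
    · right
      simp only [] at g g' ⊢
      rw [g, G_zero, hh.2.1 _ ?_ ?_]
      · simp
      · exact g' (N + 1 + 1) (by omega) le_rfl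
      · intro k
        exact g' (k + 1) (by omega) (by have := k.2; omega)
    · right
      simp only [] at g g' ⊢
      rw [g, G_smul, H1 B' hB', hh.1 _ g']
      simp
  · intro i hi
    rw [List.mem_map] at hi
    obtain ⟨k, hk, rfl⟩ := hi
    rw [List.mem_range] at hk
    rw [Finset.mem_Icc]
    omega
  · rintro x _ hx
    exfalso
    obtain ⟨p, hp1, hp2, hp3⟩ := Rep3.alive hx
    exact foldl_odd a (N + 1) x p hp1 hp2 hp3

lemma G_eq_GG (n : ℕ) (Ψ : Finset ℕ → ℂ) (B : Cov) : G n Ψ B = GG n n Ψ B := by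
  unfold G GG
  exact sum_congr rfl fun D _ => mul_comm _ _

/-- the pairing with fixed link states of the lower strips -/
lemma pair_compS (hq : q ^ 2 + q + 1 = 0) (ha : a ^ 2 = - q ^ 2) (hΦ : Sol q a Φ) (r m : ℕ)
    (h : Setoid (Pt (r + 1 + m)) → ℝ) (hh : Harm (r + 1 + m) h) (BL BR : Cov) (cL cR : Setoid ℕ)
    (hL : RepP a false r BL cL) (hR : RepP a true m BR cR) :
    (sumC (2 * r + 1) fun s => sumC (2 * m + 1) fun t =>
        BL (fn s) * BR (fn t) * V1 Φ (r + 1 + m) (s ++ false :: t)) =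
      a * h (ext2 r m (cL.comap io) (cR.comap io)) * cl a Φ (r + 1 + m) := by
  rw [← PL_compS a r m BL BR cL cR hL hR, ← GG_eq (r + 1 + m) (r + 1 + m) _ _
    (fun x hx hc => by rw [V1_supp hΦ _ x hx hc, zero_mul]), ← G_eq_GG]
  rw [rep3_pair q a hq ha (r + 1 + m) (by omega) _ ?_ h hh _ _
    (compS_rep a r m BL BR cL cR hL hR), extS_comap, fA_cl hq ha hΦ]
  intro D hD hc
  have := heig_sec hq ha hΦ (r + 1 + m) false D hD (by simpa using hc)
  simpa using this

/-- the percolation value of the glued sum -/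
theorem Nslit_value (hq : q ^ 2 + q + 1 = 0) (ha : a ^ 2 = - q ^ 2) (hΦ : Sol q a Φ) (r m : ℕ)
    (h : Setoid (Pt (r + 1 + m)) → ℝ) (hh : Harm (r + 1 + m) h)
    (L : (Setoid (Pt r) → ℝ) →ₗ[ℝ] ℝ) (h1 : L (fun _ => 1) = 1)
    (h2 : ∀ g, L (fun c => ∑ i ∈ Icc 1 (2 * r), g (ee r i c)) = 2 * r * L g)
    (h3 : ∀ g g', (∀ c, NC r c → g c = g' c) → L g = L g')
    (L' : (Setoid (Pt m) → ℝ) →ₗ[ℝ] ℝ) (h1' : L' (fun _ => 1) = 1)
    (h2' : ∀ g, L' (fun c => ∑ i ∈ Icc 1 (2 * m), g (ee m i c)) = 2 * m * L' g)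
    (h3' : ∀ g g', (∀ c, NC m c → g c = g' c) → L' g = L' g') :
    Nslit Φ (List.replicate (2 * r + 1) 1) (List.replicate (2 * (r + 1 + m) + 1) 1)
        (List.replicate (2 * m + 1) 1) =
      a * (L (fun c => L' fun d => h (ext2 r m c d)) : ℂ) * cl a Φ r * cl a Φ m *
        cl a Φ (r + 1 + m) := by
  have hL := cplx_stat L h1 h2 h3
  have hL' := cplx_stat L' h1' h2' h3'
  unfold Nslit
  rw [List.length_replicate, List.length_replicate]
  -- replace the lower vectors by the stationary laws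
  have e1 : (sumC (2 * r + 1) fun s => sumC (2 * m + 1) fun t =>
      Φ (List.replicate (2 * r + 1) 1) s * Φ (List.replicate (2 * (r + 1 + m) + 1) 1)
        (s ++ false :: t) * Φ (List.replicate (2 * m + 1) 1) ((t.map not).reverse)) =
      cl a Φ r * (cl a Φ m * sumC (2 * r + 1) fun s => vU a (cplx L) s *
        sumC (2 * m + 1) fun t => vL a (cplx L') t * V1 Φ (r + 1 + m) (s ++ false :: t)) := by
    rw [← sumC_mul, ← sumC_mul]
    apply sumC_congr
    intro s hs
    rw [← sumC_mul, ← sumC_mul, ← sumC_mul]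
    apply sumC_congr
    intro t ht
    have e2 : Φ (List.replicate (2 * m + 1) 1) ((t.map not).reverse) = V1 Φ m (flipL t) := rfl
    have e3 : Φ (List.replicate (2 * r + 1) 1) s = V1 Φ r s := rfl
    rw [e2, e3, V_eq_vL hq ha hΦ hL' t ht, V_eq_vU hq ha hΦ hL s hs]
    unfold V1
    ring
  rw [e1]
  have e4 : (sumC (2 * r + 1) fun s => vU a (cplx L) s *
        sumC (2 * m + 1) fun t => vL a (cplx L') t * V1 Φ (r + 1 + m) (s ++ false :: t)) =
      cplx L fun c => cplx L' fun d => sumC (2 * r + 1) fun s => sumC (2 * m + 1) fun t =>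
        BofU a r c (fn s) * Bof a m d (fn t) * V1 Φ (r + 1 + m) (s ++ false :: t) := by
    have e5 : ∀ c : Setoid (Pt r), (cplx L' fun d => sumC (2 * r + 1) fun s =>
        sumC (2 * m + 1) fun t =>
        BofU a r c (fn s) * Bof a m d (fn t) * V1 Φ (r + 1 + m) (s ++ false :: t)) =
        sumC (2 * r + 1) fun s => BofU a r c (fn s) *
          sumC (2 * m + 1) fun t => vL a (cplx L') t * V1 Φ (r + 1 + m) (s ++ false :: t) := by
      intro c
      rw [lin_sumC]
      apply sumC_congr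
      intro s _
      rw [lin_sumC, ← sumC_mul]
      apply sumC_congr
      intro t _
      unfold vL
      rw [mul_comm (cplx L' _), ← lin_mul, ← lin_mul]
      congr 1
      funext d
      ring
    simp only [e5]
    rw [lin_sumC]
    apply sumC_congr
    intro s _
    unfold vU
    rw [mul_comm, ← lin_mul]
    congr 1
    funext c
    ring
  rw [e4]
  have e6 : (cplx L fun c => cplx L' fun d => sumC (2 * r + 1) fun s => sumC (2 * m + 1) fun t =>
        BofU a r c (fn s) * Bof a m d (fn t) * V1 Φ (r + 1 + m) (s ++ false :: t)) =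
      cplx L fun c => (a * cl a Φ (r + 1 + m)) * ((L' fun d => h (ext2 r m c d) : ℝ) : ℂ) := by
    apply hL.nc
    intro c hc
    obtain ⟨BL, cL, hBL, rfl⟩ := (NC_iff a false r c).1 hc
    rw [BofU_eq hBL, ← cplx_real L', ← lin_mul]
    apply hL'.nc
    intro d hd
    obtain ⟨BR, cR, hBR, rfl⟩ := (NC_iff a true m d).1 hd
    rw [Bof_eq hBR, pair_compS hq ha hΦ r m h hh BL BR cL cR hBL hBR]
    ring
  rw [e6, lin_mul, cplx_real]
  ring

end Pool.Agent.H30.Glue
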